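import Pool.Agent.E8X.M5

/-!
# [E8X-M1] Eisenstein series in terms of theta functions
-/

set_option autoImplicit false

open scoped Real
open PowerSeries
open N19 (ex psi phs t2 t3 t4)
open NC11 (Ev qq)

namespace E8X

open UpperHalfPlane ModularForm MatrixGroups in
/-- The Eisenstein series as a function on `ℂ`. -/
noncomputable def eis {k : ℕ} (hk : 3 ≤ k) (z : ℂ) : ℂ :=
  if h : 0 < z.im then ModularForm.E hk ⟨z, h⟩ else 0

theorem eis_ev {k : ℕ} (hk : 3 ≤ k) (hk2 : Even k) (N D : ℤ) (hD : D ≠ 0)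
    (hβ : (2 * k / bernoulli k : ℚ) = -N / D) :
    Ev (C D + C N * Sg (k - 1)) (fun z => D * eis hk z) := by
  intro z hz
  have h1 := ModularForm.hasSum_qExpansion (ModularForm.E hk) one_pos
    one_mem_strictPeriods_SL (⟨z, hz⟩ : UpperHalfPlane)
  have h2 := h1.mul_left (D : ℂ)
  have e1 : eis hk z = ModularForm.E hk ⟨z, hz⟩ := by rw [eis, dif_pos hz]
  show HasSum _ ((D : ℂ) * eis hk z)
  rw [e1]
  convert! h2 using 1
  funext m
  have hD' : (D : ℂ) ≠ 0 := by exact_mod_cast hD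
  have e2 : (2 * k / bernoulli k : ℂ) = -N / D := by exact_mod_cast congrArg (fun x : ℚ => (x : ℂ)) hβ
  rw [EisensteinSeries.E_qExpansion_coeff hk hk2 m, e2]
  have e3 : Function.Periodic.qParam (1 : ℝ) z = qq z := by
    rw [Function.Periodic.qParam, qq]
    congr 1
    push_cast
    ring
  change _ = (D : ℂ) * (_ * (Function.Periodic.qParam (1 : ℝ) z) ^ m)
  rw [e3, ← mul_assoc]
  congr 1
  rw [map_add, coeff_C, coeff_C_mul, Sg, coeff_mk]
  by_cases hm : m = 0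
  · subst hm
    simp
  · simp only [hm, if_false]
    push_cast
    field_simp
    ring

open UpperHalfPlane ModularForm MatrixGroups in
theorem eis_S {k : ℕ} (hk : 3 ≤ k) {z : ℂ} (hz : 0 < z.im) : eis hk (-1 / z) = z ^ k * eis hk z := by
  have h1 : (⇑(ModularForm.E hk) ∣[(k : ℤ)] ModularGroup.S) = ⇑(ModularForm.E hk) :=
    SlashInvariantForm.slash_action_eqn (ModularForm.E hk) _ ⟨ModularGroup.S, rfl⟩
  have h2 := congrFun h1 ⟨z, hz⟩
  rw [SL_slash_apply, UpperHalfPlane.modular_S_smul] at h2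
  simp [UpperHalfPlane.denom, ModularGroup.S] at h2
  have hz' : 0 < (-1 / z).im := by
    have h := UpperHalfPlane.im_inv_neg_coe_pos ⟨z, hz⟩
    have e : (-1 / z : ℂ) = (-z)⁻¹ := by
      rw [neg_div, one_div, inv_neg]
    rw [e]
    exact h
  have hz0 : z ≠ 0 := by
    rintro rfl
    simp at hz
  rw [eis, dif_pos hz', eis, dif_pos hz, ← h2]
  have e : (⟨-1 / z, hz'⟩ : ℍ) = ⟨-z⁻¹, by
      have : -z⁻¹ = -1 / z := by field_simp
      rw [this]; exact hz'⟩ := by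
    apply UpperHalfPlane.ext
    show -1 / z = -z⁻¹
    field_simp
  rw [e]
  field_simp

/-! ### the theta side -/

/-- `(ϑ₂⁸ + ϑ₃⁸ + ϑ₄⁸)/2` -/
noncomputable def th8 (z : ℂ) : ℂ := (t2 z ^ 8 + t3 z ^ 8 + t4 z ^ 8) / 2

private theorem m1_half_pow (w : ℂ) : (w ^ (1 / 2 : ℂ)) ^ 8 = w ^ 4 := by
  rw [← Complex.cpow_nat_mul, ← Complex.cpow_natCast w 4]
  congr 1
  norm_num

theorem th8_S {z : ℂ} (hz : 0 < z.im) : th8 (-1 / z) = z ^ 4 * th8 z := by
  have hz0 : z ≠ 0 := by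
    rintro rfl
    simp at hz
  have e : (-Complex.I * z) ^ 4 = z ^ 4 := by
    rw [mul_pow, neg_pow, Complex.I_pow_four]
    ring
  rw [th8, th8, N19.t2_S hz, N19.t3_S hz, N19.t4_S hz, mul_pow, mul_pow, mul_pow, m1_half_pow, e]
  ring

theorem t3_sq {z : ℂ} (hz : 0 < z.im) : t3 (2 * z) ^ 2 = t3 (4 * z) ^ 2 + t2 (4 * z) ^ 2 := by
  have h1 := phs_ev.pow 2
  have h2 := ((N19.ev_ex phs_ev (k := 2) (by norm_num)).pow 2).add (((Ev.const 4).mul NC11.m7_Ev_X).mul
    ((N19.ev_ex psi_ev (k := 4) (by norm_num)).pow 2))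
  have h' : (C 4 : PowerSeries ℤ) = 4 := rfl
  rw [h'] at h2
  rw [r2] at h1
  have h3 := (h1 z hz).unique (h2 z hz)
  have e3 : (2 : ℂ) * (((2 : ℕ) : ℂ) * z) = 4 * z := by push_cast; ring
  have e4 : ((4 : ℕ) : ℂ) * z = 4 * z := by push_cast; ring
  simp only [e3, e4] at h3
  rw [h3, t2_Psi (4 * z)]
  have e5 : Complex.exp (π * Complex.I * (4 * z) / 4) ^ 2 = qq z := by
    rw [qq, ← Complex.exp_nat_mul]
    congr 1
    push_cast
    ring
  rw [← e5]
  push_cast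
  ring

theorem m1_half {z : ℂ} (hz : 0 < z.im) : 0 < (z / 2).im := by
  have : (z / 2).im = z.im / 2 := by
    rw [show z / 2 = z / (2 : ℝ) by push_cast; rfl, Complex.div_ofReal_im]
  rw [this]
  positivity

theorem t3_sq' {z : ℂ} (hz : 0 < z.im) : t3 z ^ 2 = t3 (2 * z) ^ 2 + t2 (2 * z) ^ 2 := by
  have h := t3_sq (m1_half hz)
  rwa [show 2 * (z / 2) = z by ring, show 4 * (z / 2) = 2 * z by ring] at h

theorem t4_sq' {z : ℂ} (hz : 0 < z.im) : t4 z ^ 2 = t3 (2 * z) ^ 2 - t2 (2 * z) ^ 2 := by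
  have hz1 : 0 < (z + 1).im := by simpa using hz
  have hz2 : 0 < (2 * z).im := by simpa using hz
  have hz3 : 0 < (2 * z + 1).im := by simpa using hz
  have h := t3_sq' hz1
  rw [N19.t3_add_one, show 2 * (z + 1) = 2 * z + 1 + 1 by ring, N19.t3_add_one, N19.t4_add_one hz2,
    N19.t2_add_one hz3, N19.t2_add_one hz2] at h
  have e : Complex.exp (π * Complex.I / 4) ^ 4 = -1 := by
    rw [← Complex.exp_nat_mul, ← Complex.exp_pi_mul_I]
    congr 1
    push_cast
    ring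
  rw [h]
  linear_combination (t2 (2 * z) ^ 2) * e

theorem th8_eq {z : ℂ} (hz : 0 < z.im) : th8 z =
    t3 (2 * z) ^ 8 + 14 * t3 (2 * z) ^ 4 * t2 (2 * z) ^ 4 + t2 (2 * z) ^ 8 := by
  have h2 := t2_sq hz
  have h3 := t3_sq' hz
  have h4 := t4_sq' hz
  have e : th8 z = ((t2 z ^ 2) ^ 4 + (t3 z ^ 2) ^ 4 + (t4 z ^ 2) ^ 4) / 2 := by
    rw [th8]
    ring
  rw [e, h2, h3, h4]
  ring

theorem th8_ev : Ev (phs ^ 8 + 224 * phs ^ 4 * F + 256 * F ^ 2) th8 := by
  have h := ((phs_ev.pow 8).add (((Ev.const 224).mul (phs_ev.pow 4)).mul F_ev)).add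
    ((Ev.const 256).mul (F_ev.pow 2))
  have h1 : (C 224 : PowerSeries ℤ) = 224 := rfl
  have h2 : (C 256 : PowerSeries ℤ) = 256 := rfl
  rw [h1, h2] at h
  refine Ev.congr h ?_
  intro z hz
  rw [th8_eq hz]
  push_cast
  ring

theorem bern4 : (2 * (4 : ℕ) / bernoulli 4 : ℚ) = -(240 : ℤ) / (1 : ℤ) := by
  rw [show bernoulli 4 = -1 / 30 by decide +kernel]
  norm_num

theorem bern12 : (2 * (12 : ℕ) / bernoulli 12 : ℚ) = -(65520 : ℤ) / (691 : ℤ) := by
  rw [show bernoulli 12 = -691 / 2730 by decide +kernel]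
  norm_num

theorem coeff_zero_Sg (k : ℕ) : coeff 0 (Sg k) = 0 := by
  rw [Sg, coeff_mk]
  simp

theorem coeff_one_Sg (k : ℕ) : coeff 1 (Sg k) = 1 := by
  rw [Sg, coeff_mk]
  simp

theorem coeff_zero_phs : coeff 0 phs = 1 := by
  rw [phs, coeff_mk, if_pos rfl]

theorem coeff_zero_F : coeff 0 F = 0 := by
  rw [coeff_zero_eq_constantCoeff_apply, F]
  simp

theorem E4_eq : 1 + 240 * Sg 3 = phs ^ 8 + 224 * phs ^ 4 * F + 256 * F ^ 2 := by
  have h1 := eis_ev (k := 4) (by norm_num) ⟨2, rfl⟩ 240 1 (by norm_num) (by exact bern4)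
  have h1' : (C 1 + C 240 * Sg (4 - 1) : PowerSeries ℤ) = 1 + 240 * Sg 3 := rfl
  rw [h1'] at h1
  have h2 := h1.sub th8_ev
  have h0 : constantCoeff phs = 1 := by
    rw [← coeff_zero_eq_constantCoeff_apply, coeff_zero_phs]
  have h00 : constantCoeff F = 0 := by
    rw [← coeff_zero_eq_constantCoeff_apply, coeff_zero_F]
  have h000 : constantCoeff (Sg 3) = 0 := by
    rw [← coeff_zero_eq_constantCoeff_apply, coeff_zero_Sg]
  have h3 := cusp_zero (k := 4) (by norm_num) h2 (by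
    rw [coeff_zero_eq_constantCoeff_apply]
    simp [h0, h00, h000]) (by
    intro z hz
    rw [eis_S _ hz, th8_S hz]
    push_cast
    ring)
  exact sub_eq_zero.1 h3

theorem S11_eq : 691 + 65520 * Sg 11 = 691 * (1 + 240 * Sg 3) ^ 3 - 432000 * Dl := by
  have h4 := eis_ev (k := 4) (by norm_num) ⟨2, rfl⟩ 240 1 (by norm_num) (by exact bern4)
  have h4' : (C 1 + C 240 * Sg (4 - 1) : PowerSeries ℤ) = 1 + 240 * Sg 3 := rfl
  rw [h4'] at h4
  have h12 := eis_ev (k := 12) (by norm_num) ⟨6, rfl⟩ 65520 691 (by norm_num) (by exact bern12)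
  have h12' : (C 691 + C 65520 * Sg (12 - 1) : PowerSeries ℤ) = 691 + 65520 * Sg 11 := rfl
  rw [h12'] at h12
  have h6 := h12.sub ((Ev.const 691).mul (h4.pow 3))
  have h6' : (C 691 : PowerSeries ℤ) = 691 := rfl
  rw [h6'] at h6
  have c3 : constantCoeff (Sg 3) = 0 := by
    rw [← coeff_zero_eq_constantCoeff_apply, coeff_zero_Sg]
  have c11 : constantCoeff (Sg 11) = 0 := by
    rw [← coeff_zero_eq_constantCoeff_apply, coeff_zero_Sg]
  have h7 := cusp_twelve h6 (by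
    rw [coeff_zero_eq_constantCoeff_apply]
    simp [c3, c11]) (by
    intro z hz
    rw [eis_S _ hz, eis_S _ hz]
    push_cast
    ring)
  have h8 : coeff 1 (691 + 65520 * Sg 11 - 691 * (1 + 240 * Sg 3) ^ 3) = -432000 := by
    obtain ⟨S, hS⟩ : (X : PowerSeries ℤ) ∣ Sg 3 := by
      rw [PowerSeries.X_dvd_iff, c3]
    have hS0 : constantCoeff S = 1 := by
      have := coeff_one_Sg 3
      rw [hS, show (1 : ℕ) = 0 + 1 from rfl, coeff_succ_X_mul, coeff_zero_eq_constantCoeff_apply] at this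
      exact this
    obtain ⟨S', hS'⟩ : (X : PowerSeries ℤ) ∣ Sg 11 := by
      rw [PowerSeries.X_dvd_iff, c11]
    have hS0' : constantCoeff S' = 1 := by
      have := coeff_one_Sg 11
      rw [hS', show (1 : ℕ) = 0 + 1 from rfl, coeff_succ_X_mul, coeff_zero_eq_constantCoeff_apply] at this
      exact this
    have e : (691 + 65520 * Sg 11 - 691 * (1 + 240 * Sg 3) ^ 3 : PowerSeries ℤ) =
        X * (65520 * S' - 691 * (720 * S + 172800 * X * S ^ 2 + 13824000 * X ^ 2 * S ^ 3)) := by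
      rw [hS, hS']
      ring
    rw [e, show (1 : ℕ) = 0 + 1 from rfl, coeff_succ_X_mul, coeff_zero_eq_constantCoeff_apply]
    simp only [map_sub, map_mul, map_add, map_pow, hS0, hS0', constantCoeff_X]
    have k1 : constantCoeff (65520 : PowerSeries ℤ) = 65520 := rfl
    have k2 : constantCoeff (691 : PowerSeries ℤ) = 691 := rfl
    have k3 : constantCoeff (720 : PowerSeries ℤ) = 720 := rfl
    rw [k1, k2, k3]
    norm_num
  rw [h8] at h7
  have e9 : (C (-432000) : PowerSeries ℤ) = -432000 := by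
    rw [map_neg]
    rfl
  rw [e9] at h7
  linear_combination h7

end E8X
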