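import Pool.Agent.E8X.F2
import Pool.Agent.E8X.M1

/-!
# [E8X-F3] the parts with exponents `7` modulo `8`
-/

set_option autoImplicit false

open PowerSeries
open N19 (ex psi phs)

namespace E8X

/-- The coefficients of `f` vanish outside the residue class `r` modulo `M`. -/
def F3Cl (M r : ℕ) (f : PowerSeries ℤ) : Prop := ∀ n, n % M ≠ r % M → coeff n f = 0

theorem F3Cl.mul {M r s : ℕ} {f g : PowerSeries ℤ} (hf : F3Cl M r f) (hg : F3Cl M s g) :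
    F3Cl M (r + s) (f * g) := by
  intro n hn
  rw [coeff_mul]
  refine Finset.sum_eq_zero fun p hp => ?_
  have hp' : p.1 + p.2 = n := by simpa using hp
  by_cases h1 : p.1 % M = r % M
  · have h2 : p.2 % M ≠ s % M := by
      intro h2
      apply hn
      rw [← hp', Nat.add_mod, h1, h2, ← Nat.add_mod]
    rw [hg _ h2, mul_zero]
  · rw [hf _ h1, zero_mul]

theorem F3Cl.one (M : ℕ) : F3Cl M 0 1 := by
  intro n hn
  rw [coeff_one, if_neg]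
  rintro rfl
  exact hn rfl

theorem F3Cl.pow {M r : ℕ} {f : PowerSeries ℤ} (hf : F3Cl M r f) (k : ℕ) : F3Cl M (r * k) (f ^ k) := by
  induction k with
  | zero => simpa using F3Cl.one M
  | succ k ih =>
    rw [pow_succ, Nat.mul_succ]
    exact ih.mul hf

theorem F3Cl.add {M r : ℕ} {f g : PowerSeries ℤ} (hf : F3Cl M r f) (hg : F3Cl M r g) :
    F3Cl M r (f + g) := by
  intro n hn
  rw [map_add, hf n hn, hg n hn, add_zero]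

theorem F3Cl.congr {M r s : ℕ} {f : PowerSeries ℤ} (hf : F3Cl M r f) (h : r % M = s % M) :
    F3Cl M s f := by
  intro n hn
  exact hf n (by rw [h]; exact hn)

theorem F3Cl.const (M : ℕ) (c : ℕ) : F3Cl M 0 ((c : ℕ) : PowerSeries ℤ) := by
  induction c with
  | zero =>
    intro n _
    simp
  | succ c ih =>
    rw [Nat.cast_succ]
    exact ih.add (F3Cl.one M)

theorem F3Cl.ofNat (M : ℕ) (c : ℕ) [c.AtLeastTwo] : F3Cl M 0 (OfNat.ofNat c : PowerSeries ℤ) := by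
  have h : F3Cl M 0 ((OfNat.ofNat c : ℕ) : PowerSeries ℤ) := F3Cl.const M _
  rwa [Nat.cast_ofNat] at h

theorem f3_coeff_ex (k : ℕ) (B : PowerSeries ℤ) (n : ℕ) :
    coeff n (ex k B) = if k ∣ n then coeff (n / k) B else 0 := by
  rw [ex, coeff_mk]

theorem f3_ex {M k : ℕ} (h : M ∣ k) (B : PowerSeries ℤ) : F3Cl M 0 (ex k B) := by
  intro n hn
  rw [f3_coeff_ex, if_neg]
  intro h1
  apply hn
  rw [Nat.mod_eq_zero_of_dvd (h.trans h1), Nat.zero_mod]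

theorem f3_X (M j : ℕ) : F3Cl M j (X ^ j) := by
  intro n hn
  rw [coeff_X_pow, if_neg]
  rintro rfl
  exact hn rfl

theorem Cls.mul {r s : ℕ} {f g : PowerSeries ℤ} (hf : Cls r f) (hg : Cls s g) : Cls (r + s) (f * g) :=
  F3Cl.mul (M := 8) hf hg

theorem Cls.pow {r : ℕ} {f : PowerSeries ℤ} (hf : Cls r f) (k : ℕ) : Cls (r * k) (f ^ k) :=
  F3Cl.pow (M := 8) hf k

theorem cls_A : Cls 0 Aa := f3_ex (M := 8) (by norm_num) phs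

theorem cls_B : Cls 4 Bb := by
  have h := (f3_X 8 4).mul (f3_ex (M := 8) (k := 32) (by norm_num) psi)
  exact h

/-- `u = X C` -/
theorem cls_u : Cls 1 (X * Cc) := by
  have h := (f3_X 8 1).mul (f3_ex (M := 8) (k := 8) (by norm_num) psi)
  rw [pow_one] at h
  exact h

/-- `(A + 2B)^k u^j` has exponents `≡ j mod 4` only. -/
theorem coeff_other {n j k : ℕ} (hn : n % 8 = 7) (hj : j % 4 ≠ 3) :
    coeff n (ex 4 phs ^ k * (X * Cc) ^ j) = 0 := by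
  have h1 : F3Cl 4 0 (ex 4 phs ^ k) := by
    have h := (f3_ex (M := 4) (k := 4) (by norm_num) phs).pow k
    rwa [Nat.zero_mul] at h
  have h2 : F3Cl 4 1 (X * Cc) := by
    have h := (f3_X 4 1).mul (f3_ex (M := 4) (k := 8) (by norm_num) psi)
    rw [pow_one] at h
    exact h
  have h3 := h1.mul (h2.pow j)
  apply h3
  rw [Nat.zero_add, Nat.one_mul]
  omega

/-- The part of `E^k u^j` with exponents `7 mod 8`, `j ≡ 3 mod 8`, is the part of `(A + 2B)^k` odd in `B`,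
times `u^j`. -/
theorem coeff_three {n j k : ℕ} (hn : n % 8 = 7) (hj : j % 8 = 3) (P Q : PowerSeries ℤ)
    (h : (Aa + 2 * Bb) ^ k = P + Bb * Q) (hP : Cls 0 P) (hQ : Cls 0 Q) :
    coeff n (ex 4 phs ^ k * (X * Cc) ^ j) = coeff n (Bb * Q * (X * Cc) ^ j) := by
  have hq := hQ
  rw [ex4_phs, h, add_mul, map_add, (hP.mul (cls_u.pow j)) n (by omega), zero_add]

theorem coeff_seven {n j k : ℕ} (hn : n % 8 = 7) (hj : j % 8 = 7) (P Q : PowerSeries ℤ)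
    (h : (Aa + 2 * Bb) ^ k = P + Bb * Q) (hP : Cls 0 P) (hQ : Cls 0 Q) :
    coeff n (ex 4 phs ^ k * (X * Cc) ^ j) = coeff n (P * (X * Cc) ^ j) := by
  have hp := hP
  rw [ex4_phs, h, add_mul, map_add, ((cls_B.mul hQ).mul (cls_u.pow j)) n (by omega), add_zero]

theorem f3_A (a : ℕ) : F3Cl 8 0 (Aa ^ a) := by
  have h := F3Cl.pow (M := 8) (r := 0) cls_A a
  rwa [Nat.zero_mul] at h

theorem f3_B (b : ℕ) : F3Cl 8 0 ((Bb ^ 2) ^ b) := by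
  have h := F3Cl.pow (M := 8) (r := 4 * 2) (F3Cl.pow (M := 8) (r := 4) cls_B 2) b
  refine h.congr ?_
  omega

theorem f3_mul0 {f g : PowerSeries ℤ} (hf : F3Cl 8 0 f) (hg : F3Cl 8 0 g) : F3Cl 8 0 (f * g) :=
  F3Cl.mul (M := 8) hf hg

/-- even and odd part of `(A + 2 B)^21` -/
noncomputable def f3P21 : PowerSeries ℤ := 1 * Aa ^ 21 + 840 * Aa ^ 19 * (Bb ^ 2) ^ 1 + 95760 * Aa ^ 17 * (Bb ^ 2) ^ 2 + 3472896 * Aa ^ 15 * (Bb ^ 2) ^ 3 + 52093440 * Aa ^ 13 * (Bb ^ 2) ^ 4 + 361181184 * Aa ^ 11 * (Bb ^ 2) ^ 5 + 1203937280 * Aa ^ 9 * (Bb ^ 2) ^ 6 + 1905131520 * Aa ^ 7 * (Bb ^ 2) ^ 7 + 1333592064 * Aa ^ 5 * (Bb ^ 2) ^ 8 + 348651520 * Aa ^ 3 * (Bb ^ 2) ^ 9 + 22020096 * Aa ^ 1 * (Bb ^ 2) ^ 10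

noncomputable def f3Q21 : PowerSeries ℤ := 42 * Aa ^ 20 + 10640 * Aa ^ 18 * (Bb ^ 2) ^ 1 + 651168 * Aa ^ 16 * (Bb ^ 2) ^ 2 + 14883840 * Aa ^ 14 * (Bb ^ 2) ^ 3 + 150492160 * Aa ^ 12 * (Bb ^ 2) ^ 4 + 722362368 * Aa ^ 10 * (Bb ^ 2) ^ 5 + 1666990080 * Aa ^ 8 * (Bb ^ 2) ^ 6 + 1778122752 * Aa ^ 6 * (Bb ^ 2) ^ 7 + 784465920 * Aa ^ 4 * (Bb ^ 2) ^ 8 + 110100480 * Aa ^ 2 * (Bb ^ 2) ^ 9 + 2097152 * (Bb ^ 2) ^ 10

theorem f3_split21 : (Aa + 2 * Bb) ^ 21 = f3P21 + Bb * f3Q21 := by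
  unfold f3P21 f3Q21
  ring

theorem f3_P21 : F3Cl 8 0 f3P21 := by
  unfold f3P21
  repeat' first
    | exact f3_A _
    | exact f3_B _
    | exact F3Cl.ofNat 8 _
    | exact F3Cl.one 8
    | refine F3Cl.add ?_ ?_
    | refine f3_mul0 ?_ ?_

theorem f3_Q21 : F3Cl 8 0 f3Q21 := by
  unfold f3Q21
  repeat' first
    | exact f3_A _
    | exact f3_B _
    | exact F3Cl.ofNat 8 _
    | exact F3Cl.one 8
    | refine F3Cl.add ?_ ?_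
    | refine f3_mul0 ?_ ?_

/-- even and odd part of `(A + 2 B)^17` -/
noncomputable def f3P17 : PowerSeries ℤ := 1 * Aa ^ 17 + 544 * Aa ^ 15 * (Bb ^ 2) ^ 1 + 38080 * Aa ^ 13 * (Bb ^ 2) ^ 2 + 792064 * Aa ^ 11 * (Bb ^ 2) ^ 3 + 6223360 * Aa ^ 9 * (Bb ^ 2) ^ 4 + 19914752 * Aa ^ 7 * (Bb ^ 2) ^ 5 + 25346048 * Aa ^ 5 * (Bb ^ 2) ^ 6 + 11141120 * Aa ^ 3 * (Bb ^ 2) ^ 7 + 1114112 * Aa ^ 1 * (Bb ^ 2) ^ 8

noncomputable def f3Q17 : PowerSeries ℤ := 34 * Aa ^ 16 + 5440 * Aa ^ 14 * (Bb ^ 2) ^ 1 + 198016 * Aa ^ 12 * (Bb ^ 2) ^ 2 + 2489344 * Aa ^ 10 * (Bb ^ 2) ^ 3 + 12446720 * Aa ^ 8 * (Bb ^ 2) ^ 4 + 25346048 * Aa ^ 6 * (Bb ^ 2) ^ 5 + 19496960 * Aa ^ 4 * (Bb ^ 2) ^ 6 + 4456448 * Aa ^ 2 * (Bb ^ 2) ^ 7 + 131072 * (Bb ^ 2) ^ 8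

theorem f3_split17 : (Aa + 2 * Bb) ^ 17 = f3P17 + Bb * f3Q17 := by
  unfold f3P17 f3Q17
  ring

theorem f3_P17 : F3Cl 8 0 f3P17 := by
  unfold f3P17
  repeat' first
    | exact f3_A _
    | exact f3_B _
    | exact F3Cl.ofNat 8 _
    | exact F3Cl.one 8
    | refine F3Cl.add ?_ ?_
    | refine f3_mul0 ?_ ?_

theorem f3_Q17 : F3Cl 8 0 f3Q17 := by
  unfold f3Q17
  repeat' first
    | exact f3_A _
    | exact f3_B _
    | exact F3Cl.ofNat 8 _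
    | exact F3Cl.one 8
    | refine F3Cl.add ?_ ?_
    | refine f3_mul0 ?_ ?_

/-- even and odd part of `(A + 2 B)^13` -/
noncomputable def f3P13 : PowerSeries ℤ := 1 * Aa ^ 13 + 312 * Aa ^ 11 * (Bb ^ 2) ^ 1 + 11440 * Aa ^ 9 * (Bb ^ 2) ^ 2 + 109824 * Aa ^ 7 * (Bb ^ 2) ^ 3 + 329472 * Aa ^ 5 * (Bb ^ 2) ^ 4 + 292864 * Aa ^ 3 * (Bb ^ 2) ^ 5 + 53248 * Aa ^ 1 * (Bb ^ 2) ^ 6

noncomputable def f3Q13 : PowerSeries ℤ := 26 * Aa ^ 12 + 2288 * Aa ^ 10 * (Bb ^ 2) ^ 1 + 41184 * Aa ^ 8 * (Bb ^ 2) ^ 2 + 219648 * Aa ^ 6 * (Bb ^ 2) ^ 3 + 366080 * Aa ^ 4 * (Bb ^ 2) ^ 4 + 159744 * Aa ^ 2 * (Bb ^ 2) ^ 5 + 8192 * (Bb ^ 2) ^ 6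

theorem f3_split13 : (Aa + 2 * Bb) ^ 13 = f3P13 + Bb * f3Q13 := by
  unfold f3P13 f3Q13
  ring

theorem f3_P13 : F3Cl 8 0 f3P13 := by
  unfold f3P13
  repeat' first
    | exact f3_A _
    | exact f3_B _
    | exact F3Cl.ofNat 8 _
    | exact F3Cl.one 8
    | refine F3Cl.add ?_ ?_
    | refine f3_mul0 ?_ ?_

theorem f3_Q13 : F3Cl 8 0 f3Q13 := by
  unfold f3Q13
  repeat' first
    | exact f3_A _
    | exact f3_B _
    | exact F3Cl.ofNat 8 _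
    | exact F3Cl.one 8
    | refine F3Cl.add ?_ ?_
    | refine f3_mul0 ?_ ?_

/-- even and odd part of `(A + 2 B)^9` -/
noncomputable def f3P9 : PowerSeries ℤ := 1 * Aa ^ 9 + 144 * Aa ^ 7 * (Bb ^ 2) ^ 1 + 2016 * Aa ^ 5 * (Bb ^ 2) ^ 2 + 5376 * Aa ^ 3 * (Bb ^ 2) ^ 3 + 2304 * Aa ^ 1 * (Bb ^ 2) ^ 4

noncomputable def f3Q9 : PowerSeries ℤ := 18 * Aa ^ 8 + 672 * Aa ^ 6 * (Bb ^ 2) ^ 1 + 4032 * Aa ^ 4 * (Bb ^ 2) ^ 2 + 4608 * Aa ^ 2 * (Bb ^ 2) ^ 3 + 512 * (Bb ^ 2) ^ 4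

theorem f3_split9 : (Aa + 2 * Bb) ^ 9 = f3P9 + Bb * f3Q9 := by
  unfold f3P9 f3Q9
  ring

theorem f3_P9 : F3Cl 8 0 f3P9 := by
  unfold f3P9
  repeat' first
    | exact f3_A _
    | exact f3_B _
    | exact F3Cl.ofNat 8 _
    | exact F3Cl.one 8
    | refine F3Cl.add ?_ ?_
    | refine f3_mul0 ?_ ?_

theorem f3_Q9 : F3Cl 8 0 f3Q9 := by
  unfold f3Q9
  repeat' first
    | exact f3_A _
    | exact f3_B _
    | exact F3Cl.ofNat 8 _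
    | exact F3Cl.one 8
    | refine F3Cl.add ?_ ?_
    | refine f3_mul0 ?_ ?_

/-- even and odd part of `(A + 2 B)^5` -/
noncomputable def f3P5 : PowerSeries ℤ := 1 * Aa ^ 5 + 40 * Aa ^ 3 * (Bb ^ 2) ^ 1 + 80 * Aa ^ 1 * (Bb ^ 2) ^ 2

noncomputable def f3Q5 : PowerSeries ℤ := 10 * Aa ^ 4 + 80 * Aa ^ 2 * (Bb ^ 2) ^ 1 + 32 * (Bb ^ 2) ^ 2

theorem f3_split5 : (Aa + 2 * Bb) ^ 5 = f3P5 + Bb * f3Q5 := by
  unfold f3P5 f3Q5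
  ring

theorem f3_P5 : F3Cl 8 0 f3P5 := by
  unfold f3P5
  repeat' first
    | exact f3_A _
    | exact f3_B _
    | exact F3Cl.ofNat 8 _
    | exact F3Cl.one 8
    | refine F3Cl.add ?_ ?_
    | refine f3_mul0 ?_ ?_

theorem f3_Q5 : F3Cl 8 0 f3Q5 := by
  unfold f3Q5
  repeat' first
    | exact f3_A _
    | exact f3_B _
    | exact F3Cl.ofNat 8 _
    | exact F3Cl.one 8
    | refine F3Cl.add ?_ ?_
    | refine f3_mul0 ?_ ?_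

/-- even and odd part of `(A + 2 B)^1` -/
noncomputable def f3P1 : PowerSeries ℤ := 1 * Aa ^ 1

noncomputable def f3Q1 : PowerSeries ℤ := 2

theorem f3_split1 : (Aa + 2 * Bb) ^ 1 = f3P1 + Bb * f3Q1 := by
  unfold f3P1 f3Q1
  ring

theorem f3_P1 : F3Cl 8 0 f3P1 := by
  unfold f3P1
  repeat' first
    | exact f3_A _
    | exact f3_B _
    | exact F3Cl.ofNat 8 _
    | exact F3Cl.one 8
    | refine F3Cl.add ?_ ?_
    | refine f3_mul0 ?_ ?_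

theorem f3_Q1 : F3Cl 8 0 f3Q1 := by
  unfold f3Q1
  repeat' first
    | exact f3_A _
    | exact f3_B _
    | exact F3Cl.ofNat 8 _
    | exact F3Cl.one 8
    | refine F3Cl.add ?_ ?_
    | refine f3_mul0 ?_ ?_

theorem f3_Dl : Dl = (1 : ℤ) • (ex 4 phs ^ 23 * (X * Cc) ^ 1) + (-24 : ℤ) • (ex 4 phs ^ 22 * (X * Cc) ^ 2) + (252 : ℤ) • (ex 4 phs ^ 21 * (X * Cc) ^ 3) + (-1472 : ℤ) • (ex 4 phs ^ 20 * (X * Cc) ^ 4) + (4784 : ℤ) • (ex 4 phs ^ 19 * (X * Cc) ^ 5) + (-4992 : ℤ) • (ex 4 phs ^ 18 * (X * Cc) ^ 6) + (-27328 : ℤ) • (ex 4 phs ^ 17 * (X * Cc) ^ 7) + (143360 : ℤ) • (ex 4 phs ^ 16 * (X * Cc) ^ 8) + (-296448 : ℤ) • (ex 4 phs ^ 15 * (X * Cc) ^ 9) + (86016 : ℤ) • (ex 4 phs ^ 14 * (X * Cc) ^ 10) + (1251328 : ℤ) • (ex 4 phs ^ 13 * (X * Cc) ^ 11) + (-3833856 : ℤ) • (ex 4 phs ^ 12 * (X * Cc) ^ 12) + (5005312 : ℤ) • (ex 4 phs ^ 11 * (X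 * Cc) ^ 13) + (1376256 : ℤ) • (ex 4 phs ^ 10 * (X * Cc) ^ 14) + (-18972672 : ℤ) • (ex 4 phs ^ 9 * (X * Cc) ^ 15) + (36700160 : ℤ) • (ex 4 phs ^ 8 * (X * Cc) ^ 16) + (-27983872 : ℤ) • (ex 4 phs ^ 7 * (X * Cc) ^ 17) + (-20447232 : ℤ) • (ex 4 phs ^ 6 * (X * Cc) ^ 18) + (78381056 : ℤ) • (ex 4 phs ^ 5 * (X * Cc) ^ 19) + (-96468992 : ℤ) • (ex 4 phs ^ 4 * (X * Cc) ^ 20) + (66060288 : ℤ) • (ex 4 phs ^ 3 * (X * Cc) ^ 21) + (-25165824 : ℤ) • (ex 4 phs ^ 2 * (X * Cc) ^ 22) + (4194304 : ℤ) • (ex 4 phs ^ 1 * (X * Cc) ^ 23) := by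
  rw [Dl_eq]
  simp only [zsmul_eq_mul]
  push_cast
  ring

theorem f3_u4 : (X * Cc) ^ 4 = Aa * Bb * (Aa ^ 2 + 4 * Bb ^ 2) := by
  rw [mul_pow, r4]

theorem f3_rhs : (X * Cc) ^ 3 * Bb *
    (-16744 * Aa ^ 20 + 1267392 * Aa ^ 18 * Bb ^ 2 + 15561088 * Aa ^ 16 * Bb ^ 4
      - 146878464 * Aa ^ 14 * Bb ^ 6 - 376688640 * Aa ^ 12 * Bb ^ 8 + 5931565056 * Aa ^ 10 * Bb ^ 10
      - 3579904000 * Aa ^ 8 * Bb ^ 12 - 62640881664 * Aa ^ 6 * Bb ^ 14 + 74125410304 * Aa ^ 4 * Bb ^ 16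
      + 69973573632 * Aa ^ 2 * Bb ^ 18 + 528482304 * Bb ^ 20) =
    (252 : ℤ) • (Bb * f3Q21 * (X * Cc) ^ 3) + (-27328 : ℤ) • (f3P17 * (X * Cc) ^ 7) + (1251328 : ℤ) • (Bb * f3Q13 * (X * Cc) ^ 11) + (-18972672 : ℤ) • (f3P9 * (X * Cc) ^ 15) + (78381056 : ℤ) • (Bb * f3Q5 * (X * Cc) ^ 19) + (4194304 : ℤ) • (f3P1 * (X * Cc) ^ 23) := by
  have h7 : (X * Cc) ^ 7 = (X * Cc) ^ 3 * (Aa * Bb * (Aa ^ 2 + 4 * Bb ^ 2)) := by
    rw [← f3_u4]; ring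
  have h11 : (X * Cc) ^ 11 = (X * Cc) ^ 3 * (Aa * Bb * (Aa ^ 2 + 4 * Bb ^ 2)) ^ 2 := by
    rw [← f3_u4]; ring
  have h15 : (X * Cc) ^ 15 = (X * Cc) ^ 3 * (Aa * Bb * (Aa ^ 2 + 4 * Bb ^ 2)) ^ 3 := by
    rw [← f3_u4]; ring
  have h19 : (X * Cc) ^ 19 = (X * Cc) ^ 3 * (Aa * Bb * (Aa ^ 2 + 4 * Bb ^ 2)) ^ 4 := by
    rw [← f3_u4]; ring
  have h23 : (X * Cc) ^ 23 = (X * Cc) ^ 3 * (Aa * Bb * (Aa ^ 2 + 4 * Bb ^ 2)) ^ 5 := by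
    rw [← f3_u4]; ring
  rw [h7, h11, h15, h19, h23]
  unfold f3Q21 f3P17 f3Q13 f3P9 f3Q5 f3P1
  generalize (X * Cc : PowerSeries ℤ) ^ 3 = u
  generalize Aa = a
  generalize Bb = b
  simp only [zsmul_eq_mul]
  push_cast
  ring

/-- Part of `Δ` with exponents `7 mod 8`. From `Dl_eq` (polynomial of degree 24 in `E = ex 4 phs = A + 2B` and
`u = X C`), the lemmas above and `r4`: `u⁴ = X⁴C⁴ = A B (A² + 4B²)`. -/
theorem Dl_seven {n : ℕ} (hn : n % 8 = 7) : tau n = coeff n ((X * Cc) ^ 3 * Bb *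
    (-16744 * Aa ^ 20 + 1267392 * Aa ^ 18 * Bb ^ 2 + 15561088 * Aa ^ 16 * Bb ^ 4
      - 146878464 * Aa ^ 14 * Bb ^ 6 - 376688640 * Aa ^ 12 * Bb ^ 8 + 5931565056 * Aa ^ 10 * Bb ^ 10
      - 3579904000 * Aa ^ 8 * Bb ^ 12 - 62640881664 * Aa ^ 6 * Bb ^ 14 + 74125410304 * Aa ^ 4 * Bb ^ 16
      + 69973573632 * Aa ^ 2 * Bb ^ 18 + 528482304 * Bb ^ 20)) := by
  rw [tau, f3_rhs, f3_Dl]
  simp only [map_add, map_zsmul]
  rw [coeff_other (k := 23) (j := 1) hn (by norm_num)]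
  rw [coeff_other (k := 22) (j := 2) hn (by norm_num)]
  rw [coeff_three (k := 21) (j := 3) hn (by norm_num) f3P21 f3Q21 f3_split21 f3_P21 f3_Q21]
  rw [coeff_other (k := 20) (j := 4) hn (by norm_num)]
  rw [coeff_other (k := 19) (j := 5) hn (by norm_num)]
  rw [coeff_other (k := 18) (j := 6) hn (by norm_num)]
  rw [coeff_seven (k := 17) (j := 7) hn (by norm_num) f3P17 f3Q17 f3_split17 f3_P17 f3_Q17]
  rw [coeff_other (k := 16) (j := 8) hn (by norm_num)]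
  rw [coeff_other (k := 15) (j := 9) hn (by norm_num)]
  rw [coeff_other (k := 14) (j := 10) hn (by norm_num)]
  rw [coeff_three (k := 13) (j := 11) hn (by norm_num) f3P13 f3Q13 f3_split13 f3_P13 f3_Q13]
  rw [coeff_other (k := 12) (j := 12) hn (by norm_num)]
  rw [coeff_other (k := 11) (j := 13) hn (by norm_num)]
  rw [coeff_other (k := 10) (j := 14) hn (by norm_num)]
  rw [coeff_seven (k := 9) (j := 15) hn (by norm_num) f3P9 f3Q9 f3_split9 f3_P9 f3_Q9]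
  rw [coeff_other (k := 8) (j := 16) hn (by norm_num)]
  rw [coeff_other (k := 7) (j := 17) hn (by norm_num)]
  rw [coeff_other (k := 6) (j := 18) hn (by norm_num)]
  rw [coeff_three (k := 5) (j := 19) hn (by norm_num) f3P5 f3Q5 f3_split5 f3_P5 f3_Q5]
  rw [coeff_other (k := 4) (j := 20) hn (by norm_num)]
  rw [coeff_other (k := 3) (j := 21) hn (by norm_num)]
  rw [coeff_other (k := 2) (j := 22) hn (by norm_num)]
  rw [coeff_seven (k := 1) (j := 23) hn (by norm_num) f3P1 f3Q1 f3_split1 f3_P1 f3_Q1]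
  simp only [smul_zero, zero_add, add_zero]

end E8X
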