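import Pool.Agent.E8X.M5
import Pool.Agent.E8X.F3

/-!
# [E8X-M3] the eighth power of `∑ χ₋₄(k) k X^{k²}`
-/

set_option autoImplicit false

open scoped Real
open PowerSeries
open N19 (ex psi phs t2 t3 t4)
open NC11 (Ev qq)

namespace E8X

/-- `η³` as a theta series: `∑_{n ≥ 0} (-1)^n (2n+1) e^{πi(2n+1)²z/4}`. -/
noncomputable def Jf (z : ℂ) : ℂ :=
  Complex.exp (π * Complex.I * z / 4) * jacobiTheta₂' ((1 + z) / 2) z / (2 * π * Complex.I)

theorem m3_hasSum {z : ℂ} (hz : 0 < z.im) :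
    HasSum (fun n : ℤ => (n : ℂ) * (-1) ^ n * Complex.exp (π * Complex.I * (2 * (n : ℂ) + 1) ^ 2 / 4 * z))
      (Jf z) := by
  have h := (hasSum_jacobiTheta₂'_term ((1 + z) / 2) hz).mul_left
    (Complex.exp (π * Complex.I * z / 4) / (2 * π * Complex.I))
  rw [Jf]
  convert! h using 1
  · funext n
    rw [jacobiTheta₂'_term, jacobiTheta₂_term]
    have hne : (2 * (π : ℂ) * Complex.I) ≠ 0 := Complex.two_pi_I_ne_zero
    have e1 : ((-1 : ℂ)) ^ n = Complex.exp (π * Complex.I * n) := by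
      rw [← Complex.exp_pi_mul_I, ← Complex.exp_int_mul]
      congr 1
      ring
    have e2 : Complex.exp (π * Complex.I * n) *
        Complex.exp (π * Complex.I * (2 * (n : ℂ) + 1) ^ 2 / 4 * z) =
        Complex.exp (π * Complex.I * z / 4) *
        Complex.exp (2 * π * Complex.I * n * ((1 + z) / 2) + π * Complex.I * n ^ 2 * z) := by
      rw [← Complex.exp_add, ← Complex.exp_add]
      congr 1
      ring
    rw [e1]
    have e3 : Complex.exp (π * Complex.I * z / 4) / (2 * π * Complex.I) *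
        (2 * π * Complex.I * n * Complex.exp (2 * π * Complex.I * n * ((1 + z) / 2) +
          π * Complex.I * n ^ 2 * z)) = (n : ℂ) * (Complex.exp (π * Complex.I * z / 4) *
        Complex.exp (2 * π * Complex.I * n * ((1 + z) / 2) + π * Complex.I * n ^ 2 * z)) := by
      field_simp
    rw [e3, ← e2]
    ring
  · ring

theorem m3_nat {z : ℂ} (hz : 0 < z.im) :
    HasSum (fun n : ℕ => ((-1) ^ n * (2 * (n : ℂ) + 1)) *
      Complex.exp (π * Complex.I * (2 * (n : ℂ) + 1) ^ 2 / 4 * z)) (Jf z) := by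
  have h := (m3_hasSum hz).nat_add_neg_add_one
  convert! h using 1
  funext n
  have e1 : Complex.exp (π * Complex.I * (2 * ((-((n : ℤ) + 1) : ℤ) : ℂ) + 1) ^ 2 / 4 * z) =
      Complex.exp (π * Complex.I * (2 * ((n : ℤ) : ℂ) + 1) ^ 2 / 4 * z) := by
    congr 1
    push_cast
    ring
  have e2 : ((-1 : ℂ)) ^ (-((n : ℤ) + 1)) = -(-1) ^ n := by
    rw [zpow_neg, ← inv_zpow]
    have : ((-1 : ℂ))⁻¹ = -1 := by norm_num
    rw [this, zpow_add_one₀ (by norm_num), zpow_natCast]
    ring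
  rw [e1, e2]
  push_cast
  rw [zpow_natCast]
  ring

/-- `ϑ((1+τ)/2, τ) = 0` -/
theorem m3_zero (z : ℂ) : jacobiTheta₂ ((1 + z) / 2) z = 0 := by
  have h1 : jacobiTheta₂ ((1 - z) / 2) z = jacobiTheta₂ ((1 + z) / 2) z := by
    rw [← jacobiTheta₂_neg_left, ← jacobiTheta₂_add_left]
    congr 1
    ring
  have h2 := jacobiTheta₂_add_left' ((1 - z) / 2) z
  have e : (1 - z) / 2 + z = (1 + z) / 2 := by ring
  have e2 : Complex.exp (-π * Complex.I * (z + 2 * ((1 - z) / 2))) = -1 := by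
    have : -(π : ℂ) * Complex.I * (z + 2 * ((1 - z) / 2)) = -(π * Complex.I) := by ring
    rw [this, Complex.exp_neg, Complex.exp_pi_mul_I]
    norm_num
  rw [e, e2, h1] at h2
  linear_combination h2 / 2

theorem Jf_S {z : ℂ} (hz : 0 < z.im) : Jf (-1 / z) ^ 8 = z ^ 12 * Jf z ^ 8 := by
  have hz0 : z ≠ 0 := by
    rintro rfl
    simp at hz
  have hw : -Complex.I * z ≠ 0 := mul_ne_zero (neg_ne_zero.2 Complex.I_ne_zero) hz0
  have h := jacobiTheta₂'_functional_equation ((1 + z) / 2) z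
  set z' : ℂ := -1 / z with hz'
  have e0 : (1 + z) / 2 / z = -((1 + z') / 2 - 1) := by
    rw [hz']
    field_simp
    ring
  have e1 : jacobiTheta₂ ((1 + z) / 2 / z) z' = 0 := by
    rw [e0, jacobiTheta₂_neg_left, ← jacobiTheta₂_add_left, sub_add_cancel, m3_zero]
  have e2 : jacobiTheta₂' ((1 + z) / 2 / z) z' = -jacobiTheta₂' ((1 + z') / 2) z' := by
    rw [e0, jacobiTheta₂'_neg_left, ← jacobiTheta₂'_add_left, sub_add_cancel]
  rw [e1, e2, mul_zero, sub_zero] at h
  have e3 : Complex.exp (-π * Complex.I * ((1 + z) / 2) ^ 2 / z) * Complex.exp (π * Complex.I * z / 4) =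
      -Complex.I * Complex.exp (π * Complex.I * z' / 4) := by
    have e4 : Complex.exp (-(π / 2 * Complex.I)) = -Complex.I := by
      rw [Complex.exp_neg, Complex.exp_pi_div_two_mul_I, Complex.inv_I]
    rw [← e4, ← Complex.exp_add, ← Complex.exp_add]
    congr 1
    rw [hz']
    field_simp
    ring
  have e5 : Jf z = Complex.I / ((-Complex.I * z) ^ (1 / 2 : ℂ) * z) * Jf z' := by
    have hh : (-Complex.I * z) ^ (1 / 2 : ℂ) ≠ 0 := by
      rw [Ne, Complex.cpow_eq_zero_iff]
      exact fun h' => hw h'.1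
    rw [Jf, Jf, h]
    have : Complex.exp (π * Complex.I * z / 4) * (1 / (-Complex.I * z) ^ (1 / 2 : ℂ) *
        Complex.exp (-π * Complex.I * ((1 + z) / 2) ^ 2 / z) / z * -jacobiTheta₂' ((1 + z') / 2) z') =
        (Complex.exp (-π * Complex.I * ((1 + z) / 2) ^ 2 / z) * Complex.exp (π * Complex.I * z / 4)) *
        (1 / (-Complex.I * z) ^ (1 / 2 : ℂ) / z * -jacobiTheta₂' ((1 + z') / 2) z') := by
      ring
    rw [this, e3]
    field_simp
  have e6 : ((-Complex.I * z) ^ (1 / 2 : ℂ)) ^ 8 = z ^ 4 := by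
    rw [← Complex.cpow_nat_mul]
    have : ((8 : ℕ) : ℂ) * (1 / 2) = ((4 : ℕ) : ℂ) := by norm_num
    rw [this, Complex.cpow_natCast, mul_pow, neg_pow, Complex.I_pow_four]
    ring
  have e7 : Complex.I ^ 8 = 1 := by
    rw [show 8 = 4 * 2 from rfl, pow_mul, Complex.I_pow_four, one_pow]
  rw [e5, mul_pow, div_pow, mul_pow, e6, e7]
  field_simp

/-! ### the coefficients of `J` -/

theorem m3_coeff (j : ℕ) : coeff ((2 * j + 1) ^ 2) J = (-1) ^ j * (2 * (j : ℤ) + 1) := by
  rw [J, ts, coeff_mk]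
  have hinj : ∀ k : ℤ, (((1 : ℕ) : ℤ) * k ^ 2 = (((2 * j + 1) ^ 2 : ℕ) : ℤ)) ↔
      k = 2 * (j : ℤ) + 1 ∨ k = -(2 * (j : ℤ) + 1) := by
    intro k
    push_cast
    rw [one_mul, sq_eq_sq_iff_eq_or_eq_neg]
  have hck : ck (-(2 * (j : ℤ) + 1)) = 0 := by
    rw [ck, if_neg]
    omega
  have hck2 : ck (2 * (j : ℤ) + 1) = (-1) ^ j * (2 * (j : ℤ) + 1) := by
    rw [ck, if_pos (by omega)]
    rcases Nat.even_or_odd j with h | h
    · rw [h.neg_one_pow, if_pos]
      · ring
      · obtain ⟨i, hi⟩ := h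
        omega
    · rw [h.neg_one_pow, if_neg]
      · ring
      · obtain ⟨i, hi⟩ := h
        omega
  rw [Finset.sum_eq_single (2 * (j : ℤ) + 1)]
  · rw [if_pos ((hinj _).2 (Or.inl rfl)), hck2]
  · intro k _ hk
    split_ifs with h
    · rcases (hinj k).1 h with h' | h'
      · exact absurd h' hk
      · rw [h', hck]
    · rfl
  · intro h
    exfalso
    apply h
    rw [Finset.mem_Icc]
    push_cast
    constructor <;> nlinarith

theorem m3_coeff_zero {n : ℕ} (h : ∀ j : ℕ, (2 * j + 1) ^ 2 ≠ n) : coeff n J = 0 := by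
  rw [J, ts, coeff_mk]
  refine Finset.sum_eq_zero fun k _ => ?_
  split_ifs with h1
  · rw [ck]
    split_ifs with h2 h3
    · exfalso
      apply h (k / 2).toNat
      have : (2 * (k / 2).toNat + 1 : ℤ) = k := by omega
      have h4 : (((2 * (k / 2).toNat + 1) ^ 2 : ℕ) : ℤ) = n := by
        push_cast
        rw [this, ← h1]
        push_cast
        ring
      exact_mod_cast h4
    · exfalso
      apply h (k / 2).toNat
      have : (2 * (k / 2).toNat + 1 : ℤ) = k := by omega
      have h4 : (((2 * (k / 2).toNat + 1) ^ 2 : ℕ) : ℤ) = n := by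
        push_cast
        rw [this, ← h1]
        push_cast
        ring
      exact_mod_cast h4
    · rfl
  · rfl

theorem J_ev : Ev J (fun z => Jf (8 * z)) := by
  intro z hz
  have hz8 : 0 < (8 * z).im := by
    have := m5_im (k := 8) (by norm_num) hz
    exact_mod_cast this
  have h1 := m3_nat hz8
  have hinj : Function.Injective (fun j : ℕ => (2 * j + 1) ^ 2) := by
    intro a b hab
    simp only at hab
    have := Nat.pow_left_injective (n := 2) (by norm_num) hab
    omega
  rw [← hinj.hasSum_iff]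
  · convert! h1 using 1
    funext j
    simp only [Function.comp_apply]
    rw [m3_coeff, qq, ← Complex.exp_nat_mul]
    push_cast
    congr 2
    ring
  · intro m hm
    rw [m3_coeff_zero (fun j hj => hm ⟨j, hj⟩)]
    simp

theorem cls_J : Cls 1 J := by
  intro n hn
  apply m3_coeff_zero
  intro j hj
  apply hn
  rw [← hj]
  obtain ⟨i, hi⟩ := Nat.even_mul_succ_self j
  have : (2 * j + 1) ^ 2 = 8 * i + 1 := by
    have : (2 * j + 1) ^ 2 = 4 * (j * (j + 1)) + 1 := by ring
    rw [this, hi]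
    ring
  rw [this]
  omega

/-- `B` with `J⁸ = B(X⁸)` -/
noncomputable def J8 : PowerSeries ℤ := mk fun n => coeff (8 * n) (J ^ 8)

theorem J8_ex : J ^ 8 = ex 8 J8 := by
  ext n
  rw [ex, coeff_mk]
  split_ifs with h
  · obtain ⟨m, rfl⟩ := h
    rw [J8, coeff_mk, Nat.mul_div_cancel_left m (by norm_num)]
  · apply cls_J.pow 8
    omega

theorem J8_ev : Ev J8 (fun z => Jf z ^ 8) := by
  intro z hz
  have hz8 : 0 < (z / 8).im := by
    have : (z / 8).im = z.im / 8 := by
      rw [show z / 8 = z / (8 : ℝ) by push_cast; rfl, Complex.div_ofReal_im]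
    rw [this]
    positivity
  have h := (J_ev.pow 8) (z / 8) hz8
  rw [J8_ex] at h
  have hinj : Function.Injective (fun n : ℕ => 8 * n) := fun a b h => by simpa using h
  rw [← hinj.hasSum_iff] at h
  · have e : (8 : ℂ) * (z / 8) = z := by ring
    simp only [e] at h
    convert! h using 1
    funext n
    simp only [Function.comp_apply]
    rw [ex, coeff_mk, if_pos (Dvd.intro n rfl), Nat.mul_div_cancel_left n (by norm_num)]
    congr 1
    rw [qq, qq, ← Complex.exp_nat_mul, ← Complex.exp_nat_mul]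
    congr 1
    push_cast
    ring
  · intro m hm
    rw [ex, coeff_mk, if_neg]
    · simp
    · rintro ⟨c, rfl⟩
      exact hm ⟨c, rfl⟩

theorem J8_coeff_zero : coeff 0 J8 = 0 := by
  rw [J8, coeff_mk, mul_zero, coeff_zero_eq_constantCoeff_apply, map_pow,
    ← coeff_zero_eq_constantCoeff_apply, m3_coeff_zero]
  · norm_num
  · intro j hj
    have := Nat.pow_eq_zero.1 hj
    omega

theorem J8_coeff_one : coeff 1 J8 = 1 := by
  have h0 : constantCoeff J = 0 := by
    rw [← coeff_zero_eq_constantCoeff_apply, m3_coeff_zero]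
    intro j hj
    have := Nat.pow_eq_zero.1 hj
    omega
  obtain ⟨S, hS⟩ : (X : PowerSeries ℤ) ∣ J := by
    rw [PowerSeries.X_dvd_iff, h0]
  have hS0 : constantCoeff S = 1 := by
    have := m3_coeff 0
    norm_num at this
    rw [hS, show (1 : ℕ) = 0 + 1 from rfl, coeff_succ_X_mul, coeff_zero_eq_constantCoeff_apply] at this
    exact this
  rw [J8, coeff_mk, hS, mul_pow, show 8 * 1 = 0 + 8 from rfl, coeff_X_pow_mul,
    coeff_zero_eq_constantCoeff_apply, map_pow, hS0, one_pow]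

theorem J_pow : J ^ 8 = ex 8 Dl := by
  rw [J8_ex, cusp_twelve J8_ev J8_coeff_zero (fun z hz => Jf_S hz), J8_coeff_one, map_one, one_mul]

end E8X
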