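import Pool.Agent.E8X.F5

/-!
# [E8X-F4] `τ(n)` modulo `2^18` for `n ≡ 7 mod 8`
-/

set_option autoImplicit false

open PowerSeries
open N19 (ex psi phs)

namespace E8X

/-- The odd part of `Δ - 705 ∑ σ₁₁(n) X^n` as a polynomial in `E = φ(X⁴)` and `u = X C`. -/
theorem f4_exp : Yy * F * (-704 * Yy ^ 4 - 124801792 * Yy ^ 2 * F ^ 2 - 23935991808 * F ^ 4) =
    (-704 : ℤ) • (ex 4 phs ^ 23 * (X * Cc) ^ 1) +
    (-124889088 : ℤ) • (ex 4 phs ^ 21 * (X * Cc) ^ 3) +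
    (-34423791616 : ℤ) • (ex 4 phs ^ 19 * (X * Cc) ^ 5) +
    (-1388770029568 : ℤ) • (ex 4 phs ^ 17 * (X * Cc) ^ 7) +
    (-20815667232768 : ℤ) • (ex 4 phs ^ 15 * (X * Cc) ^ 9) +
    (-153821264740352 : ℤ) • (ex 4 phs ^ 13 * (X * Cc) ^ 11) +
    (-615285058961408 : ℤ) • (ex 4 phs ^ 11 * (X * Cc) ^ 13) +
    (-1332202702897152 : ℤ) • (ex 4 phs ^ 9 * (X * Cc) ^ 15) +
    (-1422100510277632 : ℤ) • (ex 4 phs ^ 7 * (X * Cc) ^ 17) +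
    (-563999401836544 : ℤ) • (ex 4 phs ^ 5 * (X * Cc) ^ 19) +
    (-32738925084672 : ℤ) • (ex 4 phs ^ 3 * (X * Cc) ^ 21) +
    (-2952790016 : ℤ) • (ex 4 phs ^ 1 * (X * Cc) ^ 23) := by
  rw [F_eq, Yy]
  simp only [zsmul_eq_mul]
  push_cast
  ring

/-- the part with exponents `7 mod 8` of `Δ - 705 ∑ σ₁₁(n) X^n`, divided by `2^14` -/
noncomputable def f4H : PowerSeries ℤ :=
  -85083946 * Aa ^ 20 - 371943993057 * Aa ^ 18 * Bb ^ 2 - 39879708587828 * Aa ^ 16 * Bb ^ 4 - 959165810101056 * Aa ^ 14 * Bb ^ 6 - 9345973761020160 * Aa ^ 12 * Bb ^ 8 - 44345092355698176 * Aa ^ 10 * Bb ^ 10 - 105523558844569600 * Aa ^ 8 * Bb ^ 12 - 114573322095968256 * Aa ^ 6 * Bb ^ 14 - 40761096917417984 * Aa ^ 4 * Bb ^ 16 - 1609154820636672 * Aa ^ 2 * Bb ^ 18 - 15985803264 * Bb ^ 20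

theorem f4_rhs : (16384 : ℤ) • ((X * Cc) ^ 3 * Bb * f4H) =
    (-124889088 : ℤ) • (Bb * f3Q21 * (X * Cc) ^ 3) +
    (-1388770029568 : ℤ) • (f3P17 * (X * Cc) ^ 7) +
    (-153821264740352 : ℤ) • (Bb * f3Q13 * (X * Cc) ^ 11) +
    (-1332202702897152 : ℤ) • (f3P9 * (X * Cc) ^ 15) +
    (-563999401836544 : ℤ) • (Bb * f3Q5 * (X * Cc) ^ 19) +
    (-2952790016 : ℤ) • (f3P1 * (X * Cc) ^ 23) := by
  have h7 : (X * Cc) ^ 7 = (X * Cc) ^ 3 * (Aa * Bb * (Aa ^ 2 + 4 * Bb ^ 2)) := by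
    rw [← f3_u4]; ring
  have h11 : (X * Cc) ^ 11 = (X * Cc) ^ 3 * (Aa * Bb * (Aa ^ 2 + 4 * Bb ^ 2)) ^ 2 := by
    rw [← f3_u4]; ring
  have h15 : (X * Cc) ^ 15 = (X * Cc) ^ 3 * (Aa * Bb * (Aa ^ 2 + 4 * Bb ^ 2)) ^ 3 := by
    rw [← f3_u4]; ring
  have h19 : (X * Cc) ^ 19 = (X * Cc) ^ 3 * (Aa * Bb * (Aa ^ 2 + 4 * Bb ^ 2)) ^ 4 := by
    rw [← f3_u4]; ring
  have h23 : (X * Cc) ^ 23 = (X * Cc) ^ 3 * (Aa * Bb * (Aa ^ 2 + 4 * Bb ^ 2)) ^ 5 := by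
    rw [← f3_u4]; ring
  rw [h7, h11, h15, h19, h23]
  unfold f4H f3Q21 f3P17 f3Q13 f3P9 f3Q5 f3P1
  generalize (X * Cc : PowerSeries ℤ) ^ 3 = u
  generalize Aa = a
  generalize Bb = b
  simp only [zsmul_eq_mul]
  push_cast
  ring

theorem f4_seven {n : ℕ} (hn : n % 8 = 7) :
    tau n - 705 * (ArithmeticFunction.sigma 11 n : ℤ) = 16384 * coeff n ((X * Cc) ^ 3 * Bb * f4H) := by
  have ho : n % 2 = 1 := by omega
  have h1 : tau n - 705 * (ArithmeticFunction.sigma 11 n : ℤ) =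
      coeff n (Yy * F * (-704 * Yy ^ 4 - 124801792 * Yy ^ 2 * F ^ 2 - 23935991808 * F ^ 4)) := by
    rw [odd_Dl ho, odd_S11 ho]
    have e : (705 : ℤ) * coeff n (Yy * F * (Yy ^ 4 + 177024 * Yy ^ 2 * F ^ 2 + 33951744 * F ^ 4)) =
        coeff n ((705 : ℤ) • (Yy * F * (Yy ^ 4 + 177024 * Yy ^ 2 * F ^ 2 + 33951744 * F ^ 4))) := by
      rw [map_zsmul, smul_eq_mul]
    rw [e, ← map_sub]
    congr 1
    simp only [zsmul_eq_mul]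
    push_cast
    ring
  have h2 : (16384 : ℤ) * coeff n ((X * Cc) ^ 3 * Bb * f4H) =
      coeff n ((16384 : ℤ) • ((X * Cc) ^ 3 * Bb * f4H)) := by
    rw [map_zsmul, smul_eq_mul]
  rw [h1, h2, f4_rhs, f4_exp]
  simp only [map_add, map_zsmul]
  rw [coeff_other (k := 23) (j := 1) hn (by norm_num)]
  rw [coeff_three (k := 21) (j := 3) hn (by norm_num) f3P21 f3Q21 f3_split21 f3_P21 f3_Q21]
  rw [coeff_other (k := 19) (j := 5) hn (by norm_num)]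
  rw [coeff_seven (k := 17) (j := 7) hn (by norm_num) f3P17 f3Q17 f3_split17 f3_P17 f3_Q17]
  rw [coeff_other (k := 15) (j := 9) hn (by norm_num)]
  rw [coeff_three (k := 13) (j := 11) hn (by norm_num) f3P13 f3Q13 f3_split13 f3_P13 f3_Q13]
  rw [coeff_other (k := 11) (j := 13) hn (by norm_num)]
  rw [coeff_seven (k := 9) (j := 15) hn (by norm_num) f3P9 f3Q9 f3_split9 f3_P9 f3_Q9]
  rw [coeff_other (k := 7) (j := 17) hn (by norm_num)]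
  rw [coeff_three (k := 5) (j := 19) hn (by norm_num) f3P5 f3Q5 f3_split5 f3_P5 f3_Q5]
  rw [coeff_other (k := 3) (j := 21) hn (by norm_num)]
  rw [coeff_seven (k := 1) (j := 23) hn (by norm_num) f3P1 f3Q1 f3_split1 f3_P1 f3_Q1]
  simp only [smul_zero, zero_add, add_zero]


/-- The part of `∑ σ₃(n) X^n` with exponents `7 mod 8`. -/
theorem S3_seven {n : ℕ} (hn : n % 8 = 7) : (ArithmeticFunction.sigma 3 n : ℤ) =
    8 * coeff n ((X * Cc) ^ 3 * Bb * (43 * Aa ^ 4 + 312 * Aa ^ 2 * Bb ^ 2 + 112 * Bb ^ 4)) := by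
  have ho : n % 2 = 1 := by omega
  have h1 : Yy * F = (1 : ℤ) • (ex 4 phs ^ 7 * (X * Cc) ^ 1) + (28 : ℤ) • (ex 4 phs ^ 5 * (X * Cc) ^ 3) +
      (112 : ℤ) • (ex 4 phs ^ 3 * (X * Cc) ^ 5) + (64 : ℤ) • (ex 4 phs ^ 1 * (X * Cc) ^ 7) := by
    rw [F_eq, Yy]
    simp only [zsmul_eq_mul]
    push_cast
    ring
  have h2 : (8 : ℤ) • ((X * Cc) ^ 3 * Bb * (43 * Aa ^ 4 + 312 * Aa ^ 2 * Bb ^ 2 + 112 * Bb ^ 4)) =
      (28 : ℤ) • (Bb * f3Q5 * (X * Cc) ^ 3) + (64 : ℤ) • (f3P1 * (X * Cc) ^ 7) := by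
    have h7 : (X * Cc) ^ 7 = (X * Cc) ^ 3 * (Aa * Bb * (Aa ^ 2 + 4 * Bb ^ 2)) := by
      rw [← f3_u4]; ring
    rw [h7]
    unfold f3Q5 f3P1
    generalize (X * Cc : PowerSeries ℤ) ^ 3 = u
    generalize Aa = a
    generalize Bb = b
    simp only [zsmul_eq_mul]
    push_cast
    ring
  have h3 : (8 : ℤ) * coeff n ((X * Cc) ^ 3 * Bb * (43 * Aa ^ 4 + 312 * Aa ^ 2 * Bb ^ 2 + 112 * Bb ^ 4)) =
      coeff n ((8 : ℤ) • ((X * Cc) ^ 3 * Bb * (43 * Aa ^ 4 + 312 * Aa ^ 2 * Bb ^ 2 + 112 * Bb ^ 4))) := by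
    rw [map_zsmul, smul_eq_mul]
  rw [h3, h2, odd_S3 ho, h1]
  simp only [map_add, map_zsmul]
  rw [coeff_other (k := 7) (j := 1) hn (by norm_num)]
  rw [coeff_three (k := 5) (j := 3) hn (by norm_num) f3P5 f3Q5 f3_split5 f3_P5 f3_Q5]
  rw [coeff_other (k := 3) (j := 5) hn (by norm_num)]
  rw [coeff_seven (k := 1) (j := 7) hn (by norm_num) f3P1 f3Q1 f3_split1 f3_P1 f3_Q1]
  simp only [smul_zero, zero_add, add_zero]

/-- generating function of the number of representations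
`n = a₁² + a₂² + a₃² + 4 (b₁² + b₂² + b₃²) + 8 (c₁² + c₂²)`, `a`, `b` odd and positive -/
noncomputable def Ss : PowerSeries ℤ := (X * Cc) ^ 3 * Bb ^ 3 * ex 8 phs ^ 2

/-- `A = 1 + 2 a` -/
theorem f4_A : ∃ a : PowerSeries ℤ, Aa = 1 + 2 * a := by
  classical
  refine ⟨mk fun n => if n = 0 then 0 else coeff n Aa / 2, ?_⟩
  ext n
  have h2 : (2 : PowerSeries ℤ) * (mk fun n => if n = 0 then (0 : ℤ) else coeff n Aa / 2) =
      (2 : ℤ) • (mk fun n => if n = 0 then (0 : ℤ) else coeff n Aa / 2) := by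
    rw [zsmul_eq_mul]
    push_cast
    rfl
  rw [h2, map_add, map_zsmul, coeff_mk, coeff_one, Aa, f3_coeff_ex, smul_eq_mul]
  by_cases h0 : n = 0
  · subst h0
    rw [if_pos (dvd_zero 16), phs, coeff_mk]
    simp
  · rw [if_neg h0, if_neg h0]
    split_ifs with hd
    · have hd0 : n / 16 ≠ 0 := by
        intro h
        have := Nat.div_mul_cancel hd
        rw [h, zero_mul] at this
        exact h0 this.symm
      rw [phs, coeff_mk, if_neg hd0]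
      split_ifs <;> norm_num
    · norm_num

theorem f4_A16 : ∃ e : PowerSeries ℤ, Aa ^ 16 = 1 + 16 * e := by
  obtain ⟨a, ha⟩ := f4_A
  have h2 : Aa ^ 2 = 1 + 4 * (a + a ^ 2) := by rw [ha]; ring
  obtain ⟨b, hb⟩ : ∃ b, b = a + a ^ 2 := ⟨_, rfl⟩
  rw [← hb] at h2
  have h4 : Aa ^ 4 = 1 + 8 * (b + 2 * b ^ 2) := by
    have : Aa ^ 4 = (Aa ^ 2) ^ 2 := by ring
    rw [this, h2]; ring
  obtain ⟨c, hc⟩ : ∃ c, c = b + 2 * b ^ 2 := ⟨_, rfl⟩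
  rw [← hc] at h4
  have h8 : Aa ^ 8 = 1 + 16 * (c + 4 * c ^ 2) := by
    have : Aa ^ 8 = (Aa ^ 4) ^ 2 := by ring
    rw [this, h4]; ring
  obtain ⟨d, hd⟩ : ∃ d, d = c + 4 * c ^ 2 := ⟨_, rfl⟩
  rw [← hd] at h8
  refine ⟨2 * d + 16 * d ^ 2, ?_⟩
  have : Aa ^ 16 = (Aa ^ 8) ^ 2 := by ring
  rw [this, h8]; ring

theorem f4_key : ∃ K : PowerSeries ℤ, f4H - 2 * (43 * Aa ^ 4 + 312 * Aa ^ 2 * Bb ^ 2 + 112 * Bb ^ 4) +
    Bb ^ 2 * (Aa ^ 2 + 4 * Bb ^ 2) = 16 * K := by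
  obtain ⟨e, he⟩ := f4_A16
  refine ⟨-5317752 * Aa ^ 4 - 23246499605 * Aa ^ 2 * Bb ^ 2 - 2492481786753 * Bb ^ 4 - 85083946 * Aa ^ 4 * e - 371943993057 * Aa ^ 2 * Bb ^ 2 * e - 39879708587828 * Bb ^ 4 * e - 59947863131316 * Aa ^ 14 * Bb ^ 6 - 584123360063760 * Aa ^ 12 * Bb ^ 8 - 2771568272231136 * Aa ^ 10 * Bb ^ 10 - 6595222427785600 * Aa ^ 8 * Bb ^ 12 - 7160832630998016 * Aa ^ 6 * Bb ^ 14 - 2547568557338624 * Aa ^ 4 * Bb ^ 16 - 100572176289792 * Aa ^ 2 * Bb ^ 18 - 999112704 * Bb ^ 20, ?_⟩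
  unfold f4H
  linear_combination (-85083946 * Aa ^ 4 - 371943993057 * Aa ^ 2 * Bb ^ 2 - 39879708587828 * Bb ^ 4) * he

/-- The main congruence. -/
theorem tau_seven {n : ℕ} (hn : n % 8 = 7) :
    (262144 : ℤ) ∣ tau n - 705 * (ArithmeticFunction.sigma 11 n : ℤ) -
      4096 * (ArithmeticFunction.sigma 3 n : ℤ) + 16384 * coeff n Ss := by
  obtain ⟨K, hK⟩ := f4_key
  rw [f4_seven hn, S3_seven hn, Ss, r3]
  refine ⟨coeff n ((X * Cc) ^ 3 * Bb * K), ?_⟩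
  have e : (X * Cc) ^ 3 * Bb * f4H = (16 : ℤ) • ((X * Cc) ^ 3 * Bb * K) +
      (2 : ℤ) • ((X * Cc) ^ 3 * Bb * (43 * Aa ^ 4 + 312 * Aa ^ 2 * Bb ^ 2 + 112 * Bb ^ 4)) -
      (X * Cc) ^ 3 * Bb ^ 3 * (Aa ^ 2 + 4 * Bb ^ 2) := by
    simp only [zsmul_eq_mul]
    push_cast
    linear_combination ((X * Cc) ^ 3 * Bb) * hK
  rw [e, map_sub, map_add, map_zsmul, map_zsmul, smul_eq_mul, smul_eq_mul]
  ring

end E8X
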