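import Pool.Agent.MP_130199_nt.Shell

/-!
# [E8X-S2] rotations and designs
-/

set_option autoImplicit false

open MeasureTheory
open Pool.Agent.MP130199 (V8 sm8 shell IsDesign)

namespace E8X

theorem S2_polar (f : V8 → ℝ) (d : ℕ)
    (hom : ∀ (r : ℝ) (x : V8), 0 < r → f (r • x) = r ^ d * f x) :
    ∫ x : V8, f x * Real.exp (-‖x‖ ^ 2) =
      (∫ u, f (u : V8) ∂sm8) *
        ∫ r in Set.Ioi (0 : ℝ), r ^ (d + 7) * Real.exp (-r ^ 2) := by
  have hdim : Module.finrank ℝ V8 - 1 = 7 := by simp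
  have hmp := (volume : Measure V8).measurePreserving_homeomorphUnitSphereProd
  rw [hdim] at hmp
  calc ∫ x : V8, f x * Real.exp (-‖x‖ ^ 2)
      = ∫ x : ({(0)}ᶜ : Set V8), f (x : V8) * Real.exp (-‖(x : V8)‖ ^ 2)
          ∂((volume : Measure V8).comap (↑)) := by
        rw [integral_subtype_comap (measurableSet_singleton _).compl
          fun x : V8 => f x * Real.exp (-‖x‖ ^ 2), restrict_compl_singleton]
    _ = ∫ q : Metric.sphere (0 : V8) 1 × Set.Ioi (0 : ℝ),
          f (q.1 : V8) * ((q.2 : ℝ) ^ d * Real.exp (-(q.2 : ℝ) ^ 2))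
            ∂(sm8.prod (Measure.volumeIoiPow 7)) := by
        rw [← hmp.integral_comp (Homeomorph.measurableEmbedding _)]
        refine integral_congr_ae (Filter.Eventually.of_forall fun x => ?_)
        have hx : (((homeomorphUnitSphereProd V8) x).2 : ℝ) •
            (((homeomorphUnitSphereProd V8) x).1 : V8) = x := by
          have := homeomorphUnitSphereProd_symm_apply_coe V8 ((homeomorphUnitSphereProd V8) x)
          rw [Homeomorph.symm_apply_apply] at this
          exact this.symm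
        have hn : (((homeomorphUnitSphereProd V8) x).2 : ℝ) = ‖(x : V8)‖ :=
          homeomorphUnitSphereProd_apply_snd_coe V8 x
        have h0 : f (x : V8) = (((homeomorphUnitSphereProd V8) x).2 : ℝ) ^ d *
            f (((homeomorphUnitSphereProd V8) x).1 : V8) := by
          rw [← hom _ _ ((homeomorphUnitSphereProd V8) x).2.2, hx]
        change f (x : V8) * Real.exp (-‖(x : V8)‖ ^ 2) = _
        rw [h0, ← hn]
        ring
    _ = (∫ u, f (u : V8) ∂sm8) *
          ∫ r : Set.Ioi (0 : ℝ), (r : ℝ) ^ d * Real.exp (-(r : ℝ) ^ 2)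
            ∂(Measure.volumeIoiPow 7) := by
        exact integral_prod_mul (μ := sm8) (ν := Measure.volumeIoiPow 7)
          (fun u : Metric.sphere (0 : V8) 1 => f (u : V8))
          (fun r : Set.Ioi (0 : ℝ) => (r : ℝ) ^ d * Real.exp (-(r : ℝ) ^ 2))
    _ = _ := by
        congr 1
        simp only [Measure.volumeIoiPow, ENNReal.ofReal]
        rw [integral_withDensity_eq_integral_smul
            (measurable_subtype_coe.pow_const _).real_toNNReal,
          integral_subtype_comap measurableSet_Ioi fun a : ℝ =>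
            Real.toNNReal (a ^ 7) • (a ^ d * Real.exp (-a ^ 2)),
          setIntegral_congr_fun measurableSet_Ioi fun x hx => ?_]
        change Real.toNNReal (x ^ 7) • (x ^ d * Real.exp (-x ^ 2)) = _
        rw [NNReal.smul_def, Real.coe_toNNReal _ (pow_nonneg (le_of_lt hx) _), smul_eq_mul]
        ring

theorem S2_radial_pos (d : ℕ) :
    0 < ∫ r in Set.Ioi (0 : ℝ), r ^ (d + 7) * Real.exp (-r ^ 2) := by
  have h2 : ∫ x in Set.Ioi (0 : ℝ), x ^ (d + 7) * Real.exp (-x ^ 2) =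
      ∫ x in Set.Ioi (0 : ℝ), x ^ ((d + 7 : ℕ) : ℝ) * Real.exp (-1 * x ^ (2 : ℝ)) := by
    refine setIntegral_congr_fun measurableSet_Ioi fun x hx => ?_
    rw [Real.rpow_natCast]
    congr 2
    norm_num
  rw [h2, integral_rpow_mul_exp_neg_mul_rpow (by norm_num)
    (by have : (0 : ℝ) ≤ ((d + 7 : ℕ) : ℝ) := by positivity
        linarith) (by norm_num)]
  rw [Real.one_rpow]
  have : 0 < Real.Gamma ((((d + 7 : ℕ) : ℝ) + 1) / 2) := Real.Gamma_pos_of_pos (by positivity)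
  positivity

/-- The surface measure is invariant under linear isometries (tested on homogeneous functions).
Proof: polar coordinates exactly as in `Pool.Agent.MP130199.polar_moment` (same file as `V8`, `sm8`):
`∫_{V8} f(x) exp(-‖x‖²) = (∫_{S} f) * ∫_0^∞ r^(d+7) exp(-r²)`, the left side is invariant under `ρ`
(`LinearIsometryEquiv.measurePreserving`), and the radial factor is positive. (If Mathlib has the
invariance of `toSphere` directly, use it.) -/
theorem sphere_rot (ρ : V8 ≃ₗᵢ[ℝ] V8) (f : V8 → ℝ) (hf : Continuous f) (d : ℕ)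
    (hom : ∀ (r : ℝ) (x : V8), 0 < r → f (r • x) = r ^ d * f x) :
    ∫ u, f (ρ (u : V8)) ∂sm8 = ∫ u, f (u : V8) ∂sm8 := by
  have h1 := S2_polar f d hom
  have h2 := S2_polar (fun x => f (ρ x)) d (fun r x hr => by
    show f (ρ (r • x)) = _
    rw [map_smul, hom r _ hr])
  have h3 : ∫ x : V8, f (ρ x) * Real.exp (-‖x‖ ^ 2) = ∫ x : V8, f x * Real.exp (-‖x‖ ^ 2) := by
    rw [← ρ.measurePreserving.integral_comp ρ.toHomeomorph.measurableEmbedding
      (fun x : V8 => f x * Real.exp (-‖x‖ ^ 2))]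
    simp only [LinearIsometryEquiv.norm_map]
  rw [h3, h1] at h2
  exact (mul_right_cancel₀ (S2_radial_pos d).ne' h2).symm

theorem S2_hom (e : Fin 8 → ℕ) (r : ℝ) (x : V8) :
    ∏ i, ((r • x : V8) i) ^ (e i) = r ^ (∑ i, e i) * ∏ i, (x i) ^ (e i) := by
  simp only [PiLp.smul_apply, smul_eq_mul, mul_pow]
  rw [Finset.prod_mul_distrib, Finset.prod_pow_eq_pow_sum]

theorem S2_cont (e : Fin 8 → ℕ) : Continuous (fun x : V8 => ∏ i, (x i) ^ (e i)) := by
  fun_prop

/-- A sign change of one coordinate gives: the integral of `x_1 ... x_8` vanishes. -/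
theorem sphere_prod : ∫ u, ∏ i, (u : V8) i ∂sm8 = 0 := by
  let ρ : V8 ≃ₗᵢ[ℝ] V8 := LinearIsometryEquiv.piLpCongrRight 2
    (fun i : Fin 8 => if i = 0 then LinearIsometryEquiv.neg ℝ else LinearIsometryEquiv.refl ℝ ℝ)
  have hρ : ∀ x : V8, ∏ i, (ρ x) i = - ∏ i, x i := by
    intro x
    simp only [Fin.prod_univ_eight]
    simp [ρ]
  have h := sphere_rot ρ (fun x : V8 => ∏ i, x i) (by fun_prop) 8 (fun r x _ => by
    have := S2_hom (fun _ => 1) r x
    simpa using this)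
  simp only [hρ] at h
  rw [integral_neg] at h
  linarith

theorem S2_iso (M : Matrix (Fin 8) (Fin 8) ℤ) {n : ℕ} (hn : 0 < n)
    (hM : M * M.transpose = (n : ℤ) • (1 : Matrix (Fin 8) (Fin 8) ℤ)) :
    ∃ ρ : V8 ≃ₗᵢ[ℝ] V8, ∀ (x : V8) (i : Fin 8), Real.sqrt n * (ρ x) i = ∑ j, (M i j : ℝ) * x j := by
  have hn' : (0 : ℝ) < n := by exact_mod_cast hn
  have hs : Real.sqrt n ≠ 0 := (Real.sqrt_pos.2 hn').ne'
  set A : Matrix (Fin 8) (Fin 8) ℝ := M.map (fun a : ℤ => (a : ℝ)) with hA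
  have h1 : A * A.transpose = (n : ℝ) • (1 : Matrix (Fin 8) (Fin 8) ℝ) := by
    have := congrArg (fun B : Matrix (Fin 8) (Fin 8) ℤ => B.map (Int.castRingHom ℝ)) hM
    simp only [Matrix.map_mul] at this
    ext i j
    have h2 := congrFun (congrFun this i) j
    simp only [Matrix.mul_apply, Matrix.map_apply, Matrix.transpose_apply, Matrix.smul_apply,
      Matrix.one_apply, smul_eq_mul, eq_intCast] at h2
    simp only [hA, Matrix.mul_apply, Matrix.map_apply, Matrix.transpose_apply, Matrix.smul_apply,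
      Matrix.one_apply, smul_eq_mul]
    rw [h2]
    split_ifs <;> simp
  have h2 : A.transpose * A = (n : ℝ) • (1 : Matrix (Fin 8) (Fin 8) ℝ) := by
    have h3 : A * ((n : ℝ)⁻¹ • A.transpose) = 1 := by
      rw [Matrix.mul_smul, h1, smul_smul, inv_mul_cancel₀ hn'.ne', one_smul]
    have h4 := mul_eq_one_comm.1 h3
    rw [Matrix.smul_mul] at h4
    rw [← h4, smul_smul, mul_inv_cancel₀ hn'.ne', one_smul]
  have h5 : ∀ x : V8, ∑ i, (∑ j, (M i j : ℝ) * x j) ^ 2 = n * ∑ i, x i ^ 2 := by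
    intro x
    have h6 : ∀ i, (∑ j, (M i j : ℝ) * x j) = (A.mulVec x.ofLp) i := by
      intro i; simp [hA, Matrix.mulVec, dotProduct]
    have h7 : ∑ i, (A.mulVec x.ofLp) i ^ 2 = (A.mulVec x.ofLp) ⬝ᵥ (A.mulVec x.ofLp) := by
      simp [dotProduct, sq]
    simp only [h6]
    rw [h7, Matrix.dotProduct_mulVec, Matrix.vecMul_mulVec, h2, Matrix.vecMul_smul,
      Matrix.vecMul_one, smul_dotProduct]
    simp [dotProduct, sq]
  let L : V8 →ₗ[ℝ] V8 := Matrix.toLpLin 2 2 ((Real.sqrt n)⁻¹ • A)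
  have hL : ∀ x i, (L x) i = (Real.sqrt n)⁻¹ * ∑ j, (M i j : ℝ) * x j := by
    intro x i
    simp only [L, Matrix.ofLp_toLpLin, Matrix.toLin'_apply, Matrix.smul_mulVec, Pi.smul_apply,
      smul_eq_mul]
    congr 1
  let ρ0 : V8 →ₗᵢ[ℝ] V8 := ⟨L, by
    intro x
    rw [EuclideanSpace.norm_eq, EuclideanSpace.norm_eq]
    congr 1
    simp only [Real.norm_eq_abs, sq_abs, hL, mul_pow]
    rw [← Finset.mul_sum, h5, inv_pow, Real.sq_sqrt hn'.le, ← mul_assoc,
      inv_mul_cancel₀ hn'.ne', one_mul]⟩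
  refine ⟨ρ0.toLinearIsometryEquiv rfl, fun x i => ?_⟩
  rw [LinearIsometry.toLinearIsometryEquiv_apply]
  change Real.sqrt n * (L x) i = _
  rw [hL, ← mul_assoc, mul_inv_cancel₀ hs, one_mul]

/-- If `S_m` is a `t`-design and `M M^T = n`, then `∑ (M v)^e = n^k ∑ v^e` for every monomial of degree
`2 k ≤ t`. Proof: apply `hd` to `p₁ = ∏ (∑_j M_ij X_j)^(e i)` and to `p₂ = ∏ X_i^(e i)`; for `u` on the
sphere `∏ ((M (√(2m) u))_i)^(e i) = (2m)^k n^k ∏ ((ρ u)_i)^(e i)` with the isometry `ρ = M / √n`, and use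
`sphere_rot`. (`v` runs over twice the vectors: factors `2^(2k)` cancel.) -/
theorem design_sim {m t : ℕ} (hd : IsDesign m t) (M : Matrix (Fin 8) (Fin 8) ℤ) {n : ℕ} (hn : 0 < n)
    (hM : M * M.transpose = (n : ℤ) • (1 : Matrix (Fin 8) (Fin 8) ℤ)) (e : Fin 8 → ℕ) {k : ℕ}
    (he : ∑ i, e i = 2 * k) (hk : 2 * k ≤ t) :
    ∑ v ∈ shell m, ∏ i, (M.mulVec v i) ^ (e i) = (n : ℤ) ^ k * ∑ v ∈ shell m, ∏ i, (v i) ^ (e i) := by
  obtain ⟨ρ, hρ⟩ := S2_iso M hn hM
  have hdeg : ∀ q : Fin 8 → MvPolynomial (Fin 8) ℝ, (∀ i, (q i).totalDegree ≤ 1) →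
      (∏ i, q i ^ (e i)).totalDegree ≤ t := by
    intro q hq
    refine (MvPolynomial.totalDegree_finsetProd _ _).trans (le_trans ?_ (he.le.trans hk))
    refine Finset.sum_le_sum fun i _ => ?_
    refine (MvPolynomial.totalDegree_pow _ _).trans ?_
    calc e i * (q i).totalDegree ≤ e i * 1 := Nat.mul_le_mul_left _ (hq i)
      _ = e i := mul_one _
  have h1 := hd (∏ i, (∑ j, MvPolynomial.C (M i j : ℝ) * MvPolynomial.X j) ^ (e i))
    (hdeg _ (fun i => by
      refine MvPolynomial.totalDegree_finsetSum_le fun j _ => ?_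
      refine (MvPolynomial.totalDegree_mul _ _).trans ?_
      rw [MvPolynomial.totalDegree_C, zero_add, MvPolynomial.totalDegree_X]))
  have h2 := hd (∏ i, (MvPolynomial.X i) ^ (e i))
    (hdeg _ (fun i => by rw [MvPolynomial.totalDegree_X]))
  have hV : ((volume : Measure (EuclideanSpace ℝ (Fin 8))).toSphere Set.univ).toReal ≠ 0 := by
    refine (ENNReal.toReal_pos ?_ (measure_ne_top _ _)).ne'
    rw [Ne, Measure.measure_univ_eq_zero]
    exact Measure.toSphere_ne_zero _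
  set V := ((volume : Measure (EuclideanSpace ℝ (Fin 8))).toSphere Set.univ).toReal with hVdef
  simp only [map_prod, map_pow, map_sum, map_mul, MvPolynomial.eval_C, MvPolynomial.eval_X] at h1 h2
  have a1 : ∀ v : Fin 8 → ℤ, ∏ i, (∑ j, (M i j : ℝ) * ((v j : ℝ) / 2)) ^ (e i) =
      (1 / 2) ^ (2 * k) * ∏ i, (M.mulVec v i : ℝ) ^ (e i) := by
    intro v
    rw [← he, ← Finset.prod_pow_eq_pow_sum, ← Finset.prod_mul_distrib]
    refine Finset.prod_congr rfl fun i _ => ?_
    rw [← mul_pow]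
    congr 1
    simp only [Matrix.mulVec, dotProduct]
    push_cast
    rw [Finset.mul_sum]
    refine Finset.sum_congr rfl fun j _ => ?_
    ring
  have a2 : ∀ v : Fin 8 → ℤ, ∏ i, ((v i : ℝ) / 2) ^ (e i) =
      (1 / 2) ^ (2 * k) * ∏ i, (v i : ℝ) ^ (e i) := by
    intro v
    rw [← he, ← Finset.prod_pow_eq_pow_sum, ← Finset.prod_mul_distrib]
    refine Finset.prod_congr rfl fun i _ => ?_
    rw [← mul_pow]
    congr 1
    ring
  set s := Real.sqrt (2 * (m : ℝ)) with hs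
  have b1 : ∀ u : Metric.sphere (0 : V8) 1, ∏ i, (∑ j, (M i j : ℝ) * (s * (u : V8) j)) ^ (e i) =
      (s ^ (2 * k) * (n : ℝ) ^ k) * ∏ i, ((ρ (u : V8)) i) ^ (e i) := by
    intro u
    have h3 : (n : ℝ) ^ k = Real.sqrt n ^ (2 * k) := by
      rw [pow_mul, Real.sq_sqrt (Nat.cast_nonneg n)]
    rw [h3, ← mul_pow, ← he, ← Finset.prod_pow_eq_pow_sum, ← Finset.prod_mul_distrib]
    refine Finset.prod_congr rfl fun i _ => ?_
    rw [← mul_pow]
    congr 1
    rw [mul_assoc, hρ, Finset.mul_sum]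
    refine Finset.sum_congr rfl fun j _ => ?_
    ring
  have b2 : ∀ u : Metric.sphere (0 : V8) 1, ∏ i, (s * (u : V8) i) ^ (e i) =
      s ^ (2 * k) * ∏ i, ((u : V8) i) ^ (e i) := by
    intro u
    rw [← he, ← Finset.prod_pow_eq_pow_sum, ← Finset.prod_mul_distrib]
    refine Finset.prod_congr rfl fun i _ => ?_
    rw [← mul_pow]
  simp only [a1, b1] at h1
  simp only [a2, b2] at h2
  rw [← Finset.mul_sum, integral_const_mul] at h1 h2
  have h3 := sphere_rot ρ (fun x : V8 => ∏ i, (x i) ^ (e i)) (S2_cont e) (2 * k)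
    (fun r x _ => by rw [← he]; exact S2_hom e r x)
  rw [h3] at h1
  have h4 : ∑ v ∈ shell m, ∏ i, (M.mulVec v i : ℝ) ^ (e i) =
      (n : ℝ) ^ k * ∑ v ∈ shell m, ∏ i, (v i : ℝ) ^ (e i) := by
    have hc : ((1 : ℝ) / 2) ^ (2 * k) * V ≠ 0 := mul_ne_zero (by positivity) hV
    refine mul_left_cancel₀ hc ?_
    linear_combination h1 - (n : ℝ) ^ k * h2
  exact_mod_cast h4

end E8X
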