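import Pool.Agent.E8X.M3
import Pool.Agent.E8X.S2

/-!
# [E8X-L1] an `8`-design shell has `τ(m) = 0`
-/

set_option autoImplicit false

open PowerSeries
open N19 (ex psi phs)
open Pool.Agent.MP130199 (shell IsDesign)

namespace E8X

/-- Apply the design condition to `X_1 ⋯ X_8` and `sphere_prod`. -/
theorem sum_prod {m : ℕ} (hd : IsDesign m 8) : ∑ v ∈ shell m, ∏ i, v i = 0 := by
  have hdeg : (∏ i : Fin 8, (MvPolynomial.X i : MvPolynomial (Fin 8) ℝ)).totalDegree ≤ 8 := by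
    refine (MvPolynomial.totalDegree_finset_prod _ _).trans ?_
    simp only [MvPolynomial.totalDegree_X]
    simp
  have h := hd _ hdeg
  have h1 : ∀ v : Fin 8 → ℤ, MvPolynomial.eval (fun i => (v i : ℝ) / 2)
      (∏ i : Fin 8, (MvPolynomial.X i : MvPolynomial (Fin 8) ℝ)) = ((∏ i, v i : ℤ) : ℝ) / 2 ^ 8 := by
    intro v
    rw [map_prod]
    simp only [MvPolynomial.eval_X]
    rw [Finset.prod_div_distrib]
    push_cast
    simp
  have h2 : ∀ u : Metric.sphere (0 : Pool.Agent.MP130199.V8) 1, MvPolynomial.eval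
      (fun i => Real.sqrt (2 * (m : ℝ)) * (u : EuclideanSpace ℝ (Fin 8)) i)
      (∏ i : Fin 8, (MvPolynomial.X i : MvPolynomial (Fin 8) ℝ)) =
      Real.sqrt (2 * (m : ℝ)) ^ 8 * ∏ i, (u : Pool.Agent.MP130199.V8) i := by
    intro u
    rw [map_prod]
    simp only [MvPolynomial.eval_X]
    rw [Finset.prod_mul_distrib]
    simp
  simp_rw [h1, h2] at h
  rw [MeasureTheory.integral_const_mul] at h
  have h3 : ∫ u, ∏ i, (u : Pool.Agent.MP130199.V8) i ∂Pool.Agent.MP130199.sm8 = 0 := sphere_prod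
  have h4 : ∫ u : Metric.sphere (0 : Pool.Agent.MP130199.V8) 1, ∏ i, (u : Pool.Agent.MP130199.V8) i
      ∂((MeasureTheory.volume : MeasureTheory.Measure (EuclideanSpace ℝ (Fin 8))).toSphere) = 0 := h3
  rw [h4, mul_zero, mul_zero] at h
  have hV : ((MeasureTheory.volume : MeasureTheory.Measure (EuclideanSpace ℝ (Fin 8))).toSphere
      Set.univ).toReal ≠ 0 := by
    refine (ENNReal.toReal_pos ?_ (MeasureTheory.measure_ne_top _ _)).ne'
    rw [Ne, MeasureTheory.Measure.measure_univ_eq_zero]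
    exact MeasureTheory.Measure.toSphere_ne_zero _
  have h5 := (mul_eq_zero.1 h).resolve_right hV
  rw [← Finset.sum_div] at h5
  have h6 : ((∑ v ∈ shell m, ∏ i, v i : ℤ) : ℝ) = 0 := by
    rw [Int.cast_sum]
    have := div_eq_zero_iff.1 h5
    rcases this with h7 | h7
    · exact h7
    · norm_num at h7
  exact_mod_cast h6

/-- `χ₋₄(v) v` for odd `v` (an even function), `0` for even `v` -/
def gk (v : ℤ) : ℤ := if v % 2 = 0 then 0 else if v % 4 = 1 then v else -v

/-- the sign change of the first coordinate -/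
def L1b_flip (v : Fin 8 → ℤ) : Fin 8 → ℤ := fun i => if i = 0 then -v i else v i

theorem L1b_flip_flip (v : Fin 8 → ℤ) : L1b_flip (L1b_flip v) = v := by
  funext i
  unfold L1b_flip
  split_ifs
  · ring
  · rfl

theorem L1b_sign {ι : Type*} (s : Finset ι) (v : ι → ℤ) (hodd : ∀ i, v i % 2 = 1) :
    ∃ k : ℕ, ∏ i ∈ s, gk (v i) = (-1) ^ k * ∏ i ∈ s, v i ∧
      (∑ i ∈ s, v i - s.card - 2 * (k : ℤ)) % 4 = 0 := by
  classical
  induction s using Finset.induction_on with
  | empty => exact ⟨0, by simp, by simp⟩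
  | insert a s ha ih =>
    obtain ⟨k, h1, h2⟩ := ih
    have h3 := hodd a
    rw [Finset.prod_insert ha, Finset.prod_insert ha, Finset.sum_insert ha,
      Finset.card_insert_of_notMem ha, h1]
    by_cases h4 : v a % 4 = 1
    · refine ⟨k, ?_, ?_⟩
      · rw [gk, if_neg (by omega), if_pos h4]
        ring
      · push_cast
        omega
    · refine ⟨k + 1, ?_, ?_⟩
      · rw [gk, if_neg (by omega), if_neg h4]
        ring
      · push_cast
        omega

theorem L1b_odd (v : Fin 8 → ℤ) (hodd : ∀ i, v i % 2 = 1) {p : Prop} [Decidable p] (hp : p) :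
    (if p ∧ (∑ i, v i) % 4 = 0 then 2 * ∏ i, v i else 0) - ∏ i, gk (v i) = ∏ i, v i := by
  obtain ⟨k, h1, h2⟩ := L1b_sign Finset.univ v hodd
  rw [Finset.card_univ, Fintype.card_fin] at h2
  push_cast at h2
  rw [h1]
  rcases Nat.even_or_odd k with hk | hk
  · rw [hk.neg_one_pow, if_pos]
    · ring
    · refine ⟨hp, ?_⟩
      obtain ⟨j, hj⟩ := hk
      omega
  · rw [hk.neg_one_pow, if_neg]
    · ring
    · rintro ⟨-, h3⟩
      obtain ⟨j, hj⟩ := hk
      omega

/-- The even vectors cancel (`v 0 ↦ -v 0`). For odd `v` with `∑ v_i² = 8 m`: `v ∈ shell m` iff `∑ v_i ≡ 0 mod 4` iff the number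
of `i` with `v_i ≡ 3 mod 4` is even iff `∏ v_i = ∏ gk (v_i)`, and `∏ v_i = - ∏ gk (v_i)` otherwise; `∑ ∏ v_i = 0` over
all odd `v` with `∑ v_i² = 8m`. -/
theorem sum_gk (m : ℕ) : 2 * ∑ v ∈ shell m, ∏ i, v i =
    ∑ v ∈ Fintype.piFinset (fun _ : Fin 8 => Finset.Icc (-(8 * (m : ℤ))) (8 * (m : ℤ))),
      if ∑ i, v i ^ 2 = 8 * (m : ℤ) then ∏ i, gk (v i) else 0 := by
  obtain ⟨B, hB⟩ : ∃ B, B = Fintype.piFinset (fun _ : Fin 8 => Finset.Icc (-(8 * (m : ℤ))) (8 * (m : ℤ))) :=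
    ⟨_, rfl⟩
  have hsh : 2 * ∑ v ∈ shell m, ∏ i, v i =
      ∑ v ∈ B, if (∀ i j, v i % 2 = v j % 2) ∧ (∑ i, v i) % 4 = 0 ∧
        ∑ i, v i ^ 2 = 8 * (m : ℤ) then 2 * ∏ i, v i else 0 := by
    rw [shell, ← hB, Finset.mul_sum, Finset.sum_filter]
  rw [hsh, ← hB, ← sub_eq_zero, ← Finset.sum_sub_distrib]
  obtain ⟨g, hg⟩ : ∃ g : (Fin 8 → ℤ) → ℤ, g = fun v =>
      (if (∀ i j, v i % 2 = v j % 2) ∧ (∑ i, v i) % 4 = 0 ∧
        ∑ i, v i ^ 2 = 8 * (m : ℤ) then 2 * ∏ i, v i else 0) -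
      (if ∑ i, v i ^ 2 = 8 * (m : ℤ) then ∏ i, gk (v i) else 0) := ⟨_, rfl⟩
  have key : ∀ v : Fin 8 → ℤ, g (L1b_flip v) = -g v := by
    intro v
    have hs : ∑ i, L1b_flip v i ^ 2 = ∑ i, v i ^ 2 := by
      refine Finset.sum_congr rfl fun i _ => ?_
      unfold L1b_flip
      split_ifs <;> ring
    have hprod : ∏ i, L1b_flip v i = -∏ i, v i := by
      rw [Fin.prod_univ_succ, Fin.prod_univ_succ (f := v)]
      simp [L1b_flip]
    have hsum : ∑ i, L1b_flip v i = ∑ i, v i - 2 * v 0 := by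
      rw [Fin.sum_univ_succ, Fin.sum_univ_succ (f := v)]
      simp [L1b_flip]
      ring
    have hpar : ∀ i, L1b_flip v i % 2 = v i % 2 := by
      intro i
      unfold L1b_flip
      split_ifs <;> omega
    have hpar' : (∀ i j, L1b_flip v i % 2 = L1b_flip v j % 2) ↔ ∀ i j, v i % 2 = v j % 2 := by
      simp only [hpar]
    rw [hg]
    show (if (∀ i j, L1b_flip v i % 2 = L1b_flip v j % 2) ∧ (∑ i, L1b_flip v i) % 4 = 0 ∧
        ∑ i, L1b_flip v i ^ 2 = 8 * (m : ℤ) then 2 * ∏ i, L1b_flip v i else 0) -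
      (if ∑ i, L1b_flip v i ^ 2 = 8 * (m : ℤ) then ∏ i, gk (L1b_flip v i) else 0) =
      -((if (∀ i j, v i % 2 = v j % 2) ∧ (∑ i, v i) % 4 = 0 ∧
        ∑ i, v i ^ 2 = 8 * (m : ℤ) then 2 * ∏ i, v i else 0) -
      (if ∑ i, v i ^ 2 = 8 * (m : ℤ) then ∏ i, gk (v i) else 0))
    simp only [hs, hpar]
    by_cases h8 : ∑ i, v i ^ 2 = 8 * (m : ℤ)
    swap
    · rw [if_neg (fun h => h8 h.2.2), if_neg h8, if_neg (fun h => h8 h.2.2), if_neg h8]
      ring
    rw [if_pos h8, if_pos h8]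
    simp only [h8, and_true]
    by_cases hodd : ∀ i, v i % 2 = 1
    · -- all odd
      have hodd' : ∀ i, L1b_flip v i % 2 = 1 := fun i => by rw [hpar, hodd]
      have hall : ∀ i j, v i % 2 = v j % 2 := fun i j => by rw [hodd, hodd]
      rw [L1b_odd v hodd hall, L1b_odd (L1b_flip v) hodd' hall, hprod]
    · -- some even
      have hz : ∀ w : Fin 8 → ℤ, (¬ ∀ i, w i % 2 = 1) → ∏ i, gk (w i) = 0 := by
        intro w hw
        push Not at hw
        obtain ⟨i, hi⟩ := hw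
        refine Finset.prod_eq_zero (Finset.mem_univ i) ?_
        rw [gk, if_pos (by omega)]
      rw [hz v hodd, hz (L1b_flip v) (by simpa only [hpar] using hodd)]
      by_cases hall : ∀ i j, v i % 2 = v j % 2
      · have h0 : v 0 % 2 = 0 := by
          by_contra hc
          apply hodd
          intro i
          have := hall i 0
          omega
        have h4 : ((∀ i j, v i % 2 = v j % 2) ∧ (∑ i, L1b_flip v i) % 4 = 0) ↔
            ((∀ i j, v i % 2 = v j % 2) ∧ (∑ i, v i) % 4 = 0) := by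
          rw [hsum]
          refine and_congr_right fun _ => ?_
          constructor <;> intro h <;> omega
        rw [if_congr h4 rfl rfl, hprod]
        split_ifs <;> ring
      · rw [if_neg (fun h => hall h.1), if_neg (fun h => hall h.1)]
        ring
  have hS : ∑ v ∈ B, g (L1b_flip v) = ∑ v ∈ B, g v := by
    refine Finset.sum_nbij' L1b_flip L1b_flip ?_ ?_ ?_ ?_ ?_
    · intro v hv
      rw [hB, Fintype.mem_piFinset] at hv ⊢
      intro i
      have := hv i
      rw [Finset.mem_Icc] at this ⊢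
      unfold L1b_flip
      split_ifs <;> constructor <;> linarith
    · intro v hv
      rw [hB, Fintype.mem_piFinset] at hv ⊢
      intro i
      have := hv i
      rw [Finset.mem_Icc] at this ⊢
      unfold L1b_flip
      split_ifs <;> constructor <;> linarith
    · intro v _
      exact L1b_flip_flip v
    · intro v _
      exact L1b_flip_flip v
    · intro v _
      rfl
  have hS2 : ∑ v ∈ B, g (L1b_flip v) = -∑ v ∈ B, g v := by
    rw [← Finset.sum_neg_distrib]
    exact Finset.sum_congr rfl fun v _ => key v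
  have hfin : ∑ v ∈ B, g v = 0 := by linarith
  rw [hg] at hfin
  exact hfin

theorem E8XL1c_gk (k : ℤ) : gk k = ck k + ck (-k) := by
  unfold gk ck
  by_cases h1 : k % 2 = 0
  · rw [if_pos h1, if_neg (by omega), if_neg (by omega)]
    rfl
  · rw [if_neg h1]
    by_cases h2 : 0 < k
    · rw [if_pos (show 0 < k ∧ k % 2 = 1 by omega), if_neg (show ¬ (0 < -k ∧ -k % 2 = 1) by omega),
        add_zero]
    · rw [if_neg (show ¬ (0 < k ∧ k % 2 = 1) by omega), if_pos (show 0 < -k ∧ -k % 2 = 1 by omega),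
        zero_add]
      by_cases h3 : k % 4 = 1
      · rw [if_pos h3, if_neg (by omega)]
        omega
      · rw [if_neg h3, if_pos (by omega)]

theorem E8XL1c_ex (B : PowerSeries ℤ) (m : ℕ) : coeff (8 * m) (ex 8 B) = coeff m B := by
  unfold N19.ex
  rw [coeff_mk]
  rw [if_pos (Dvd.intro m rfl), Nat.mul_div_cancel_left m (by norm_num)]

/-- `ts 1 gk = 2 J` (`gk (-v) = gk v`, `gk v = ck v` for `v > 0`). -/
theorem ts_gk : ts 1 gk = 2 * J := by
  ext n
  have h2 : (2 : PowerSeries ℤ) * J = J + J := two_mul J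
  rw [h2, map_add]
  unfold J ts
  rw [coeff_mk, coeff_mk]
  have h3 : (∑ k ∈ Finset.Icc (-(n : ℤ)) n, if ((1 : ℕ) : ℤ) * k ^ 2 = n then ck k else 0) =
      ∑ k ∈ Finset.Icc (-(n : ℤ)) n, if ((1 : ℕ) : ℤ) * k ^ 2 = n then ck (-k) else 0 := by
    refine Finset.sum_nbij' (fun k => -k) (fun k => -k) (fun k hk => ?_) (fun k hk => ?_)
      (fun k _ => neg_neg k) (fun k _ => neg_neg k) (fun k _ => ?_)
    · rw [Finset.mem_Icc] at hk ⊢
      constructor <;> omega
    · rw [Finset.mem_Icc] at hk ⊢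
      constructor <;> omega
    · rw [neg_sq, neg_neg]
  nth_rewrite 2 [h3]
  rw [← Finset.sum_add_distrib]
  refine Finset.sum_congr rfl fun k _ => ?_
  split_ifs
  · exact E8XL1c_gk k
  · rfl

theorem sum_eq_tau (m : ℕ) : ∑ v ∈ shell m, ∏ i, v i = 128 * tau m := by
  have h1 := sum_gk m
  have h2 := ts_pow 8 1 one_pos gk (le_refl (8 * m))
  have h3 : (∑ v ∈ Fintype.piFinset (fun _ : Fin 8 => Finset.Icc (-((8 * m : ℕ) : ℤ)) ((8 * m : ℕ) : ℤ)),
      if ((1 : ℕ) : ℤ) * ∑ i, v i ^ 2 = ((8 * m : ℕ) : ℤ) then ∏ i, gk (v i) else 0) =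
      ∑ v ∈ Fintype.piFinset (fun _ : Fin 8 => Finset.Icc (-(8 * (m : ℤ))) (8 * (m : ℤ))),
      if ∑ i, v i ^ 2 = 8 * (m : ℤ) then ∏ i, gk (v i) else 0 := by
    push_cast
    simp only [one_mul]
  rw [← h1] at h3
  rw [h3] at h2
  have h4 : coeff (8 * m) (ts 1 gk ^ 8) = 256 * tau m := by
    have h5 : (ts 1 gk) ^ 8 = C (256 : ℤ) * ex 8 Dl := by
      rw [ts_gk, mul_pow, J_pow]
      congr 1
      norm_num
    rw [h5, coeff_C_mul, E8XL1c_ex]
    rfl
  rw [h4] at h2
  linarith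

theorem tau_eq_zero {m : ℕ} (hd : IsDesign m 8) : tau m = 0 := by
  have h1 := sum_eq_tau m
  rw [sum_prod hd] at h1
  omega

end E8X
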