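import Pool.Agent.E8X.G1
import Pool.Agent.E8X.L1
import Pool.Agent.E8X.F4

/-!
# [E8X-G2] the condition for `8`-designs
-/

set_option autoImplicit false

open PowerSeries
open N19 (ex psi phs)
open Pool.Agent.MP130199 (shell IsDesign)

namespace E8X

/-- The representations `p = a₁² + a₂² + a₃² + 4 (b₁² + b₂² + b₃²) + 8 (c₁² + c₂²)` with odd positive
`a`, `b` and integers `c`. -/
noncomputable def reps (p : ℕ) : Finset (Fin 8 → ℤ) :=
  (Fintype.piFinset (fun _ : Fin 8 => Finset.Icc (-(p : ℤ)) (p : ℤ))).filter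
    (fun v : Fin 8 → ℤ => (∀ i : Fin 8, i.val < 6 → 0 < v i ∧ v i % 2 = 1) ∧
      v 0 ^ 2 + v 1 ^ 2 + v 2 ^ 2 + 4 * (v 3 ^ 2 + v 4 ^ 2 + v 5 ^ 2) + 8 * (v 6 ^ 2 + v 7 ^ 2) = (p : ℤ))

theorem g2_reps (p : ℕ) : coeff p Ss = ((reps p).card : ℤ) := by
  have h8 : ex 8 phs = ts 8 (fun _ => 1) := by
    rw [phs_ts, ex_ts (by norm_num) (by norm_num)]
  have hp : Ss = ∏ i : Fin 8, ts ((![1, 1, 1, 4, 4, 4, 8, 8] : Fin 8 → ℕ) i)
      ((![od, od, od, od, od, od, fun _ => 1, fun _ => 1] : Fin 8 → ℤ → ℤ) i) := by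
    rw [Fin.prod_univ_eight, Ss, X_Cc, Bb_ts, h8]
    simp only [Matrix.cons_val]
    ring
  rw [hp, ts_prod _ _ _ (le_refl p), reps, Finset.card_filter]
  · push_cast
    refine Finset.sum_congr rfl fun v _ => ?_
    rw [Fin.sum_univ_eight, Fin.prod_univ_eight]
    simp only [Matrix.cons_val]
    push_cast
    have e : (1 * v 0 ^ 2 + 1 * v 1 ^ 2 + 1 * v 2 ^ 2 + 4 * v 3 ^ 2 + 4 * v 4 ^ 2 + 4 * v 5 ^ 2 +
        8 * v 6 ^ 2 + 8 * v 7 ^ 2 = (p : ℤ)) ↔ (v 0 ^ 2 + v 1 ^ 2 + v 2 ^ 2 +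
        4 * (v 3 ^ 2 + v 4 ^ 2 + v 5 ^ 2) + 8 * (v 6 ^ 2 + v 7 ^ 2) = (p : ℤ)) := by
      constructor <;> intro h <;> linarith
    by_cases hn : v 0 ^ 2 + v 1 ^ 2 + v 2 ^ 2 + 4 * (v 3 ^ 2 + v 4 ^ 2 + v 5 ^ 2) +
        8 * (v 6 ^ 2 + v 7 ^ 2) = (p : ℤ)
    · rw [if_pos (e.2 hn)]
      by_cases hv : ∀ i : Fin 8, i.val < 6 → 0 < v i ∧ v i % 2 = 1
      · rw [if_pos ⟨hv, hn⟩]
        have h0 := hv 0 (by decide)
        have h1 := hv 1 (by decide)
        have h2 := hv 2 (by decide)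
        have h3 := hv 3 (by decide)
        have h4 := hv 4 (by decide)
        have h5 := hv 5 (by decide)
        simp only [od, if_pos h0, if_pos h1, if_pos h2, if_pos h3, if_pos h4, if_pos h5]
        norm_num
      · rw [if_neg (fun h => hv h.1)]
        push Not at hv
        obtain ⟨i, hi, hv⟩ := hv
        have hod : od (v i) = 0 := by
          rw [od, if_neg]
          rintro ⟨ha, hb⟩
          exact hv ha hb
        fin_cases i
        · simp only [Fin.zero_eta, Fin.isValue] at hod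
          simp [hod]
        · simp only [Fin.mk_one, Fin.isValue] at hod
          simp [hod]
        · simp only [Fin.reduceFinMk, Fin.isValue] at hod
          simp [hod]
        · simp only [Fin.reduceFinMk, Fin.isValue] at hod
          simp [hod]
        · simp only [Fin.reduceFinMk, Fin.isValue] at hod
          simp [hod]
        · simp only [Fin.reduceFinMk, Fin.isValue] at hod
          simp [hod]
        · exact absurd hi (by decide)
        · exact absurd hi (by decide)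
    · rw [if_neg (fun h => hn (e.1 h)), if_neg (fun h => hn h.2)]
  · intro i
    fin_cases i <;> simp

theorem g2_sigma {p : ℕ} (hp : p.Prime) (k : ℕ) : (ArithmeticFunction.sigma k p : ℤ) = 1 + (p : ℤ) ^ k := by
  rw [ArithmeticFunction.sigma_apply, hp.divisors, Finset.sum_pair hp.one_lt.ne]
  push_cast
  ring

theorem g2_256 (x : ZMod 256) (h : x ^ 11 = -1) : x = -1 := by
  revert x
  decide +kernel

theorem g2_64 (y : ZMod 64) (h : -7755 * y + 9926400 * y ^ 2 = 0) : y = 0 := by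
  revert y
  decide +kernel

/-- A prime `p` with `τ(p) = 0` is `-1` modulo `2^14`, and a number of representations of `p` is
determined modulo `16`. -/
theorem prime_cond {p : ℕ} (hp : p.Prime) (h : tau p = 0) :
    ∃ z : ℤ, (p : ℤ) + 1 = 16384 * z ∧ (16 : ℤ) ∣ ((reps p).card : ℤ) - 11 * z := by
  have h2 : p ≠ 2 := by
    rintro rfl
    rw [tau_two] at h
    norm_num at h
  have ho : p % 2 = 1 := hp.eq_two_or_odd.resolve_left h2
  have h256 := tau_mod ho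
  rw [h, g2_sigma hp] at h256
  have hx : ((p : ℤ) : ZMod 256) = -1 := by
    apply g2_256
    have := (ZMod.intCast_zmod_eq_zero_iff_dvd _ 256).2 h256
    push_cast at this ⊢
    linear_combination -this
  have hy : (256 : ℤ) ∣ (p : ℤ) + 1 := by
    refine (ZMod.intCast_zmod_eq_zero_iff_dvd _ 256).1 ?_
    push_cast at hx ⊢
    rw [hx]
    ring
  obtain ⟨y, hy⟩ := hy
  have hn : p % 8 = 7 := by omega
  have hm := tau_seven hn
  rw [h, g2_sigma hp, g2_sigma hp, g2_reps] at hm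
  obtain ⟨k, hk⟩ := hm
  set s : ℤ := ((reps p).card : ℤ) with hs
  have hpy : (p : ℤ) = 256 * y - 1 := by linarith
  rw [hpy] at hk
  have hk' : -7755 * y + 9926400 * y ^ 2 + 64 * s = 1024 * (k + 12 * y +
      (705 * 64 * (165 * y ^ 3 - 330 * 256 * y ^ 4 + 462 * 256 ^ 2 * y ^ 5 - 462 * 256 ^ 3 * y ^ 6 +
        330 * 256 ^ 4 * y ^ 7 - 165 * 256 ^ 5 * y ^ 8 + 55 * 256 ^ 6 * y ^ 9 - 11 * 256 ^ 7 * y ^ 10 +
        256 ^ 8 * y ^ 11) - 3072 * y ^ 2 + 262144 * y ^ 3)) := by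
    have h3 : (256 : ℤ) * (-7755 * y + 9926400 * y ^ 2 + 64 * s) = 256 * (1024 * (k + 12 * y +
      (705 * 64 * (165 * y ^ 3 - 330 * 256 * y ^ 4 + 462 * 256 ^ 2 * y ^ 5 - 462 * 256 ^ 3 * y ^ 6 +
        330 * 256 ^ 4 * y ^ 7 - 165 * 256 ^ 5 * y ^ 8 + 55 * 256 ^ 6 * y ^ 9 - 11 * 256 ^ 7 * y ^ 10 +
        256 ^ 8 * y ^ 11) - 3072 * y ^ 2 + 262144 * y ^ 3))) := by
      linear_combination hk
    exact mul_left_cancel₀ (by norm_num) h3
  generalize k + 12 * y + (705 * 64 * (165 * y ^ 3 - 330 * 256 * y ^ 4 + 462 * 256 ^ 2 * y ^ 5 -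
      462 * 256 ^ 3 * y ^ 6 + 330 * 256 ^ 4 * y ^ 7 - 165 * 256 ^ 5 * y ^ 8 + 55 * 256 ^ 6 * y ^ 9 -
      11 * 256 ^ 7 * y ^ 10 + 256 ^ 8 * y ^ 11) - 3072 * y ^ 2 + 262144 * y ^ 3) = W at hk'
  have h64 : (64 : ℤ) ∣ y := by
    refine (ZMod.intCast_zmod_eq_zero_iff_dvd _ 64).1 ?_
    apply g2_64
    have h5 := congrArg (fun t : ℤ => (t : ZMod 64)) hk'
    push_cast at h5
    have h6 : (64 : ZMod 64) = 0 := by decide
    have h7 : (1024 : ZMod 64) = 0 := by decide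
    rw [h6, h7, zero_mul, zero_mul, add_zero] at h5
    exact h5
  obtain ⟨z, hz⟩ := h64
  refine ⟨z, by rw [hy, hz]; ring, ⟨W + 484 * z - 39705600 * z ^ 2, ?_⟩⟩
  rw [hz] at hk'
  have h8 : (64 : ℤ) * (s - 11 * z) = 64 * (16 * (W + 484 * z - 39705600 * z ^ 2)) := by
    linear_combination hk'
  exact mul_left_cancel₀ (by norm_num) h8

theorem design_cond {m : ℕ} (hm : 0 < m) (hd : IsDesign m 8) :
    ∃ p : ℕ, p.Prime ∧ Odd (m.factorization p) ∧
      ∃ z : ℤ, (p : ℤ) + 1 = 16384 * z ∧ (16 : ℤ) ∣ ((reps p).card : ℤ) - 11 * z := by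
  obtain ⟨p, hp, ho, h0⟩ := tau_zero_prime hm (tau_eq_zero hd)
  exact ⟨p, hp, ho, prime_cond hp h0⟩

end E8X
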