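import Pool.Agent.E8X.G2

/-!
# [E8X-G3] `tau n` is the coefficient of `q^n` of the discriminant
-/

set_option autoImplicit false

open scoped Real
open PowerSeries
open NC11 (Ev qq)

namespace E8X

open UpperHalfPlane ModularForm MatrixGroups in
theorem disc_coeff (n : ℕ) :
    (UpperHalfPlane.qExpansion 1 ModularForm.discriminant).coeff n = ((tau n : ℤ) : ℂ) := by
  have h := ModularFormClass.qExpansion_coeff_unique (Γ := 𝒮ℒ) (k := 12) (h := 1)
    (c := fun m => ((tau m : ℤ) : ℂ)) one_pos one_mem_strictPeriods_SL (f := CuspForm.discriminant)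
    (by
      intro z
      have h1 := Dl_ev z z.2
      have e : Function.Periodic.qParam (1 : ℝ) z = qq z := by
        rw [Function.Periodic.qParam, qq]
        congr 1
        push_cast
        ring
      have e2 : (CuspForm.discriminant : ℍ → ℂ) z = ModularForm.eta z ^ 24 := rfl
      rw [e2]
      convert! h1 using 1
      funext m
      rw [e, smul_eq_mul]
      rfl) n
  exact h.symm

/-- The main congruence for Ramanujan's function. -/
theorem disc_congr {n : ℕ} (hn : n % 8 = 7) : ∃ k : ℤ,
    (UpperHalfPlane.qExpansion 1 ModularForm.discriminant).coeff n =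
      705 * ((ArithmeticFunction.sigma 11 n : ℕ) : ℂ) + 4096 * ((ArithmeticFunction.sigma 3 n : ℕ) : ℂ) -
        16384 * (((reps n).card : ℕ) : ℂ) + 262144 * (k : ℂ) := by
  obtain ⟨k, hk⟩ := tau_seven hn
  rw [g2_reps] at hk
  refine ⟨k, ?_⟩
  rw [disc_coeff]
  have h : tau n = 705 * (ArithmeticFunction.sigma 11 n : ℤ) + 4096 * (ArithmeticFunction.sigma 3 n : ℤ) -
      16384 * ((reps n).card : ℤ) + 262144 * k := by
    linear_combination hk
  rw [h]
  push_cast
  ring

end E8X
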