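import Pool.Agent.E8X.F1

/-!
# [E8X-F2] identities between the theta series
-/

set_option autoImplicit false

open PowerSeries
open N19 (ex psi phs)

namespace E8X

theorem F2a_phs_coeff_zero : coeff 0 phs = 1 := by
  simp [phs]

theorem F2a_phs_coeff_sq {n k : ℕ} (hn : n ≠ 0) (hk : k * k = n) : coeff n phs = 2 := by
  rw [phs, coeff_mk, if_neg hn, if_pos ⟨k, hk⟩]

theorem F2a_phs_coeff_none {n : ℕ} (h : ∀ k : ℕ, k * k ≠ n) : coeff n phs = 0 := by
  have hn : n ≠ 0 := fun h0 => h 0 (by simp [h0])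
  rw [phs, coeff_mk, if_neg hn, if_neg (by rintro ⟨k, hk⟩; exact h k hk)]

theorem F2a_le_sq {k n : ℕ} (h : k * k = n) : k ≤ n := by
  rw [← h]; exact Nat.le_mul_self k

theorem F2a_natAbs_sq {j : ℤ} {n : ℕ} (h : j ^ 2 = n) : j.natAbs * j.natAbs = n := by
  have h1 : ((j.natAbs * j.natAbs : ℕ) : ℤ) = n := by
    rw [← h, sq, Int.natAbs_mul_self]
  exact_mod_cast h1

theorem phs_ts : phs = ts 1 (fun _ => 1) := by
  ext n
  rw [ts, coeff_mk]
  simp only [Nat.cast_one, one_mul]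
  rcases Nat.eq_zero_or_pos n with rfl | hn
  · rw [F2a_phs_coeff_zero]; simp
  by_cases h : ∃ k : ℕ, k * k = n
  · obtain ⟨k, hk⟩ := h
    rw [F2a_phs_coeff_sq hn.ne' hk]
    have hk0 : k ≠ 0 := by rintro rfl; simp at hk; omega
    have hkn := F2a_le_sq hk
    have e1 : (Finset.Icc (-(n : ℤ)) n).filter (fun j : ℤ => j ^ 2 = n) = {(k : ℤ), -(k : ℤ)} := by
      ext j
      rw [Finset.mem_filter, Finset.mem_Icc, Finset.mem_insert, Finset.mem_singleton]
      constructor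
      · rintro ⟨-, h⟩
        have h1 := F2a_natAbs_sq h
        have h2 : j.natAbs = k := Nat.mul_self_inj.1 (h1.trans hk.symm)
        omega
      · intro h
        have h1 : j ^ 2 = (k : ℤ) ^ 2 := by rcases h with rfl | rfl <;> ring
        refine ⟨?_, ?_⟩
        · rcases h with rfl | rfl <;> constructor <;> omega
        · rw [h1, ← hk]; push_cast; ring
    rw [← Finset.sum_filter, e1, Finset.sum_pair (by omega)]
    norm_num
  · rw [F2a_phs_coeff_none (fun k hk => h ⟨k, hk⟩)]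
    symm
    refine Finset.sum_eq_zero fun j _ => if_neg ?_
    intro hj
    exact h ⟨_, F2a_natAbs_sq hj⟩

theorem ex_ts {k : ℕ} (hk : 0 < k) {w : ℕ} (hw : 0 < w) (c : ℤ → ℤ) : ex k (ts w c) = ts (k * w) c := by
  ext n
  rw [ex, coeff_mk, coeff_ts (Nat.mul_pos hk hw) c (le_refl n)]
  by_cases h : k ∣ n
  · rw [if_pos h]
    rw [coeff_ts hw c (n := n / k) (N := n) (Nat.div_le_self n k)]
    refine Finset.sum_congr rfl fun j _ => ?_
    obtain ⟨q, rfl⟩ := h
    rw [Nat.mul_div_cancel_left _ hk]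
    have hk' : (k : ℤ) ≠ 0 := by exact_mod_cast hk.ne'
    have : ((k * w : ℕ) : ℤ) * j ^ 2 = ((k * q : ℕ) : ℤ) ↔ (w : ℤ) * j ^ 2 = (q : ℤ) := by
      push_cast
      rw [mul_assoc]
      exact ⟨fun h => mul_left_cancel₀ hk' h, fun h => by rw [h]⟩
    by_cases h2 : (w : ℤ) * j ^ 2 = (q : ℤ)
    · rw [if_pos h2, if_pos (this.2 h2)]
    · rw [if_neg h2, if_neg (fun h3 => h2 (this.1 h3))]
  · rw [if_neg h]
    symm
    refine Finset.sum_eq_zero fun j _ => if_neg ?_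
    intro hj
    apply h
    have : (k : ℤ) ∣ (n : ℤ) := by
      rw [← hj]; push_cast; exact ⟨(w : ℤ) * j ^ 2, by ring⟩
    exact_mod_cast this

theorem F2a_expand {k : ℕ} (hk : 0 < k) (f : PowerSeries ℤ) :
    ex k f = PowerSeries.expand k hk.ne' f := by
  ext n
  rw [ex, coeff_mk]
  by_cases h : k ∣ n
  · obtain ⟨q, rfl⟩ := h
    rw [if_pos (Dvd.intro _ rfl), Nat.mul_div_cancel_left _ hk, PowerSeries.coeff_expand_mul]
  · rw [if_neg h, PowerSeries.coeff_expand_of_not_dvd k hk.ne' f h]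

theorem ex_mul {k : ℕ} (hk : 0 < k) (f g : PowerSeries ℤ) : ex k (f * g) = ex k f * ex k g := by
  simp only [F2a_expand hk, map_mul]

theorem ex_add (k : ℕ) (f g : PowerSeries ℤ) : ex k (f + g) = ex k f + ex k g := by
  ext n
  simp only [ex, coeff_mk, map_add]
  split_ifs <;> simp

theorem ex_pow {k : ℕ} (hk : 0 < k) (f : PowerSeries ℤ) (r : ℕ) : ex k (f ^ r) = ex k f ^ r := by
  simp only [F2a_expand hk, map_pow]

theorem ex_X {k : ℕ} (hk : 0 < k) : ex k X = X ^ k := by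
  rw [F2a_expand hk, PowerSeries.expand_X]

theorem ex_ofNat {k : ℕ} (hk : 0 < k) (c : ℤ) : ex k (C c) = C c := by
  rw [F2a_expand hk, PowerSeries.expand_C]

theorem ex_ex {k l : ℕ} (hk : 0 < k) (hl : 0 < l) (f : PowerSeries ℤ) : ex k (ex l f) = ex (k * l) f := by
  rw [F2a_expand hk, F2a_expand hl, F2a_expand (Nat.mul_pos hk hl), PowerSeries.expand_mul k hk.ne' l hl.ne']

theorem F2a_od_coeff {n k : ℕ} (hk : k % 2 = 1) (hn : k * k = n) : coeff n (ts 1 od) = 1 := by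
  rw [ts, coeff_mk]
  simp only [Nat.cast_one, one_mul]
  have hkn := F2a_le_sq hn
  rw [Finset.sum_eq_single (k : ℤ)]
  · rw [if_pos (by rw [← hn]; push_cast; ring), od, if_pos (by omega)]
  · intro j _ hj
    by_cases h : j ^ 2 = (n : ℤ)
    · rw [if_pos h, od, if_neg]
      rintro ⟨h1, -⟩
      have h2 := F2a_natAbs_sq h
      have h3 : j.natAbs = k := Nat.mul_self_inj.1 (h2.trans hn.symm)
      omega
    · rw [if_neg h]
  · intro h
    exfalso
    apply h
    rw [Finset.mem_Icc]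
    constructor <;> omega

theorem F2a_od_coeff_none {n : ℕ} (h : ∀ k : ℕ, k % 2 = 1 → k * k ≠ n) : coeff n (ts 1 od) = 0 := by
  rw [ts, coeff_mk]
  simp only [Nat.cast_one, one_mul]
  refine Finset.sum_eq_zero fun j _ => ?_
  by_cases h1 : j ^ 2 = (n : ℤ)
  · rw [if_pos h1, od, if_neg]
    rintro ⟨h2, h3⟩
    exact h j.natAbs (by omega) (F2a_natAbs_sq h1)
  · rw [if_neg h1]

/-- `∑_{k odd > 0} X^{k²} = X ψ(X⁸)` since `(2j+1)² = 1 + 8 j(j+1)/2`. -/
theorem X_Cc : X * Cc = ts 1 od := by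
  ext n
  rcases n with _ | n
  · rw [coeff_zero_X_mul, F2a_od_coeff_none]
    intro k hk h
    have : k = 0 := by simpa using h
    omega
  · rw [coeff_succ_X_mul, Cc, ex, coeff_mk, psi, coeff_mk]
    by_cases h : ∃ k : ℕ, k % 2 = 1 ∧ k * k = n + 1
    · obtain ⟨k, hk, hkn⟩ := h
      rw [F2a_od_coeff hk hkn]
      obtain ⟨j, rfl⟩ : ∃ j, k = 2 * j + 1 := ⟨k / 2, by omega⟩
      have hn : n = 4 * (j * (j + 1)) := by
        have : (2 * j + 1) * (2 * j + 1) = 4 * (j * (j + 1)) + 1 := by ring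
        omega
      obtain ⟨q, hq⟩ := Nat.even_mul_succ_self j
      have hn8 : n = 8 * q := by rw [hn, hq]; ring
      rw [if_pos ⟨q, hn8⟩, hn8, Nat.mul_div_cancel_left _ (by norm_num : 0 < 8), if_pos]
      exact ⟨j, by rw [hq]; ring⟩
    · rw [F2a_od_coeff_none (fun k hk hkn => h ⟨k, hk, hkn⟩)]
      by_cases h8 : 8 ∣ n
      · rw [if_pos h8, if_neg]
        rintro ⟨j, hj⟩
        obtain ⟨q, rfl⟩ := h8
        rw [Nat.mul_div_cancel_left _ (by norm_num : 0 < 8)] at hj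
        refine h ⟨2 * j + 1, by omega, ?_⟩
        have : (2 * j + 1) * (2 * j + 1) = 4 * (j * (j + 1)) + 1 := by ring
        rw [this, hj]; ring
      · rw [if_neg h8]

/-- `∑_{k odd > 0} X^{4k²} = X⁴ ψ(X³²)` -/
theorem Bb_ts : Bb = ts 4 od := by
  have h := congrArg (ex 4) X_Cc
  rw [ex_ts (by norm_num) (by norm_num), ex_mul (by norm_num), ex_X (by norm_num), Cc,
    ex_ex (by norm_num) (by norm_num)] at h
  exact h

/-- `φ(X) = φ(X⁴) + 2 X ψ(X⁸)`: even and odd squares. -/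
theorem r0 : phs = ex 4 phs + 2 * X * Cc := by
  rw [mul_assoc, X_Cc]
  have h2 : (2 : PowerSeries ℤ) = C 2 := by simp
  ext n
  rw [h2, map_add, coeff_C_mul]
  by_cases hs : ∃ k : ℕ, k * k = n
  · obtain ⟨k, hk⟩ := hs
    rcases Nat.even_or_odd' k with ⟨j, rfl | rfl⟩
    · have hn : n = 4 * (j * j) := by rw [← hk]; ring
      have h0 : coeff n (ts 1 od) = 0 := by
        apply F2a_od_coeff_none
        intro i hi h
        have : i = 2 * j := Nat.mul_self_inj.1 (h.trans hk.symm)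
        omega
      rw [h0, ex, coeff_mk, if_pos ⟨_, hn⟩, hn, Nat.mul_div_cancel_left _ (by norm_num : 0 < 4)]
      rcases Nat.eq_zero_or_pos j with rfl | hj
      · simp
      · rw [F2a_phs_coeff_sq (n := j * j) (Nat.mul_pos hj hj).ne' rfl,
          F2a_phs_coeff_sq (k := 2 * j) (by positivity) (by ring)]
        norm_num
    · have hn : n = 4 * (j * (j + 1)) + 1 := by rw [← hk]; ring
      have h4 : ¬ 4 ∣ n := by omega
      rw [F2a_od_coeff (by omega) hk, ex, coeff_mk, if_neg h4, F2a_phs_coeff_sq (by omega) hk]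
      norm_num
  · rw [F2a_phs_coeff_none (fun k hk => hs ⟨k, hk⟩),
      F2a_od_coeff_none (fun k _ hk => hs ⟨k, hk⟩), ex, coeff_mk]
    by_cases h4 : 4 ∣ n
    · obtain ⟨q, rfl⟩ := h4
      rw [if_pos (Dvd.intro _ rfl), Nat.mul_div_cancel_left _ (by norm_num : 0 < 4),
        F2a_phs_coeff_none]
      · norm_num
      · intro k hk
        exact hs ⟨2 * k, by rw [← hk]; ring⟩
    · rw [if_neg h4]; norm_num

/-- indicator functions of the even and of the odd integers -/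
def F2b_ei (k : ℤ) : ℤ := if k % 2 = 0 then 1 else 0

def F2b_oi (k : ℤ) : ℤ := if k % 2 = 1 then 1 else 0

theorem F2b_ei_ts : ts 1 F2b_ei = ts 4 (fun _ => 1) := by
  ext n
  unfold ts
  rw [coeff_mk, coeff_mk, ← Finset.sum_filter, ← Finset.sum_filter]
  have h1 : ∀ k ∈ (Finset.Icc (-(n : ℤ)) n).filter (fun k => ((1 : ℕ) : ℤ) * k ^ 2 = n),
      F2b_ei k = if k % 2 = 0 then 1 else 0 := fun k _ => rfl
  rw [Finset.sum_congr rfl h1, ← Finset.sum_filter, Finset.filter_filter]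
  symm
  refine Finset.sum_bij (fun a _ => 2 * a) ?_ ?_ ?_ (fun _ _ => rfl)
  · intro a ha
    rw [Finset.mem_filter, Finset.mem_Icc] at ha ⊢
    obtain ⟨⟨h2, h3⟩, h4⟩ := ha
    push_cast at h4 ⊢
    have h5 : a ^ 2 ≤ 4 * a ^ 2 := by nlinarith [sq_nonneg a]
    refine ⟨⟨?_, ?_⟩, ?_, ?_⟩
    · nlinarith [sq_nonneg a, sq_nonneg (a + 1), sq_nonneg (2 * a + 1)]
    · nlinarith [sq_nonneg a, sq_nonneg (a - 1), sq_nonneg (2 * a - 1)]
    · rw [← h4]
      ring
    · omega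
  · intro a _ b _ h
    have h' : 2 * a = 2 * b := h
    omega
  · intro k hk
    rw [Finset.mem_filter, Finset.mem_Icc] at hk
    obtain ⟨⟨h2, h3⟩, h4, h5⟩ := hk
    push_cast at h4
    refine ⟨k / 2, ?_, ?_⟩
    · rw [Finset.mem_filter, Finset.mem_Icc]
      refine ⟨⟨by omega, by omega⟩, ?_⟩
      push_cast
      have h6 : 2 * (k / 2) = k := by omega
      nlinarith [h6]
    · show 2 * (k / 2) = k
      omega

theorem F2b_refl (n : ℕ) (c : ℤ → ℤ) :
    ∑ k ∈ Finset.Icc (-(n : ℤ)) n, c (-k) = ∑ k ∈ Finset.Icc (-(n : ℤ)) n, c k := by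
  refine Finset.sum_bij (fun a _ => -a) ?_ ?_ ?_ (fun _ _ => rfl)
  · intro a ha
    rw [Finset.mem_Icc] at ha ⊢
    constructor <;> omega
  · intro a _ b _ h
    have h' : -a = -b := h
    omega
  · intro k hk
    rw [Finset.mem_Icc] at hk
    exact ⟨-k, Finset.mem_Icc.2 ⟨by omega, by omega⟩, by simp⟩

theorem F2b_oi_ts : ts 1 F2b_oi = 2 * ts 1 od := by
  have h2 : (2 : PowerSeries ℤ) = C 2 := (map_ofNat C 2).symm
  rw [h2]
  ext n
  rw [coeff_C_mul]
  unfold ts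
  rw [coeff_mk, coeff_mk, two_mul]
  have h1 : ∑ k ∈ Finset.Icc (-(n : ℤ)) n, (if ((1 : ℕ) : ℤ) * k ^ 2 = n then od k else 0) =
      ∑ k ∈ Finset.Icc (-(n : ℤ)) n, (if ((1 : ℕ) : ℤ) * k ^ 2 = n then od (-k) else 0) := by
    rw [← F2b_refl]
    refine Finset.sum_congr rfl fun k _ => ?_
    rw [neg_sq]
  nth_rw 2 [h1]
  rw [← Finset.sum_add_distrib]
  refine Finset.sum_congr rfl fun k _ => ?_
  by_cases h3 : ((1 : ℕ) : ℤ) * k ^ 2 = n
  · rw [if_pos h3, if_pos h3, if_pos h3]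
    unfold F2b_oi od
    by_cases h4 : k % 2 = 1
    · rw [if_pos h4]
      by_cases h5 : 0 < k
      · rw [if_pos ⟨h5, h4⟩, if_neg (by omega)]
        norm_num
      · rw [if_neg (by omega), if_pos (by omega)]
        norm_num
    · rw [if_neg h4, if_neg (by omega), if_neg (by omega)]
      norm_num
  · rw [if_neg h3, if_neg h3, if_neg h3]
    norm_num

theorem F2b_box {n : ℕ} {x y : ℤ} (h : x ^ 2 + y ^ 2 = n) : -(n : ℤ) ≤ x ∧ x ≤ n := by
  have h1 : x ^ 2 ≤ n := by nlinarith [sq_nonneg y]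
  have h2 : (0 : ℤ) ≤ n := Nat.cast_nonneg n
  constructor
  · by_contra hc
    push Not at hc
    nlinarith [sq_nonneg (x + 1), sq_nonneg x]
  · by_contra hc
    push Not at hc
    nlinarith [sq_nonneg (x - 1), sq_nonneg x]

theorem F2b_main : ts 2 (fun _ => 1) ^ 2 = ts 1 F2b_ei ^ 2 + ts 1 F2b_oi ^ 2 := by
  ext n
  rw [map_add, ts_pow 2 2 (by norm_num) _ (le_refl n), ts_pow 2 1 (by norm_num) _ (le_refl n),
    ts_pow 2 1 (by norm_num) _ (le_refl n), ← Finset.sum_add_distrib]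
  have h1 : ∀ v ∈ Fintype.piFinset (fun _ : Fin 2 => Finset.Icc (-(n : ℤ)) n),
      ((if ((1 : ℕ) : ℤ) * ∑ i, v i ^ 2 = n then ∏ i, F2b_ei (v i) else 0) +
        (if ((1 : ℕ) : ℤ) * ∑ i, v i ^ 2 = n then ∏ i, F2b_oi (v i) else 0)) =
      if (v 0 ^ 2 + v 1 ^ 2 = n ∧ (v 0 + v 1) % 2 = 0) then 1 else 0 := by
    intro v _
    rw [Fin.sum_univ_two, Fin.prod_univ_two, Fin.prod_univ_two, Nat.cast_one, one_mul]
    unfold F2b_ei F2b_oi
    by_cases h2 : v 0 ^ 2 + v 1 ^ 2 = n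
    · rw [if_pos h2, if_pos h2]
      rcases Int.emod_two_eq_zero_or_one (v 0) with h3 | h3 <;>
      rcases Int.emod_two_eq_zero_or_one (v 1) with h4 | h4
      · rw [if_pos h3, if_pos h4, if_neg (by omega), if_neg (by omega), if_pos ⟨h2, by omega⟩]
        norm_num
      · rw [if_pos h3, if_neg (by omega), if_neg (by omega), if_pos h4, if_neg (by omega)]
        norm_num
      · rw [if_neg (by omega), if_pos h4, if_pos h3, if_neg (by omega), if_neg (by omega)]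
        norm_num
      · rw [if_neg (by omega), if_neg (by omega), if_pos h3, if_pos h4, if_pos ⟨h2, by omega⟩]
        norm_num
    · rw [if_neg h2, if_neg h2, if_neg (fun h => h2 h.1)]
      norm_num
  rw [Finset.sum_congr rfl h1]
  simp only [Finset.prod_const_one]
  rw [← Finset.sum_filter, ← Finset.sum_filter]
  refine Finset.sum_bij (fun v _ => ![v 0 + v 1, v 0 - v 1]) ?_ ?_ ?_ (fun _ _ => rfl)
  · intro v hv
    rw [Finset.mem_filter, Fintype.mem_piFinset, Fin.sum_univ_two] at hv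
    obtain ⟨-, h3⟩ := hv
    push_cast at h3
    have h4 : (v 0 + v 1) ^ 2 + (v 0 - v 1) ^ 2 = n := by
      rw [← h3]
      ring
    have h5 : (v 0 - v 1) ^ 2 + (v 0 + v 1) ^ 2 = n := by
      rw [← h3]
      ring
    rw [Finset.mem_filter, Fintype.mem_piFinset]
    refine ⟨?_, ?_, ?_⟩
    · intro i
      rw [Finset.mem_Icc]
      fin_cases i
      · exact F2b_box h4
      · exact F2b_box h5
    · exact h4
    · show (v 0 + v 1 + (v 0 - v 1)) % 2 = 0
      omega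
  · intro v _ v' _ h
    have h3 : v 0 + v 1 = v' 0 + v' 1 := congrFun h 0
    have h4 : v 0 - v 1 = v' 0 - v' 1 := congrFun h 1
    funext i
    fin_cases i
    · show v 0 = v' 0
      omega
    · show v 1 = v' 1
      omega
  · intro u hu
    rw [Finset.mem_filter, Fintype.mem_piFinset] at hu
    obtain ⟨-, h3, h4⟩ := hu
    obtain ⟨a, ha⟩ : ∃ a, 2 * a = u 0 + u 1 := ⟨(u 0 + u 1) / 2, by omega⟩
    have hb : u 0 = a + (u 0 - a) := by ring
    have hc : u 1 = a - (u 0 - a) := by omega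
    have h5 : 2 * (a ^ 2 + (u 0 - a) ^ 2) = n := by
      have h6 : u 0 ^ 2 + u 1 ^ 2 = (a + (u 0 - a)) ^ 2 + (a - (u 0 - a)) ^ 2 := by
        rw [← hb, ← hc]
      rw [← h3, h6]
      ring
    have h7 : a ^ 2 + (u 0 - a) ^ 2 ≤ n := by nlinarith [sq_nonneg a, sq_nonneg (u 0 - a)]
    refine ⟨![a, u 0 - a], ?_, ?_⟩
    · rw [Finset.mem_filter, Fintype.mem_piFinset, Fin.sum_univ_two]
      refine ⟨?_, ?_⟩
      · intro i
        rw [Finset.mem_Icc]
        obtain ⟨N, hN⟩ : ∃ N : ℕ, a ^ 2 + (u 0 - a) ^ 2 = (N : ℤ) :=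
          ⟨(a ^ 2 + (u 0 - a) ^ 2).toNat, (Int.toNat_of_nonneg (by positivity)).symm⟩
        have hN2 : (N : ℤ) ≤ n := by rw [← hN]; exact h7
        fin_cases i
        · have := F2b_box hN
          exact ⟨by show -(n : ℤ) ≤ a; omega, by show a ≤ (n : ℤ); omega⟩
        · have := F2b_box (n := N) (x := u 0 - a) (y := a) (by rw [← hN]; ring)
          exact ⟨by show -(n : ℤ) ≤ u 0 - a; omega, by show u 0 - a ≤ (n : ℤ); omega⟩
      · show ((2 : ℕ) : ℤ) * (a ^ 2 + (u 0 - a) ^ 2) = n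
        push_cast
        exact h5
    · funext i
      fin_cases i
      · show a + (u 0 - a) = u 0
        ring
      · show a - (u 0 - a) = u 1
        exact hc.symm

theorem F2b_inj {f g : PowerSeries ℤ} (h : ex 2 f = ex 2 g) : f = g := by
  ext n
  have h1 := congrArg (coeff (2 * n)) h
  unfold ex at h1
  rw [coeff_mk, coeff_mk, if_pos (dvd_mul_right 2 n), if_pos (dvd_mul_right 2 n),
    Nat.mul_div_cancel_left n (by norm_num)] at h1
  exact h1

/-- `φ(X)² = φ(X²)² + 4 X ψ(X⁴)²`: `m² + n²`; if `m ≡ n mod 2` put `m = a + b`, `n = a - b`: `2a² + 2b²`;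
otherwise `m + n`, `m - n` are odd and `m² + n² = ((m+n)² + (m-n)²)/2`, `(k² + l²)/2 = 1 + 4 (k²-1)/8 + 4 (l²-1)/8`.
Compare coefficients with `ts_pow` (or `ts_prod`), or work analytically as in N19/L4. -/
theorem r2 : phs ^ 2 = ex 2 phs ^ 2 + 4 * X * ex 4 psi ^ 2 := by
  have h4 : (4 : PowerSeries ℤ) = C 4 := (map_ofNat C 4).symm
  apply F2b_inj
  have e1 : ex 2 (phs ^ 2) = ts 2 (fun _ => 1) ^ 2 := by
    rw [ex_pow (by norm_num), phs_ts, ex_ts (by norm_num) (by norm_num)]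
  have e2 : ex 2 (ex 2 phs ^ 2) = ts 4 (fun _ => 1) ^ 2 := by
    rw [ex_pow (by norm_num), ex_ex (by norm_num) (by norm_num), phs_ts, ex_ts (by norm_num) (by norm_num)]
  have e3 : ex 2 (4 * X * ex 4 psi ^ 2) = 4 * (X * Cc) ^ 2 := by
    rw [h4, ex_mul (by norm_num), ex_mul (by norm_num), ex_ofNat (by norm_num), ex_X (by norm_num),
      ex_pow (by norm_num), ex_ex (by norm_num) (by norm_num)]
    unfold Cc
    norm_num
    ring
  rw [e1, ex_add, e2, e3, X_Cc, F2b_main, F2b_ei_ts, F2b_oi_ts]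
  ring

theorem F2c_ex4 {k : ℕ} [NeZero k] : ex k 4 = 4 := by
  have h := ex_ofNat (Nat.pos_of_ne_zero (NeZero.ne k)) 4
  simpa using h

theorem F2c_ex2 {k : ℕ} [NeZero k] : ex k 2 = 2 := by
  have h := ex_ofNat (Nat.pos_of_ne_zero (NeZero.ne k)) 2
  simpa using h

theorem F2c_inj {f g : PowerSeries ℤ} (h : ex 4 f = ex 4 g) : f = g := by
  ext n
  have := congrArg (coeff (4 * n)) h
  simpa [ex] using this

/-- `ψ(X)² = φ(X) ψ(X²)`: `X^2 ψ(X^8)^2 = ∑_{k,l odd > 0} X^{k²+l²}`; `k + l = 2a`, `k - l = 2b` with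
`a + b` odd: `k² + l² = 2(a² + b²)`. Over all signs: `4 ψ(X)²`-many pairs; `a` or `b` is odd (exactly one).
Equivalently, from the parts with odd exponents of `r2`: `(φ(X⁴) + 2Xψ(X⁸))² = φ(X²)² + 4Xψ(X⁴)²`, and
`φ(X²)² = φ(X⁴)² + 4X²ψ(X⁸)²` (`r2` with `X²`) give `4 X φ(X⁴) ψ(X⁸) = 4 X ψ(X⁴)²`, that is `r1` with `X⁴`
for `X` (and `ex 4` is injective). -/
theorem r1 : psi ^ 2 = phs * ex 2 psi := by
  have h2 : ex 4 (psi ^ 2) = ex 4 (phs * ex 2 psi) := by
    have h0 := r0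
    have e2 : ex 2 (phs ^ 2) = ex 2 (ex 2 phs ^ 2 + 4 * X * ex 4 psi ^ 2) := congrArg _ r2
    rw [ex_pow (by norm_num), ex_add, ex_mul (by norm_num), ex_mul (by norm_num), ex_pow (by norm_num),
      ex_pow (by norm_num), ex_X (by norm_num), ex_ex (by norm_num) (by norm_num),
      ex_ex (by norm_num) (by norm_num), F2c_ex4] at e2
    norm_num at e2
    have h3 := r2
    rw [e2] at h3
    nth_rw 1 [h0] at h3
    rw [ex_pow (by norm_num), ex_mul (by norm_num), ex_ex (by norm_num) (by norm_num)]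
    norm_num
    have h4 : (4 * X : PowerSeries ℤ) * (ex 4 phs * ex 8 psi) = 4 * X * ex 4 psi ^ 2 := by
      change (ex 4 phs + 2 * X * ex 8 psi) ^ 2 = _ at h3
      linear_combination h3
    have h5 : (4 * X : PowerSeries ℤ) ≠ 0 := mul_ne_zero (fun h => by
      have := congrArg (coeff 0) h
      rw [show (4 : PowerSeries ℤ) = C 4 by simp, coeff_C] at this
      simp at this) X_ne_zero
    exact (mul_left_cancel₀ h5 h4).symm
  exact F2c_inj h2

theorem ex4_phs : ex 4 phs = Aa + 2 * Bb := by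
  have e2 : ex 4 phs = ex 4 (ex 4 phs + 2 * X * Cc) := congrArg _ r0
  rw [e2, ex_add, ex_mul (by norm_num), ex_mul (by norm_num), ex_X (by norm_num),
    ex_ex (by norm_num) (by norm_num), Cc, ex_ex (by norm_num) (by norm_num), F2c_ex2, Aa, Bb]
  norm_num
  ring

theorem r3 : ex 8 phs ^ 2 = Aa ^ 2 + 4 * Bb ^ 2 := by
  have e2 : ex 8 (phs ^ 2) = ex 8 (ex 2 phs ^ 2 + 4 * X * ex 4 psi ^ 2) := congrArg _ r2
  rw [ex_pow (by norm_num), ex_add, ex_mul (by norm_num), ex_mul (by norm_num), ex_pow (by norm_num),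
    ex_pow (by norm_num), ex_X (by norm_num), ex_ex (by norm_num) (by norm_num),
    ex_ex (by norm_num) (by norm_num), F2c_ex4] at e2
  rw [e2, Aa, Bb]
  norm_num
  ring

/-- `C⁴ = ψ(X⁸)⁴ = φ(X⁸)² ψ(X¹⁶)²`, `ψ(X¹⁶)² = φ(X¹⁶) ψ(X³²)`. -/
theorem r4 : X ^ 4 * Cc ^ 4 = Aa * Bb * (Aa ^ 2 + 4 * Bb ^ 2) := by
  have a1 : Cc ^ 2 = ex 8 phs * ex 16 psi := by
    have := congrArg (ex 8) r1
    rw [ex_pow (by norm_num), ex_mul (by norm_num), ex_ex (by norm_num) (by norm_num)] at this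
    norm_num at this
    exact this
  have a2 : ex 16 psi ^ 2 = Aa * ex 32 psi := by
    have := congrArg (ex 16) r1
    rw [ex_pow (by norm_num), ex_mul (by norm_num), ex_ex (by norm_num) (by norm_num)] at this
    norm_num at this
    exact this
  calc X ^ 4 * Cc ^ 4 = X ^ 4 * (Cc ^ 2) ^ 2 := by ring
    _ = X ^ 4 * (ex 8 phs ^ 2 * ex 16 psi ^ 2) := by rw [a1]; ring
    _ = _ := by rw [a2, r3, Bb]; ring

/-- `F = X ψ(X²)⁴`, `ψ(X²)² = φ(X²) ψ(X⁴)`, `φ(X²)² = E² + 4X²C²`, `ψ(X⁴)² = E C` with `E = φ(X⁴)`. -/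
theorem F_eq : F = X * Cc * ex 4 phs * (ex 4 phs ^ 2 + 4 * (X * Cc) ^ 2) := by
  have a1 : ex 2 psi ^ 2 = ex 2 phs * ex 4 psi := by
    have := congrArg (ex 2) r1
    rw [ex_pow (by norm_num), ex_mul (by norm_num), ex_ex (by norm_num) (by norm_num)] at this
    norm_num at this
    exact this
  have a2 : ex 4 psi ^ 2 = ex 4 phs * Cc := by
    have := congrArg (ex 4) r1
    rw [ex_pow (by norm_num), ex_mul (by norm_num), ex_ex (by norm_num) (by norm_num)] at this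
    norm_num at this
    exact this
  have a3 : ex 2 phs ^ 2 = ex 4 phs ^ 2 + 4 * X ^ 2 * Cc ^ 2 := by
    have := congrArg (ex 2) r2
    rw [ex_pow (by norm_num), ex_add, ex_mul (by norm_num), ex_mul (by norm_num), ex_pow (by norm_num),
      ex_pow (by norm_num), ex_X (by norm_num), ex_ex (by norm_num) (by norm_num),
      ex_ex (by norm_num) (by norm_num), F2c_ex4] at this
    norm_num at this
    exact this
  calc F = X * (ex 2 psi ^ 2) ^ 2 := by rw [F]; ring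
    _ = X * (ex 2 phs ^ 2 * ex 4 psi ^ 2) := by rw [a1]; ring
    _ = _ := by rw [a2, a3]; ring

theorem phF : phs ^ 4 - 16 * F = (ex 4 phs - 2 * (X * Cc)) ^ 4 := by
  rw [F_eq]
  nth_rw 1 [r0]
  ring

theorem Dl_eq : Dl = X * Cc * ex 4 phs * (ex 4 phs ^ 2 + 4 * (X * Cc) ^ 2) *
    (ex 4 phs + 2 * (X * Cc)) ^ 4 * (ex 4 phs - 2 * (X * Cc)) ^ 16 := by
  rw [Dl, phF]
  nth_rw 1 [r0]
  rw [F_eq]
  ring

end E8X
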