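import Pool.Agent.E8X.Defs

/-!
# [E8X-F1] coefficients of products of theta type series
-/

set_option autoImplicit false

open PowerSeries
open N19 (ex psi phs)

namespace E8X

theorem f1_pi {r : ℕ} (S : Finset ℤ) (g : (Fin (r + 1) → ℤ) → ℤ) :
    ∑ v ∈ Fintype.piFinset (fun _ : Fin (r + 1) => S), g v =
      ∑ k ∈ S, ∑ v ∈ Fintype.piFinset (fun _ : Fin r => S), g (Fin.cons k v) := by
  rw [← Finset.sum_product']
  refine Finset.sum_nbij' (fun v => (v 0, Fin.tail v)) (fun p => Fin.cons p.1 p.2) ?_ ?_ ?_ ?_ ?_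
  · intro v hv
    rw [Fintype.mem_piFinset] at hv
    rw [Finset.mem_product, Fintype.mem_piFinset]
    exact ⟨hv 0, fun i => hv i.succ⟩
  · intro p hp
    rw [Finset.mem_product, Fintype.mem_piFinset] at hp
    rw [Fintype.mem_piFinset]
    intro i
    refine Fin.cases ?_ (fun i => ?_) i
    · rw [Fin.cons_zero]
      exact hp.1
    · rw [Fin.cons_succ]
      exact hp.2 i
  · intro v _
    exact Fin.cons_self_tail v
  · intro p _
    rw [Fin.cons_zero, Fin.tail_cons]
  · intro v _
    rw [Fin.cons_self_tail]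

theorem f1_anti {n : ℕ} (a b : ℤ) (ha : 0 ≤ a) (hb : 0 ≤ b) {x y : ℤ} :
    ∑ p ∈ Finset.HasAntidiagonal.antidiagonal n, (if a = (p.1 : ℤ) then x else 0) * (if b = (p.2 : ℤ) then y else 0) =
      if a + b = n then x * y else 0 := by
  obtain ⟨a', rfl⟩ := Int.eq_ofNat_of_zero_le ha
  obtain ⟨b', rfl⟩ := Int.eq_ofNat_of_zero_le hb
  by_cases h : ((a' : ℕ) : ℤ) + ((b' : ℕ) : ℤ) = n
  · rw [if_pos h, Finset.sum_eq_single (a', b')]
    · rw [if_pos rfl, if_pos rfl]
    · intro p _ hp
      by_cases h1 : ((a' : ℕ) : ℤ) = p.1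
      · rw [if_neg (c := ((b' : ℕ) : ℤ) = p.2), mul_zero]
        intro h2
        apply hp
        refine Prod.ext ?_ ?_
        · exact_mod_cast h1.symm
        · exact_mod_cast h2.symm
      · rw [if_neg h1, zero_mul]
    · intro h1
      exfalso
      apply h1
      rw [Finset.HasAntidiagonal.mem_antidiagonal]
      exact_mod_cast h
  · rw [if_neg h]
    refine Finset.sum_eq_zero fun p hp => ?_
    rw [Finset.HasAntidiagonal.mem_antidiagonal] at hp
    by_cases h1 : ((a' : ℕ) : ℤ) = p.1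
    · rw [if_neg (c := ((b' : ℕ) : ℤ) = p.2), mul_zero]
      intro h2
      apply h
      rw [h1, h2]
      exact_mod_cast hp
    · rw [if_neg h1, zero_mul]

/-- Only `|k| ≤ n` can contribute: the box may be enlarged. -/
theorem coeff_ts {w : ℕ} (hw : 0 < w) (c : ℤ → ℤ) {n N : ℕ} (hN : n ≤ N) :
    coeff n (ts w c) = ∑ k ∈ Finset.Icc (-(N : ℤ)) N, if (w : ℤ) * k ^ 2 = n then c k else 0 := by
  rw [ts, coeff_mk]
  refine Finset.sum_subset ?_ ?_
  · intro k hk
    rw [Finset.mem_Icc] at hk ⊢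
    constructor <;> omega
  · intro k _ hk
    rw [if_neg]
    intro h
    apply hk
    have hw' : (1 : ℤ) ≤ w := by exact_mod_cast hw
    have h1 : k ^ 2 ≤ n := by
      rw [← h]
      nlinarith [sq_nonneg k]
    have h2 : |k| ≤ n := by
      have h3 : |k| ≤ k ^ 2 := by
        rw [← sq_abs]
        rcases eq_or_ne k 0 with h4 | h4
        · rw [h4]
          simp
        · have h5 : 1 ≤ |k| := Int.one_le_abs h4
          nlinarith
      exact h3.trans h1
    rw [Finset.mem_Icc]
    exact abs_le.1 h2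

/-- The coefficients of a product. Proof: induction on `r` (`Fin.prod_univ_succ`, `coeff_mul`, sum over the
antidiagonal, `coeff_ts` with the box `Icc (-N) N`, and the bijection of `Fintype.piFinset` over `Fin (r+1)` with
pairs, `Fin.consEquiv` or `Fintype.sum`-style lemmas). -/
theorem ts_prod {r : ℕ} (w : Fin r → ℕ) (hw : ∀ i, 0 < w i) (c : Fin r → ℤ → ℤ) {n N : ℕ} (hN : n ≤ N) :
    coeff n (∏ i, ts (w i) (c i)) =
      ∑ v ∈ Fintype.piFinset (fun _ : Fin r => Finset.Icc (-(N : ℤ)) N),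
        if ∑ i, (w i : ℤ) * v i ^ 2 = n then ∏ i, c i (v i) else 0 := by
  induction r generalizing n with
  | zero =>
    rw [Finset.univ_eq_empty, Finset.prod_empty, coeff_one]
    have h1 : Fintype.piFinset (fun _ : Fin 0 => Finset.Icc (-(N : ℤ)) N) = {fun i => i.elim0} := by
      ext v
      simp [eq_iff_true_of_subsingleton]
    rw [h1, Finset.sum_singleton]
    by_cases hn : n = 0
    · subst hn
      simp
    · rw [if_neg hn, if_neg]
      rw [Finset.sum_empty]
      exact fun h => hn (by exact_mod_cast h.symm)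
  | succ r ih =>
    rw [Fin.prod_univ_succ, coeff_mul, f1_pi]
    have h1 : ∀ p ∈ Finset.HasAntidiagonal.antidiagonal n,
        coeff p.1 (ts (w 0) (c 0)) * coeff p.2 (∏ i : Fin r, ts (w i.succ) (c i.succ)) =
        ∑ k ∈ Finset.Icc (-(N : ℤ)) N, ∑ v ∈ Fintype.piFinset (fun _ : Fin r => Finset.Icc (-(N : ℤ)) N),
          (if (w 0 : ℤ) * k ^ 2 = p.1 then c 0 k else 0) *
            (if ∑ i, (w (Fin.succ i) : ℤ) * v i ^ 2 = p.2 then ∏ i, c (Fin.succ i) (v i) else 0) := by
      intro p hp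
      rw [Finset.HasAntidiagonal.mem_antidiagonal] at hp
      rw [coeff_ts (hw 0) (c 0) (n := p.1) (N := N) (by omega),
        ih (fun i => w i.succ) (fun i => hw i.succ) (fun i => c i.succ) (n := p.2) (by omega),
        Finset.sum_mul_sum]
    rw [Finset.sum_congr rfl h1, Finset.sum_comm]
    refine Finset.sum_congr rfl fun k _ => ?_
    rw [Finset.sum_comm]
    refine Finset.sum_congr rfl fun v _ => ?_
    rw [f1_anti _ _ (by positivity) (Finset.sum_nonneg fun i _ => by positivity)]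
    rw [Fin.sum_univ_succ, Fin.prod_univ_succ]
    simp only [Fin.cons_zero, Fin.cons_succ]

theorem ts_pow (r w : ℕ) (hw : 0 < w) (c : ℤ → ℤ) {n N : ℕ} (hN : n ≤ N) :
    coeff n (ts w c ^ r) =
      ∑ v ∈ Fintype.piFinset (fun _ : Fin r => Finset.Icc (-(N : ℤ)) N),
        if (w : ℤ) * ∑ i, v i ^ 2 = n then ∏ i, c (v i) else 0 := by
  have h1 := ts_prod (fun _ : Fin r => w) (fun _ => hw) (fun _ => c) hN
  rw [Finset.prod_const, Finset.card_univ, Fintype.card_fin] at h1
  rw [h1]
  refine Finset.sum_congr rfl fun v _ => ?_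
  rw [Finset.mul_sum]

end E8X
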