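import Pool.Agent.N19.L4
import Pool.Agent.MP_130199_nt.Shell

/-!
# [E8X] shells of the `E8` lattice and the function `τ`: definitions
-/

set_option autoImplicit false

open PowerSeries
open N19 (ex psi phs)

namespace E8X

/-- `F = X ψ(X²)⁴ = ∑_{a,b,c,d odd > 0} X^{(a²+b²+c²+d²)/4}` -/
noncomputable def F : PowerSeries ℤ := X * ex 2 psi ^ 4

/-- `Δ = F φ⁴ (φ⁴ - 16 F)⁴` -/
noncomputable def Dl : PowerSeries ℤ := F * phs ^ 4 * (phs ^ 4 - 16 * F) ^ 4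

/-- Ramanujan's function: the coefficients of `Δ = X ∏ (1 - X^n)^24`. -/
noncomputable def tau (n : ℕ) : ℤ := coeff n Dl

/-- `∑_{n ≥ 1} σ_k(n) X^n` -/
noncomputable def Sg (k : ℕ) : PowerSeries ℤ := mk fun n => (ArithmeticFunction.sigma k n : ℤ)

/-- `χ₋₄(k) k` for odd `k > 0`, and `0` otherwise -/
def ck (k : ℤ) : ℤ := if 0 < k ∧ k % 2 = 1 then (if k % 4 = 1 then k else -k) else 0

/-- `∑_{k ∈ ℤ} c(k) X^{w k²}` (for `w ≥ 1`) -/
noncomputable def ts (w : ℕ) (c : ℤ → ℤ) : PowerSeries ℤ :=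
  mk fun n => ∑ k ∈ Finset.Icc (-(n : ℤ)) n, if (w : ℤ) * k ^ 2 = n then c k else 0

/-- `J = ∑_{k odd > 0} χ₋₄(k) k X^{k²}` -/
noncomputable def J : PowerSeries ℤ := ts 1 ck

/-- indicator function of the odd positive integers -/
def od (k : ℤ) : ℤ := if 0 < k ∧ k % 2 = 1 then 1 else 0

/-- `C = ψ(X⁸)` -/
noncomputable def Cc : PowerSeries ℤ := ex 8 psi

/-- `A = φ(X¹⁶)` -/
noncomputable def Aa : PowerSeries ℤ := ex 16 phs

/-- `B = X⁴ ψ(X³²)` -/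
noncomputable def Bb : PowerSeries ℤ := X ^ 4 * ex 32 psi

/-- The coefficients of `f` vanish outside the residue class `r` modulo `8`. -/
def Cls (r : ℕ) (f : PowerSeries ℤ) : Prop := ∀ n, n % 8 ≠ r % 8 → coeff n f = 0

end E8X
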