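import Pool.Agent.E8X.F3

/-!
# [E8X-F5] the parts with odd exponents, and `τ(n) ≡ σ₁₁(n) mod 256` for odd `n`
-/

set_option autoImplicit false

open PowerSeries
open N19 (ex psi phs)

namespace E8X

/-- the even part of `φ⁴` -/
noncomputable def Yy : PowerSeries ℤ :=
  ex 4 phs ^ 4 + 24 * ex 4 phs ^ 2 * (X * Cc) ^ 2 + 16 * (X * Cc) ^ 4

theorem f5_phs4 : phs ^ 4 = Yy + 8 * F := by
  have h : phs ^ 4 = (ex 4 phs + 2 * X * Cc) ^ 4 := by rw [← r0]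
  rw [h, F_eq, Yy]
  ring

theorem f5_E : F3Cl 2 0 (ex 4 phs) := f3_ex (M := 2) (k := 4) (by norm_num) phs

theorem f5_u : F3Cl 2 1 (X * Cc) := by
  have h := (f3_X 2 1).mul (f3_ex (M := 2) (k := 8) (by norm_num) psi)
  rw [pow_one] at h
  exact h

theorem f5_mul0 {f g : PowerSeries ℤ} (hf : F3Cl 2 0 f) (hg : F3Cl 2 0 g) : F3Cl 2 0 (f * g) :=
  F3Cl.mul (M := 2) hf hg

theorem f5_pow0 {f : PowerSeries ℤ} (hf : F3Cl 2 0 f) (k : ℕ) : F3Cl 2 0 (f ^ k) := by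
  have h := hf.pow k
  rwa [Nat.zero_mul] at h

theorem f5_u2 : F3Cl 2 0 ((X * Cc) ^ 2) := (f5_u.pow 2).congr (by norm_num)

theorem f5_Y : F3Cl 2 0 Yy := by
  have h4 : (X * Cc : PowerSeries ℤ) ^ 4 = ((X * Cc) ^ 2) ^ 2 := by ring
  rw [Yy, h4]
  exact ((f5_pow0 f5_E 4).add (f5_mul0 (f5_mul0 (F3Cl.ofNat 2 24) (f5_pow0 f5_E 2)) f5_u2)).add
    (f5_mul0 (F3Cl.ofNat 2 16) (f5_pow0 f5_u2 2))

theorem f5_F : F3Cl 2 1 F := by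
  rw [F_eq]
  have h := ((f5_u.mul f5_E).mul ((f5_pow0 f5_E 2).add (f5_mul0 (F3Cl.ofNat 2 4) f5_u2)))
  exact h

theorem f5_F2 : F3Cl 2 0 (F ^ 2) := (f5_F.pow 2).congr (by norm_num)

theorem f5_zero {f : PowerSeries ℤ} (hf : F3Cl 2 0 f) {n : ℕ} (hn : n % 2 = 1) : coeff n f = 0 :=
  hf n (by omega)

theorem f5_neg {f : PowerSeries ℤ} {M r : ℕ} (hf : F3Cl M r f) : F3Cl M r (-f) := by
  intro n hn
  rw [map_neg, hf n hn, neg_zero]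

/-- comparison of the odd parts -/
theorem f5_odd {a : ℤ} (ha : a ≠ 0) {f g G : PowerSeries ℤ} (h : a • f = G + a • g) (hG : F3Cl 2 0 G)
    {n : ℕ} (hn : n % 2 = 1) : coeff n f = coeff n g := by
  have h1 := congrArg (coeff n) h
  rw [map_add, map_zsmul, map_zsmul, f5_zero hG hn, zero_add, smul_eq_mul, smul_eq_mul] at h1
  exact mul_left_cancel₀ ha h1

theorem f5_Q : 1 + 240 * Sg 3 = Yy ^ 2 + 240 * (Yy * F) + 2112 * F ^ 2 := by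
  rw [E4_eq]
  have h : phs ^ 8 = (phs ^ 4) ^ 2 := by ring
  rw [h, f5_phs4]
  ring

theorem f5_D : Dl = F * (Yy + 8 * F) * (Yy - 8 * F) ^ 4 := by
  rw [Dl, f5_phs4]
  ring

theorem odd_S3 {n : ℕ} (hn : n % 2 = 1) : (ArithmeticFunction.sigma 3 n : ℤ) = coeff n (Yy * F) := by
  have h : (240 : ℤ) • Sg 3 = (Yy ^ 2 + (2112 * F ^ 2 + -1)) + (240 : ℤ) • (Yy * F) := by
    have h1 := f5_Q
    simp only [zsmul_eq_mul]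
    push_cast
    linear_combination h1
  have hG : F3Cl 2 0 (Yy ^ 2 + (2112 * F ^ 2 + -1)) :=
    (f5_pow0 f5_Y 2).add ((f5_mul0 (F3Cl.ofNat 2 2112) f5_F2).add (f5_neg (F3Cl.one 2)))
  have h2 := f5_odd (by norm_num) h hG hn
  rw [← h2, Sg, coeff_mk]

theorem odd_Dl {n : ℕ} (hn : n % 2 = 1) :
    tau n = coeff n (Yy * F * (Yy ^ 4 + 128 * Yy ^ 2 * F ^ 2 - 12288 * F ^ 4)) := by
  have h : (1 : ℤ) • Dl = -(24 * (Yy ^ 4 * F ^ 2)) + (1024 * (Yy ^ 2 * (F ^ 2) ^ 2) + 32768 * (F ^ 2) ^ 3) +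
      (1 : ℤ) • (Yy * F * (Yy ^ 4 + 128 * Yy ^ 2 * F ^ 2 - 12288 * F ^ 4)) := by
    rw [f5_D, one_zsmul, one_zsmul]
    ring
  have hG : F3Cl 2 0 (-(24 * (Yy ^ 4 * F ^ 2)) + (1024 * (Yy ^ 2 * (F ^ 2) ^ 2) + 32768 * (F ^ 2) ^ 3)) :=
    (f5_neg (f5_mul0 (F3Cl.ofNat 2 24) (f5_mul0 (f5_pow0 f5_Y 4) f5_F2))).add
      ((f5_mul0 (F3Cl.ofNat 2 1024) (f5_mul0 (f5_pow0 f5_Y 2) (f5_pow0 f5_F2 2))).add
        (f5_mul0 (F3Cl.ofNat 2 32768) (f5_pow0 f5_F2 3)))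
  exact f5_odd (by norm_num) h hG hn

theorem odd_S11 {n : ℕ} (hn : n % 2 = 1) : (ArithmeticFunction.sigma 11 n : ℤ) =
    coeff n (Yy * F * (Yy ^ 4 + 177024 * Yy ^ 2 * F ^ 2 + 33951744 * F ^ 4)) := by
  have h : (65520 : ℤ) • Sg 11 = (691 * (Yy ^ 2 + 2112 * F ^ 2) ^ 3 +
      119404800 * ((Yy ^ 2 + 2112 * F ^ 2) * (Yy ^ 2 * F ^ 2)) +
      (10368000 * (Yy ^ 4 * F ^ 2) + -(442368000 * (Yy ^ 2 * (F ^ 2) ^ 2)) + -(14155776000 * (F ^ 2) ^ 3)) +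
      -691) +
      (65520 : ℤ) • (Yy * F * (Yy ^ 4 + 177024 * Yy ^ 2 * F ^ 2 + 33951744 * F ^ 4)) := by
    have h1 := S11_eq
    rw [f5_Q, f5_D] at h1
    simp only [zsmul_eq_mul]
    push_cast
    linear_combination h1
  have hY2 := f5_pow0 f5_Y 2
  have hK := hY2.add (f5_mul0 (F3Cl.ofNat 2 2112) f5_F2)
  have hG : F3Cl 2 0 (691 * (Yy ^ 2 + 2112 * F ^ 2) ^ 3 +
      119404800 * ((Yy ^ 2 + 2112 * F ^ 2) * (Yy ^ 2 * F ^ 2)) +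
      (10368000 * (Yy ^ 4 * F ^ 2) + -(442368000 * (Yy ^ 2 * (F ^ 2) ^ 2)) + -(14155776000 * (F ^ 2) ^ 3)) +
      -691) :=
    (((f5_mul0 (F3Cl.ofNat 2 691) (f5_pow0 hK 3)).add
      (f5_mul0 (F3Cl.ofNat 2 119404800) (f5_mul0 hK (f5_mul0 hY2 f5_F2)))).add
      (((f5_mul0 (F3Cl.ofNat 2 10368000) (f5_mul0 (f5_pow0 f5_Y 4) f5_F2)).add
        (f5_neg (f5_mul0 (F3Cl.ofNat 2 442368000) (f5_mul0 hY2 (f5_pow0 f5_F2 2))))).add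
        (f5_neg (f5_mul0 (F3Cl.ofNat 2 14155776000) (f5_pow0 f5_F2 3))))).add
      (f5_neg (F3Cl.ofNat 2 691))
  have h2 := f5_odd (by norm_num) h hG hn
  rw [← h2, Sg, coeff_mk]

/-- `τ(n) ≡ σ₁₁(n) mod 256` for odd `n` -/
theorem tau_mod {n : ℕ} (hn : n % 2 = 1) : (256 : ℤ) ∣ tau n - (ArithmeticFunction.sigma 11 n : ℤ) := by
  rw [odd_Dl hn, odd_S11 hn, ← map_sub]
  have e : Yy * F * (Yy ^ 4 + 128 * Yy ^ 2 * F ^ 2 - 12288 * F ^ 4) -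
      Yy * F * (Yy ^ 4 + 177024 * Yy ^ 2 * F ^ 2 + 33951744 * F ^ 4) =
      (256 : ℤ) • (-691 * (Yy * F ^ 3 * (Yy ^ 2 + 192 * F ^ 2))) := by
    simp only [zsmul_eq_mul]
    push_cast
    ring
  rw [e, map_zsmul, smul_eq_mul]
  exact Dvd.intro _ rfl

end E8X
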