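import Pool.Agent.E8X.F2
import Pool.Agent.E8X.M1

/-!
# [E8X-F6] the number of vectors of the shells of `E8`
-/

set_option autoImplicit false

open PowerSeries
open N19 (ex psi phs)
open Pool.Agent.MP130199 (shell IsDesign)

namespace E8X

/-- Even vectors `v = 2w`: `∑ w_i² = 2m` (then `∑ w_i` is even automatically). `ts_pow` with `w = 1`. -/
theorem card_even (m : ℕ) : (((shell m).filter (fun v => v 0 % 2 = 0)).card : ℤ) =
    coeff (2 * m) (phs ^ 8) := by
  rw [phs_ts, ts_pow 8 1 one_pos (fun _ => 1) (n := 2 * m) (N := 4 * m) (by omega)]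
  simp only [Finset.prod_const_one]
  rw [Finset.sum_boole]
  refine congrArg (Nat.cast : ℕ → ℤ) ?_
  refine Finset.card_nbij' (fun v i => v i / 2) (fun w i => 2 * w i) ?_ ?_ ?_ ?_
  · intro v hv
    simp only [shell, Finset.coe_filter, Finset.mem_filter, Fintype.mem_piFinset, Finset.mem_Icc,
      Set.mem_ofPred_eq] at hv ⊢
    obtain ⟨⟨hb, hp, h4, h8⟩, h0⟩ := hv
    have hev : ∀ i, 2 * (v i / 2) = v i := by
      intro i
      have := hp i 0
      omega
    refine ⟨fun i => ?_, ?_⟩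
    · have h1 := hb i
      have h2 := hev i
      push_cast
      constructor <;> omega
    · have h3 : ∑ i, v i ^ 2 = 4 * ∑ i, (v i / 2) ^ 2 := by
        rw [Finset.mul_sum]
        refine Finset.sum_congr rfl fun i _ => ?_
        conv_lhs => rw [← hev i]
        ring
      rw [h3] at h8
      push_cast
      linarith
  · intro w hw
    simp only [shell, Finset.coe_filter, Finset.mem_filter, Fintype.mem_piFinset, Finset.mem_Icc,
      Set.mem_ofPred_eq] at hw ⊢
    obtain ⟨hb, h8⟩ := hw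
    push_cast at h8
    have h8' : ∑ i, w i ^ 2 = 2 * (m : ℤ) := by linarith
    refine ⟨⟨fun i => ?_, fun i j => ?_, ?_, ?_⟩, ?_⟩
    · have h1 := hb i
      push_cast at h1
      constructor <;> omega
    · omega
    · rw [← Finset.mul_sum]
      have h5 : (2 : ℤ) ∣ ∑ i, w i - ∑ i, w i ^ 2 := by
        rw [← Finset.sum_sub_distrib]
        refine Finset.dvd_sum fun i _ => ?_
        have h6 : w i - w i ^ 2 = -(w i * (w i - 1)) := by ring
        rw [h6]
        exact (Int.even_mul_pred_self (w i)).two_dvd.neg_right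
      rw [h8'] at h5
      omega
    · have h3 : ∑ i, (2 * w i) ^ 2 = 4 * ∑ i, (w i) ^ 2 := by
        rw [Finset.mul_sum]
        refine Finset.sum_congr rfl fun i _ => ?_
        ring
      rw [h3, h8']
      ring
    · omega
  · intro v hv
    simp only [shell, Finset.coe_filter, Finset.mem_filter, Set.mem_ofPred_eq] at hv
    obtain ⟨⟨-, hp, -, -⟩, h0⟩ := hv
    funext i
    have := hp i 0
    show 2 * (v i / 2) = v i
    omega
  · intro w _
    funext i
    show 2 * w i / 2 = w i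
    omega

/-- the vectors with odd coordinates and `∑ v_i² = 8m` -/
noncomputable def E8XF6b_O (m : ℕ) : Finset (Fin 8 → ℤ) :=
  (Fintype.piFinset (fun _ : Fin 8 => Finset.Icc (-(8 * (m : ℤ))) (8 * (m : ℤ)))).filter
    (fun v => (∀ i, v i % 2 = 1) ∧ ∑ i, v i ^ 2 = 8 * (m : ℤ))

/-- the vectors with positive odd coordinates and `∑ v_i² = 8m` -/
noncomputable def E8XF6b_P (m : ℕ) : Finset (Fin 8 → ℤ) :=
  (Fintype.piFinset (fun _ : Fin 8 => Finset.Icc (-(8 * (m : ℤ))) (8 * (m : ℤ)))).filter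
    (fun v => (∀ i, 0 < v i ∧ v i % 2 = 1) ∧ ∑ i, v i ^ 2 = 8 * (m : ℤ))

theorem E8XF6b_coeff (m : ℕ) : coeff (8 * m) ((X * Cc) ^ 8) = ((E8XF6b_P m).card : ℤ) := by
  rw [X_Cc, ts_pow 8 1 one_pos od (le_refl (8 * m))]
  unfold E8XF6b_P
  rw [Finset.card_filter]
  push_cast
  refine Finset.sum_congr rfl fun v _ => ?_
  unfold od
  rw [Finset.prod_ite_zero]
  simp only [Finset.mem_univ, true_imp_iff, Finset.prod_const_one, one_mul]
  split_ifs <;> tauto

/-- the sign change of the coordinate `0` -/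
def E8XF6b_sg (v : Fin 8 → ℤ) : Fin 8 → ℤ := fun i => if i = 0 then - v i else v i

theorem E8XF6b_sg_sg (v : Fin 8 → ℤ) : E8XF6b_sg (E8XF6b_sg v) = v := by
  funext i
  unfold E8XF6b_sg
  split_ifs with h
  · exact neg_neg _
  · rfl

theorem E8XF6b_sg_sum (v : Fin 8 → ℤ) : ∑ i, E8XF6b_sg v i = ∑ i, v i - 2 * v 0 := by
  rw [Fin.sum_univ_succ, Fin.sum_univ_succ (f := v)]
  have h1 : E8XF6b_sg v 0 = - v 0 := rfl
  have h2 : ∀ i : Fin 7, E8XF6b_sg v i.succ = v i.succ := fun i => if_neg (Fin.succ_ne_zero i)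
  rw [h1, Finset.sum_congr rfl (fun i _ => h2 i)]
  ring

theorem E8XF6b_sg_sq (v : Fin 8 → ℤ) : ∑ i, E8XF6b_sg v i ^ 2 = ∑ i, v i ^ 2 := by
  refine Finset.sum_congr rfl fun i _ => ?_
  unfold E8XF6b_sg
  split_ifs
  · exact neg_sq _
  · rfl

theorem E8XF6b_sg_O {m : ℕ} {v : Fin 8 → ℤ} (h : v ∈ E8XF6b_O m) : E8XF6b_sg v ∈ E8XF6b_O m := by
  unfold E8XF6b_O at h ⊢
  rw [Finset.mem_filter, Fintype.mem_piFinset] at h ⊢
  refine ⟨fun i => ?_, fun i => ?_, (E8XF6b_sg_sq v).trans h.2.2⟩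
  · have h1 := Finset.mem_Icc.1 (h.1 i)
    rw [Finset.mem_Icc]
    unfold E8XF6b_sg
    split_ifs <;> constructor <;> omega
  · have h1 := h.2.1 i
    unfold E8XF6b_sg
    split_ifs <;> omega

theorem E8XF6b_sum_even {m : ℕ} {v : Fin 8 → ℤ} (h : v ∈ E8XF6b_O m) :
    (∑ i, v i) % 2 = 0 ∧ v 0 % 2 = 1 := by
  unfold E8XF6b_O at h
  rw [Finset.mem_filter] at h
  have h1 := h.2.1
  rw [Fin.sum_univ_eight]
  have e0 := h1 0
  have e1 := h1 1
  have e2 := h1 2
  have e3 := h1 3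
  have e4 := h1 4
  have e5 := h1 5
  have e6 := h1 6
  have e7 := h1 7
  exact ⟨by omega, e0⟩

theorem E8XF6b_sg_mod {m : ℕ} {v : Fin 8 → ℤ} (h : v ∈ E8XF6b_O m) :
    (∑ i, E8XF6b_sg v i) % 4 = 0 ↔ ¬ (∑ i, v i) % 4 = 0 := by
  have h1 := E8XF6b_sum_even h
  rw [E8XF6b_sg_sum]
  omega

theorem E8XF6b_half (m : ℕ) :
    (E8XF6b_O m).card = 2 * ((E8XF6b_O m).filter (fun v => (∑ i, v i) % 4 = 0)).card := by
  have h1 := Finset.card_filter_add_card_filter_not (s := E8XF6b_O m) (fun v => (∑ i, v i) % 4 = 0)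
  have h2 : ((E8XF6b_O m).filter (fun v => (∑ i, v i) % 4 = 0)).card =
      ((E8XF6b_O m).filter (fun v => ¬ (∑ i, v i) % 4 = 0)).card := by
    refine Finset.card_nbij' E8XF6b_sg E8XF6b_sg (fun v hv => ?_) (fun v hv => ?_)
      (fun v _ => E8XF6b_sg_sg v) (fun v _ => E8XF6b_sg_sg v)
    · rw [Finset.mem_coe, Finset.mem_filter] at hv ⊢
      refine ⟨E8XF6b_sg_O hv.1, fun h => ?_⟩
      exact (E8XF6b_sg_mod hv.1).1 h hv.2
    · rw [Finset.mem_coe, Finset.mem_filter] at hv ⊢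
      exact ⟨E8XF6b_sg_O hv.1, (E8XF6b_sg_mod hv.1).2 hv.2⟩
  omega

theorem E8XF6b_shell (m : ℕ) : (shell m).filter (fun v => v 0 % 2 = 1) =
    (E8XF6b_O m).filter (fun v => (∑ i, v i) % 4 = 0) := by
  unfold shell E8XF6b_O
  ext v
  rw [Finset.mem_filter, Finset.mem_filter, Finset.mem_filter, Finset.mem_filter]
  constructor
  · rintro ⟨⟨h1, h2, h3, h4⟩, h5⟩
    exact ⟨⟨h1, fun i => (h2 i 0).trans h5, h4⟩, h3⟩
  · rintro ⟨⟨h1, h2, h4⟩, h3⟩
    exact ⟨⟨h1, fun i j => (h2 i).trans (h2 j).symm, h3, h4⟩, h2 0⟩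

theorem E8XF6b_OP (m : ℕ) : (E8XF6b_O m).card = 256 * (E8XF6b_P m).card := by
  have h1 : (E8XF6b_O m).card = (E8XF6b_P m ×ˢ (Finset.univ : Finset (Fin 8 → Bool))).card := by
    refine Finset.card_nbij' (fun v => (fun i => |v i|, fun i => decide (0 < v i)))
      (fun p => fun i => if p.2 i = true then p.1 i else - p.1 i) (fun v hv => ?_) (fun p hp => ?_)
      (fun v hv => ?_) (fun p hp => ?_)
    · rw [Finset.mem_coe, Finset.mem_product]
      refine ⟨?_, Finset.mem_univ _⟩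
      rw [Finset.mem_coe] at hv
      unfold E8XF6b_O at hv
      unfold E8XF6b_P
      rw [Finset.mem_filter, Fintype.mem_piFinset] at hv ⊢
      refine ⟨fun i => ?_, fun i => ?_, ?_⟩
      · have h1 := Finset.mem_Icc.1 (hv.1 i)
        rw [Finset.mem_Icc]
        show -(8 * (m : ℤ)) ≤ |v i| ∧ |v i| ≤ 8 * (m : ℤ)
        rcases abs_cases (v i) with h | h <;> constructor <;> omega
      · have h1 := hv.2.1 i
        show 0 < |v i| ∧ |v i| % 2 = 1
        rcases abs_cases (v i) with h | h <;> constructor <;> omega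
      · rw [← hv.2.2]
        exact Finset.sum_congr rfl fun i _ => sq_abs _
    · rw [Finset.mem_coe, Finset.mem_product] at hp
      rw [Finset.mem_coe]
      have hp1 := hp.1
      unfold E8XF6b_P at hp1
      unfold E8XF6b_O
      rw [Finset.mem_filter, Fintype.mem_piFinset] at hp1 ⊢
      refine ⟨fun i => ?_, fun i => ?_, ?_⟩
      · have h1 := Finset.mem_Icc.1 (hp1.1 i)
        rw [Finset.mem_Icc]
        dsimp only
        split_ifs <;> constructor <;> omega
      · have h1 := (hp1.2.1 i).2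
        dsimp only
        split_ifs <;> omega
      · rw [← hp1.2.2]
        refine Finset.sum_congr rfl fun i _ => ?_
        dsimp only
        split_ifs
        · rfl
        · exact neg_sq _
    · rw [Finset.mem_coe] at hv
      unfold E8XF6b_O at hv
      rw [Finset.mem_filter] at hv
      funext i
      have h1 := hv.2.1 i
      show (if decide (0 < v i) = true then |v i| else - |v i|) = v i
      by_cases h : 0 < v i
      · rw [if_pos (decide_eq_true h), abs_of_pos h]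
      · rw [if_neg (by rw [decide_eq_true_eq]; exact h), abs_of_nonpos (not_lt.1 h), neg_neg]
    · rw [Finset.mem_coe, Finset.mem_product] at hp
      have hp1 := hp.1
      unfold E8XF6b_P at hp1
      rw [Finset.mem_filter] at hp1
      refine Prod.ext (funext fun i => ?_) (funext fun i => ?_)
      · have h1 := (hp1.2.1 i).1
        show |(if p.2 i = true then p.1 i else - p.1 i)| = p.1 i
        split_ifs
        · exact abs_of_pos h1
        · rw [abs_neg]
          exact abs_of_pos h1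
      · have h1 := (hp1.2.1 i).1
        show decide (0 < (if p.2 i = true then p.1 i else - p.1 i)) = p.2 i
        cases h2 : p.2 i
        · rw [if_neg (by simp)]
          exact decide_eq_false (by omega)
        · rw [if_pos rfl]
          exact decide_eq_true h1
  have h2 : (Finset.univ : Finset (Fin 8 → Bool)).card = 256 := by
    rw [Finset.card_univ, Fintype.card_fun, Fintype.card_bool, Fintype.card_fin]
    norm_num
  rw [h1, Finset.card_product, h2, mul_comm]

/-- Odd vectors: the sign change `v 0 ↦ -v 0` exchanges `∑ v ≡ 0` and `∑ v ≡ 2 mod 4`, so they are half of all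
odd `v` with `∑ v_i² = 8m`, which number `2^8 · coeff (8 m) ((X Cc)^8)` (`X Cc = ts 1 od`). -/
theorem card_odd (m : ℕ) : (((shell m).filter (fun v => v 0 % 2 = 1)).card : ℤ) =
    128 * coeff (8 * m) ((X * Cc) ^ 8) := by
  have h1 := E8XF6b_coeff m
  have h2 := E8XF6b_OP m
  have h3 := E8XF6b_half m
  have h4 := E8XF6b_shell m
  rw [h1, h4]
  have h5 : ((E8XF6b_O m).filter (fun v => (∑ i, v i) % 4 = 0)).card = 128 * (E8XF6b_P m).card := by
    omega
  rw [h5]
  push_cast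
  ring

theorem F6c_coeff_ex {k : ℕ} (hk : 0 < k) (f : PowerSeries ℤ) (m : ℕ) :
    coeff (k * m) (ex k f) = coeff m f := by
  unfold ex
  rw [coeff_mk, if_pos (Dvd.intro _ rfl), Nat.mul_div_cancel_left m hk]

theorem F6c_coeff_X_ex (f : PowerSeries ℤ) (m : ℕ) : coeff (2 * m) (X * ex 2 f) = 0 := by
  rcases Nat.eq_zero_or_pos m with rfl | hm
  · rw [Nat.mul_zero, coeff_zero_X_mul]
  · obtain ⟨j, hj⟩ : ∃ j, 2 * m = j + 1 := ⟨2 * m - 1, by omega⟩
    rw [hj, coeff_succ_X_mul]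
    unfold ex
    rw [coeff_mk, if_neg (by omega)]

/-- the even vectors -/
theorem F6c_even (m : ℕ) : coeff (2 * m) (phs ^ 8) =
    coeff m (phs ^ 8 + 96 * (phs ^ 4 * F) + 256 * F ^ 2) := by
  have e4 : ex 4 psi = ex 2 (ex 2 psi) := by rw [ex_ex (by norm_num) (by norm_num)]
  have h : phs ^ 8 = ex 2 (phs ^ 8 + C (96 : ℤ) * (phs ^ 4 * F) + C (256 : ℤ) * F ^ 2) +
      X * ex 2 (C (16 : ℤ) * (phs ^ 6 * ex 2 psi ^ 2) + C (256 : ℤ) * (X * phs ^ 2 * ex 2 psi ^ 6)) := by
    have h2 : (0 : ℕ) < 2 := by norm_num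
    have e1 : phs ^ 8 = (ex 2 phs ^ 2 + 4 * X * ex 2 (ex 2 psi) ^ 2) ^ 4 := by
      rw [← e4, ← r2]
      ring
    have h16 : (C (16 : ℤ) : PowerSeries ℤ) = 16 := by rfl
    have h96 : (C (96 : ℤ) : PowerSeries ℤ) = 96 := by rfl
    have h256 : (C (256 : ℤ) : PowerSeries ℤ) = 256 := by rfl
    unfold F
    simp only [ex_add, ex_mul h2, ex_pow h2, ex_X h2, ex_ofNat h2]
    rw [h16, h96, h256, e1]
    ring
  have h96 : (C (96 : ℤ) : PowerSeries ℤ) = 96 := by rfl
  have h256 : (C (256 : ℤ) : PowerSeries ℤ) = 256 := by rfl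
  conv_lhs => rw [h]
  rw [map_add, F6c_coeff_ex (by norm_num), F6c_coeff_X_ex, add_zero, h96, h256]

/-- the odd vectors -/
theorem F6c_odd (m : ℕ) : coeff (8 * m) ((X * Cc) ^ 8) = coeff m (phs ^ 4 * F) := by
  have h8 : (0 : ℕ) < 8 := by norm_num
  have h : (X * Cc) ^ 8 = ex 8 (X * psi ^ 8) := by
    rw [ex_mul h8, ex_X h8, ex_pow h8, mul_pow]
    rfl
  have h2 : X * psi ^ 8 = phs ^ 4 * F := by
    have e : psi ^ 8 = (psi ^ 2) ^ 4 := by ring
    rw [e, r1]
    unfold F
    ring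
  rw [h, F6c_coeff_ex h8, h2]

/-- `coeff (2m) (φ^8)`, with `φ² = φ(X²)² + 4Xψ(X⁴)²` (`r2`): `(P + 4XR)^4`, even part
`P⁴ + 96 X²P²R² + 256 X⁴R⁴`, i.e. `ex 2` of `φ^8 + 96 φ⁴ F + 256 F²`. And `X ψ^8 = φ⁴ F` (`r1`). With `E4_eq`. -/
theorem shell_card {m : ℕ} (hm : 0 < m) : (shell m).card = 240 * ArithmeticFunction.sigma 3 m := by
  have h1 : (((shell m).card : ℕ) : ℤ) =
      (((shell m).filter (fun v => v 0 % 2 = 0)).card : ℤ) +
        (((shell m).filter (fun v => v 0 % 2 = 1)).card : ℤ) := by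
    rw [← Finset.card_filter_add_card_filter_not (s := shell m) (fun v => v 0 % 2 = 0)]
    push_cast
    congr 3
    ext v
    rw [Finset.mem_filter, Finset.mem_filter]
    constructor
    · rintro ⟨h, h'⟩
      exact ⟨h, by omega⟩
    · rintro ⟨h, h'⟩
      exact ⟨h, by omega⟩
  rw [card_even, card_odd, F6c_even, F6c_odd] at h1
  have h128 : (C (128 : ℤ) : PowerSeries ℤ) = 128 := by rfl
  have h2 : coeff m (phs ^ 8 + 96 * (phs ^ 4 * F) + 256 * F ^ 2) + 128 * coeff m (phs ^ 4 * F) =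
      coeff m (1 + 240 * Sg 3) := by
    rw [E4_eq, ← coeff_C_mul, ← map_add, h128]
    congr 1
    ring
  have h240 : (C (240 : ℤ) : PowerSeries ℤ) = 240 := by rfl
  rw [h2, map_add, coeff_one, if_neg (by omega), zero_add, ← h240, coeff_C_mul, Sg, coeff_mk] at h1
  exact_mod_cast h1

end E8X
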