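import Pool.Agent.E8X.M4

/-!
# [E8X-G1] Lehmer: a zero of `τ` comes from a prime
-/

set_option autoImplicit false

open PowerSeries
open N19 (ex psi phs)

namespace E8X

/-- the first four coefficients -/
def G1aT (a : PowerSeries ℤ) (x0 x1 x2 x3 : ℤ) : Prop :=
  coeff 0 a = x0 ∧ coeff 1 a = x1 ∧ coeff 2 a = x2 ∧ coeff 3 a = x3

theorem G1aT_mul {a b : PowerSeries ℤ} {x0 x1 x2 x3 y0 y1 y2 y3 : ℤ} (ha : G1aT a x0 x1 x2 x3) (hb : G1aT b y0 y1 y2 y3) :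
    G1aT (a * b) (x0 * y0) (x0 * y1 + x1 * y0) (x0 * y2 + x1 * y1 + x2 * y0)
      (x0 * y3 + x1 * y2 + x2 * y1 + x3 * y0) := by
  obtain ⟨rfl, rfl, rfl, rfl⟩ := ha
  obtain ⟨rfl, rfl, rfl, rfl⟩ := hb
  refine ⟨?_, ?_, ?_, ?_⟩ <;> rw [coeff_mul, Finset.Nat.sum_antidiagonal_eq_sum_range_succ_mk] <;>
    simp only [Finset.sum_range_succ, Finset.sum_range_zero, zero_add, Nat.sub_zero, Nat.sub_self, Nat.reduceSub,
      Nat.reduceAdd, Nat.add_one_sub_one, Nat.succ_eq_add_one]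

theorem G1aT_sub {a b : PowerSeries ℤ} {x0 x1 x2 x3 y0 y1 y2 y3 : ℤ} (ha : G1aT a x0 x1 x2 x3) (hb : G1aT b y0 y1 y2 y3) :
    G1aT (a - b) (x0 - y0) (x1 - y1) (x2 - y2) (x3 - y3) := by
  obtain ⟨rfl, rfl, rfl, rfl⟩ := ha
  obtain ⟨rfl, rfl, rfl, rfl⟩ := hb
  refine ⟨?_, ?_, ?_, ?_⟩ <;> rw [map_sub]

theorem G1aT_pow {a : PowerSeries ℤ} {x0 x1 x2 x3 : ℤ} (ha : G1aT a x0 x1 x2 x3) {y0 y1 y2 y3 : ℤ}
    (h0 : y0 = x0 * x0) (h1 : y1 = x0 * x1 + x1 * x0) (h2 : y2 = x0 * x2 + x1 * x1 + x2 * x0)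
    (h3 : y3 = x0 * x3 + x1 * x2 + x2 * x1 + x3 * x0) :
    G1aT (a ^ 4) (y0 * y0) (y0 * y1 + y1 * y0) (y0 * y2 + y1 * y1 + y2 * y0)
      (y0 * y3 + y1 * y2 + y2 * y1 + y3 * y0) := by
  have h := G1aT_mul ha ha
  rw [← h0, ← h1, ← h2, ← h3] at h
  have := G1aT_mul h h
  have e : a * a * (a * a) = a ^ 4 := by ring
  rwa [e] at this

theorem G1aT_X : G1aT (X : PowerSeries ℤ) 0 1 0 0 := by
  refine ⟨?_, ?_, ?_, ?_⟩ <;> rw [coeff_X] <;> norm_num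

theorem G1aT_16 : G1aT (16 : PowerSeries ℤ) 16 0 0 0 := by
  have e : (16 : PowerSeries ℤ) = C (16 : ℤ) := by simp
  rw [e]
  refine ⟨?_, ?_, ?_, ?_⟩ <;> rw [coeff_C] <;> norm_num

theorem G1aT_phs : G1aT phs 1 2 0 0 := by
  classical
  refine ⟨?_, ?_, ?_, ?_⟩ <;> unfold phs <;> rw [coeff_mk]
  · rw [if_pos rfl]
  · rw [if_neg (by norm_num), if_pos ⟨1, rfl⟩]
  · rw [if_neg (by norm_num), if_neg]
    rintro ⟨k, hk⟩
    have : k < 2 := by nlinarith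
    interval_cases k <;> omega
  · rw [if_neg (by norm_num), if_neg]
    rintro ⟨k, hk⟩
    have : k < 2 := by nlinarith
    interval_cases k <;> omega

theorem G1aT_psi : G1aT (ex 2 psi) 1 0 1 0 := by
  classical
  refine ⟨?_, ?_, ?_, ?_⟩ <;> unfold ex <;> rw [coeff_mk]
  · rw [if_pos (by norm_num)]
    unfold psi
    rw [coeff_mk, if_pos ⟨0, rfl⟩]
  · rw [if_neg (by norm_num)]
  · rw [if_pos (by norm_num)]
    unfold psi
    rw [coeff_mk, if_pos ⟨1, rfl⟩]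
  · rw [if_neg (by norm_num)]

theorem G1aT_Dl : G1aT Dl 0 1 (-24) 252 := by
  have h1 := G1aT_mul G1aT_X (G1aT_pow G1aT_psi rfl rfl rfl rfl)
  have h2 := G1aT_pow G1aT_phs rfl rfl rfl rfl
  have h3 := G1aT_pow (G1aT_sub h2 (G1aT_mul G1aT_16 h1)) rfl rfl rfl rfl
  have h4 := G1aT_mul (G1aT_mul h1 h2) h3
  norm_num at h4
  exact h4

theorem tau_two : tau 2 = -24 := G1aT_Dl.2.2.1

theorem tau_three : tau 3 = 252 := G1aT_Dl.2.2.2

theorem G1b_val {p : ℕ} (hp : p.Prime) {t : ℤ} {m : ℕ} (hm0 : m ≠ 0) (hm : m ≤ 4) (h : t ^ 2 = (m : ℤ) * (p : ℤ) ^ 11) :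
    (m = 2 ∧ p = 2) ∨ (m = 3 ∧ p = 3) := by
  have := Fact.mk hp
  have h1 : t.natAbs ^ 2 = m * p ^ 11 := by
    have h2 := congrArg Int.natAbs h
    rw [Int.natAbs_pow, Int.natAbs_mul, Int.natAbs_pow, Int.natAbs_natCast, Int.natAbs_natCast] at h2
    exact h2
  have ht : t.natAbs ≠ 0 := by
    intro h0
    rw [h0] at h1
    have h3 : 0 < m * p ^ 11 := Nat.mul_pos (Nat.pos_of_ne_zero hm0) (pow_pos hp.pos 11)
    omega
  have h4 := congrArg (padicValNat p) h1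
  rw [padicValNat.pow, padicValNat.mul hm0 (pow_ne_zero _ hp.ne_zero), padicValNat.prime_pow] at h4
  have hodd : padicValNat p m ≠ 0 := by omega
  have hdvd : p ∣ m := by
    by_contra hc
    exact hodd (padicValNat.eq_zero_of_not_dvd hc)
  have hple : p ≤ m := Nat.le_of_dvd (Nat.pos_of_ne_zero hm0) hdvd
  have hp2 := hp.two_le
  have hm1 : 2 ≤ m := le_trans hp2 hple
  interval_cases m
  · left; exact ⟨rfl, by omega⟩
  · right
    refine ⟨rfl, ?_⟩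
    interval_cases p
    · omega
    · rfl
  · exfalso
    have hpp : p ∣ 2 := hp.dvd_of_dvd_pow (n := 2) (by norm_num; exact hdvd)
    have hp22 : p = 2 := by
      have := Nat.le_of_dvd (by norm_num) hpp
      omega
    subst hp22
    have h5 : padicValNat 2 4 = 2 := by
      have : (4 : ℕ) = 2 ^ 2 := by norm_num
      rw [this, padicValNat.prime_pow]
    rw [h5] at h4
    omega

/-- the closed formula for the linear recurrence -/
theorem G1b_closed {α β : ℂ} {t q : ℂ} (h1 : α + β = t) (h2 : α * β = q) {u : ℕ → ℂ} (u0 : u 0 = 1) (u1 : u 1 = t)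
    (hu : ∀ n, u (n + 2) = t * u (n + 1) - q * u n) (n : ℕ) :
    u n * (α - β) = α ^ (n + 1) - β ^ (n + 1) := by
  induction n using Nat.twoStepInduction with
  | zero => rw [u0]; ring
  | one => rw [u1, ← h1]; ring
  | more n ih1 ih2 =>
    rw [hu n]
    have : (t * u (n + 1) - q * u n) * (α - β) = t * (u (n + 1) * (α - β)) - q * (u n * (α - β)) := by ring
    rw [this, ih1, ih2, ← h1, ← h2]
    ring

theorem G1b_root (t q : ℂ) : ∃ α : ℂ, α * (t - α) = q := by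
  obtain ⟨s, hs⟩ := IsAlgClosed.exists_pow_nat_eq (t ^ 2 / 4 - q) (n := 2) (by norm_num)
  refine ⟨t / 2 + s, ?_⟩
  have : (t / 2 + s) * (t - (t / 2 + s)) = t ^ 2 / 4 - s ^ 2 := by ring
  rw [this, hs]
  ring

theorem G1b_main {p : ℕ} (hp : p.Prime) {t : ℤ} (ht : t ≠ 0) {u : ℕ → ℤ} (u0 : u 0 = 1) (u1 : u 1 = t)
    (hu : ∀ n, u (n + 2) = t * u (n + 1) - (p : ℤ) ^ 11 * u n) {k : ℕ} (hk : u k = 0) :
    ∃ m : ℕ, m ≠ 0 ∧ m ≤ 4 ∧ t ^ 2 = (m : ℤ) * (p : ℤ) ^ 11 := by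
  obtain ⟨α, hα⟩ := G1b_root (t : ℂ) ((p : ℂ) ^ 11)
  obtain ⟨β, hβ⟩ : ∃ β : ℂ, β = (t : ℂ) - α := ⟨_, rfl⟩
  rw [← hβ] at hα
  have hs : α + β = t := by rw [hβ]; ring
  have hp0 : (p : ℂ) ≠ 0 := by exact_mod_cast hp.ne_zero
  have hq0 : (p : ℂ) ^ 11 ≠ 0 := pow_ne_zero _ hp0
  have hα0 : α ≠ 0 := by rintro rfl; rw [zero_mul] at hα; exact hq0 hα.symm
  have hβ0 : β ≠ 0 := by rintro h; rw [h, mul_zero] at hα; exact hq0 hα.symm
  have hcl := G1b_closed (t := (t : ℂ)) (q := (p : ℂ) ^ 11) hs hα (u := fun n => (u n : ℂ)) (by simp [u0]) (by simp [u1])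
    (fun n => by simp only [hu n]; push_cast; ring) k
  simp only [hk, Int.cast_zero, zero_mul] at hcl
  have hpow : α ^ (k + 1) = β ^ (k + 1) := (sub_eq_zero.mp hcl.symm)
  -- the root of unity
  obtain ⟨ζ, hζ⟩ : ∃ ζ : ℂ, ζ = α / β := ⟨_, rfl⟩
  have hζ1 : ζ ^ (k + 1) = 1 := by rw [hζ, div_pow, hpow, div_self (pow_ne_zero _ hβ0)]
  have hζ0 : ζ ≠ 0 := by rw [hζ]; exact div_ne_zero hα0 hβ0
  have hζi : ζ⁻¹ ^ (k + 1) = 1 := by rw [inv_pow, hζ1, inv_one]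
  have hint : ∀ z : ℂ, z ^ (k + 1) = 1 → IsIntegral ℤ z := by
    intro z hz
    refine ⟨Polynomial.X ^ (k + 1) - 1, Polynomial.monic_X_pow_sub_C (1 : ℤ) (by omega), ?_⟩
    simp [hz]
  have hs2 : (t : ℂ) ^ 2 = (ζ + ζ⁻¹ + 2) * (p : ℂ) ^ 11 := by
    rw [← hα, ← hs, hζ]
    field_simp
    ring
  have hI : IsIntegral ℤ (ζ + ζ⁻¹ + 2) := by
    refine ((hint ζ hζ1).add (hint _ hζi)).add ?_
    exact_mod_cast (isIntegral_algebraMap (R := ℤ) (A := ℂ) (x := 2))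
  have hrat : ζ + ζ⁻¹ + 2 = (((t : ℚ) ^ 2 / (p : ℚ) ^ 11 : ℚ) : ℂ) := by
    push_cast
    rw [hs2]
    field_simp
  obtain ⟨y, hy⟩ : ∃ y : ℤ, (y : ℚ) = (t : ℚ) ^ 2 / (p : ℚ) ^ 11 := by
    have h1 : IsIntegral ℤ ((algebraMap ℚ ℂ) ((t : ℚ) ^ 2 / (p : ℚ) ^ 11)) := by
      have : (algebraMap ℚ ℂ) ((t : ℚ) ^ 2 / (p : ℚ) ^ 11) = ζ + ζ⁻¹ + 2 := by rw [hrat]; simp
      rw [this]; exact hI
    have h2 : IsIntegral ℤ ((t : ℚ) ^ 2 / (p : ℚ) ^ 11) :=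
      (isIntegral_algebraMap_iff (algebraMap ℚ ℂ).injective).mp h1
    obtain ⟨y, hy⟩ := IsIntegrallyClosed.isIntegral_iff.mp h2
    exact ⟨y, by simpa using hy⟩
  have hpq : (0 : ℚ) < (p : ℚ) ^ 11 := by
    have : (0 : ℚ) < p := by exact_mod_cast hp.pos
    positivity
  have hyq : (t : ℤ) ^ 2 = y * (p : ℤ) ^ 11 := by
    have : (t : ℚ) ^ 2 = y * (p : ℚ) ^ 11 := by rw [hy, div_mul_cancel₀ _ hpq.ne']
    exact_mod_cast this
  have hy0 : 0 < y := by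
    have h1 : (0 : ℤ) < t ^ 2 := by positivity
    rw [hyq] at h1
    have h2 : (0 : ℤ) < (p : ℤ) ^ 11 := by exact_mod_cast hpq
    exact (pos_iff_pos_of_mul_pos h1).mpr h2
  have hy4 : y ≤ 4 := by
    have hn : ∀ z : ℂ, z ^ (k + 1) = 1 → ‖z‖ = 1 := fun z hz => Complex.norm_eq_one_of_pow_eq_one hz (by omega)
    have h1 : ‖ζ + ζ⁻¹ + 2‖ ≤ 4 := by
      calc ‖ζ + ζ⁻¹ + 2‖ ≤ ‖ζ + ζ⁻¹‖ + ‖(2 : ℂ)‖ := norm_add_le _ _
        _ ≤ (‖ζ‖ + ‖ζ⁻¹‖) + ‖(2 : ℂ)‖ := by gcongr; exact norm_add_le _ _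
        _ = 4 := by rw [hn ζ hζ1, hn _ hζi]; norm_num
    rw [hrat, ← hy] at h1
    have h2 : (((y : ℚ) : ℂ)) = ((y : ℝ) : ℂ) := by push_cast; rfl
    rw [h2, Complex.norm_real, Real.norm_eq_abs] at h1
    have h3 : (y : ℝ) ≤ 4 := le_trans (le_abs_self _) h1
    exact_mod_cast h3
  refine ⟨y.toNat, by omega, by omega, ?_⟩
  rw [Int.toNat_of_nonneg hy0.le]
  exact hyq

/-- If `τ(p) ≠ 0` then `τ(p^k) ≠ 0` for all `k`. Proof (Lehmer). Let `α, β` be the roots of `x² - τ(p) x + p^11`.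
`τ(p^k) = (α^{k+1} - β^{k+1})/(α - β)`, so `τ(p^k) = 0` makes `α/β` a root of unity, in a field of degree `≤ 2`; hence
`τ(p)²/p^11 = (α+β)²/(αβ) = 2 + α/β + β/α ∈ {0, 1, 2, 3, 4}`. `τ(p)² = p^11, 4p^11` impossible (odd valuation at `p`),
`2p^11`: `p = 2` and `τ(2)² = 576 ≠ 2^12`, `3 p^11`: `p = 3`, `τ(3)² = 63504 ≠ 3^12`. (Elementary variant: `u_k = τ(p^k)` in
terms of `t = τ(p)²`, `c = p^11`: `u_k = 0` is a monic polynomial equation for `t/c` with integer coefficients, whose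
roots `4cos²` are `≤ 4`, so `t/c` is an integer in `[0, 4]`; `t/c < 4` can also be taken from the fact that all roots of
the Chebyshev polynomial lie in `(-2, 2)`.) -/
theorem tau_pow_ne {p : ℕ} (hp : p.Prime) (h : tau p ≠ 0) (k : ℕ) : tau (p ^ k) ≠ 0 := by
  intro hk
  obtain ⟨m, hm0, hm, he⟩ := G1b_main hp h (u := fun n => tau (p ^ n)) (by simp [tau_one]) (by simp)
    (fun n => tau_rec hp n) hk
  rcases G1b_val hp hm0 hm he with ⟨rfl, rfl⟩ | ⟨rfl, rfl⟩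
  · rw [tau_two] at he
    norm_num at he
  · rw [tau_three] at he
    norm_num at he

/-- If `τ(p) = 0` then `τ(p^k)` vanishes exactly for odd `k`. -/
theorem tau_pow_even {p : ℕ} (hp : p.Prime) (h : tau p = 0) {k : ℕ} (hk : Even k) : tau (p ^ k) ≠ 0 := by
  obtain ⟨j, rfl⟩ := hk
  induction j with
  | zero => simp [tau_one]
  | succ j ih =>
    have e : j + 1 + (j + 1) = (j + j) + 2 := by ring
    rw [e, tau_rec hp, h, zero_mul, zero_sub]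
    have hp0 : (p : ℤ) ≠ 0 := by exact_mod_cast hp.ne_zero
    exact neg_ne_zero.mpr (mul_ne_zero (pow_ne_zero _ hp0) ih)

theorem tau_zero_prime {m : ℕ} (hm : 0 < m) (h : tau m = 0) :
    ∃ p : ℕ, p.Prime ∧ Odd (m.factorization p) ∧ tau p = 0 := by
  induction m using Nat.recOnPosPrimePosCoprime with
  | zero => exact absurd hm (lt_irrefl _)
  | one => rw [tau_one] at h; exact absurd h one_ne_zero
  | prime_pow p n hp hn =>
    refine ⟨p, hp, ?_, ?_⟩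
    · have h0 : tau p = 0 := by
        by_contra hc
        exact tau_pow_ne hp hc n h
      rw [hp.factorization_pow, Finsupp.single_eq_same]
      by_contra hc
      exact tau_pow_even hp h0 (Nat.not_odd_iff_even.mp hc) h
    · by_contra hc
      exact tau_pow_ne hp hc n h
  | coprime a b ha hb hab iha ihb =>
    rw [tau_mul hab] at h
    rcases mul_eq_zero.mp h with h | h
    · obtain ⟨p, hp, ho, hz⟩ := iha (by omega) h
      refine ⟨p, hp, ?_, hz⟩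
      have hpa : p ∣ a := by
        by_contra hc
        rw [Nat.factorization_eq_zero_of_not_dvd hc] at ho
        exact absurd ho (by decide)
      have hpb : ¬ p ∣ b := fun hc => hp.one_lt.ne' (Nat.eq_one_of_dvd_coprimes hab hpa hc)
      rw [Nat.factorization_mul_apply_of_coprime hab, Nat.factorization_eq_zero_of_not_dvd hpb, add_zero]
      exact ho
    · obtain ⟨p, hp, ho, hz⟩ := ihb (by omega) h
      refine ⟨p, hp, ?_, hz⟩
      have hpb : p ∣ b := by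
        by_contra hc
        rw [Nat.factorization_eq_zero_of_not_dvd hc] at ho
        exact absurd ho (by decide)
      have hpa : ¬ p ∣ a := fun hc => hp.one_lt.ne' (Nat.eq_one_of_dvd_coprimes hab hc hpb)
      rw [Nat.factorization_mul_apply_of_coprime hab, Nat.factorization_eq_zero_of_not_dvd hpa, zero_add]
      exact ho

end E8X
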