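import Pool.Agent.E8X.M5
import Pool.Agent.NC11.M10b

/-!
# [E8X-M4] Hecke operators on `Δ`
-/

set_option autoImplicit false

open scoped Real
open PowerSeries
open N19 (ex psi phs t2 t3 t4)
open NC11 (Ev qq)

namespace E8X

/-- `Δ(z)` -/
noncomputable def e24 (z : ℂ) : ℂ := ModularForm.eta z ^ 24

theorem zt_pow (x : ZMod 12) : NC11.zt x ^ 12 = 1 := by
  rw [NC11.zt, ← pow_mul, mul_comm x.val 12, pow_mul, ← Complex.exp_nat_mul]
  have : ((12 : ℕ) : ℂ) * (2 * π * Complex.I / 12) = 2 * π * Complex.I := by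
    push_cast
    ring
  rw [this, Complex.exp_two_pi_mul_I, one_pow]

theorem e24_mod (a b c d : ℤ) (h : a * d - b * c = 1) {z : ℂ} (hz : 0 < z.im) :
    e24 ((a * z + b) / (c * z + d)) = (c * z + d) ^ 12 * e24 z := by
  have h1 := NC11.eta_sq_SL a b c d h hz
  have e : ∀ w : ℂ, e24 w = (ModularForm.eta w ^ 2) ^ 12 := by
    intro w
    rw [e24, ← pow_mul]
  rw [e, e, h1, mul_pow, mul_pow, zt_pow, one_mul]

theorem e24_S {z : ℂ} (hz : 0 < z.im) : e24 (-1 / z) = z ^ 12 * e24 z := by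
  have h := e24_mod 0 (-1) 1 0 (by norm_num) hz
  simpa using h

theorem m4_one {p : ℕ} (hp0 : (p : ℂ) ≠ 0) {j k b : ℤ} (h : p * b = -(1 + j * k)) {z : ℂ} (hz : 0 < z.im)
    (hz1 : 0 < ((z + k) / p : ℂ).im) :
    e24 ((-1 / z + j) / p) = z ^ 12 * e24 ((z + k) / p) := by
  have hz0 : z ≠ 0 := by
    rintro rfl
    simp at hz
  have h1 := e24_mod j b p (-k) (by linear_combination -h) hz1
  have h2 : (((p : ℤ) : ℂ) * ((z + k) / p) + ((-k : ℤ) : ℂ)) = z := by
    push_cast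
    field_simp
    ring
  rw [h2] at h1
  have hb : (p : ℂ) * b = -(1 + j * k) := by
    exact_mod_cast h
  have h3 : ((j : ℂ) * ((z + k) / p) + b) / z = (-1 / z + j) / p := by
    field_simp
    linear_combination hb
  rw [h3] at h1
  exact h1

theorem m4_sum (p : ℕ) [NeZero p] (f : ℕ → ℂ) :
    ∑ j ∈ Finset.range p, f j = ∑ x : ZMod p, f x.val := by
  refine Finset.sum_nbij' (fun j => (j : ZMod p)) (fun j => j.val) ?_ ?_ ?_ ?_ ?_
  · intro j _
    exact Finset.mem_univ _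
  · intro j _
    exact Finset.mem_range.2 (ZMod.val_lt j)
  · intro j hj
    exact ZMod.val_cast_of_lt (Finset.mem_range.1 hj)
  · intro j _
    exact ZMod.natCast_zmod_val j
  · intro j hj
    have h1 : ((j : ZMod p).val) = j := ZMod.val_cast_of_lt (Finset.mem_range.1 hj)
    rw [h1]

theorem m4_im_div {p : ℕ} (hp : 0 < p) (k : ℕ) {z : ℂ} (hz : 0 < z.im) :
    0 < ((z + k) / (p : ℂ)).im := by
  have h1 : (0 : ℝ) < p := by exact_mod_cast hp
  rw [Complex.div_natCast_im, Complex.add_im, Complex.natCast_im, add_zero]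
  positivity

/-- the non-zero terms -/
theorem m4_nonzero {p : ℕ} [Fact p.Prime] {z : ℂ} (hz : 0 < z.im) :
    ∑ x ∈ Finset.univ.erase (0 : ZMod p), e24 ((-1 / z + (x.val : ℂ)) / p) =
      z ^ 12 * ∑ x ∈ Finset.univ.erase (0 : ZMod p), e24 ((z + (x.val : ℂ)) / p) := by
  have hp : p.Prime := Fact.out
  have hp0 : (p : ℂ) ≠ 0 := by exact_mod_cast hp.ne_zero
  rw [Finset.mul_sum]
  refine Finset.sum_nbij' (fun x => -x⁻¹) (fun x => -x⁻¹) ?_ ?_ ?_ ?_ ?_
  · intro x hx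
    have := (Finset.mem_erase.1 hx).1
    exact Finset.mem_erase.2 ⟨neg_ne_zero.2 (inv_ne_zero this), Finset.mem_univ _⟩
  · intro x hx
    have := (Finset.mem_erase.1 hx).1
    exact Finset.mem_erase.2 ⟨neg_ne_zero.2 (inv_ne_zero this), Finset.mem_univ _⟩
  · intro x _
    simp
  · intro x _
    simp
  · intro x hx
    have hx0 := (Finset.mem_erase.1 hx).1
    have hd : (p : ℤ) ∣ 1 + (x.val : ℤ) * ((-x⁻¹).val : ℤ) := by
      rw [← ZMod.intCast_zmod_eq_zero_iff_dvd]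
      push_cast
      rw [ZMod.natCast_zmod_val, ZMod.natCast_zmod_val]
      field_simp
      ring
    obtain ⟨b, hb⟩ := hd
    have h := m4_one (p := p) hp0 (j := x.val) (k := (-x⁻¹).val) (b := -b) (by
      rw [hb]
      ring) hz (by
      have := m4_im_div hp.pos (-x⁻¹ : ZMod p).val hz
      exact_mod_cast this)
    exact_mod_cast h

/-- `T_p Δ` -/
noncomputable def T12 (p : ℕ) (z : ℂ) : ℂ := NC11.T p e24 z + ((p : ℂ) ^ 11 - p) * e24 (p * z)

theorem T12_S {p : ℕ} (hp : p.Prime) {z : ℂ} (hz : 0 < z.im) : T12 p (-1 / z) = z ^ 12 * T12 p z := by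
  have hp0 : (p : ℂ) ≠ 0 := by exact_mod_cast hp.ne_zero
  have : Fact p.Prime := ⟨hp⟩
  have hz0 : z ≠ 0 := by
    rintro rfl
    simp at hz
  have hzp : 0 < (z / p : ℂ).im := by
    have := m4_im_div hp.pos 0 hz
    simpa using this
  have hpz : 0 < ((p : ℂ) * z).im := m5_im hp.pos hz
  have h1 : e24 (p * (-1 / z)) = (z / p) ^ 12 * e24 (z / p) := by
    rw [← e24_S hzp]
    congr 1
    field_simp
  have h2 : e24 ((-1 / z) / p) = (p * z) ^ 12 * e24 (p * z) := by
    rw [← e24_S hpz]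
    congr 1
    field_simp
  have h3 : ∀ w : ℂ, ∑ j ∈ Finset.range p, e24 ((w + j) / p) = e24 (w / p) +
      ∑ x ∈ Finset.univ.erase (0 : ZMod p), e24 ((w + (x.val : ℂ)) / p) := by
    intro w
    refine (m4_sum p (fun j : ℕ => e24 ((w + (j : ℂ)) / p))).trans ?_
    rw [← Finset.add_sum_erase Finset.univ (fun x : ZMod p => e24 ((w + (x.val : ℂ)) / p))
      (Finset.mem_univ (0 : ZMod p))]
    simp only [ZMod.val_zero, Nat.cast_zero, add_zero]
  rw [T12, T12, NC11.T, NC11.T, h3, h3, m4_nonzero hz, h1, h2]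
  generalize e24 (z / p) = E1
  generalize e24 (p * z) = E2
  generalize ∑ x ∈ Finset.univ.erase (0 : ZMod p), e24 ((z + (x.val : ℂ)) / p) = S
  rw [div_eq_mul_inv z (p : ℂ), one_div]
  have hpq : (p : ℂ) * (p : ℂ)⁻¹ = 1 := mul_inv_cancel₀ hp0
  generalize (p : ℂ)⁻¹ = q at hpq ⊢
  generalize (p : ℂ) = P at hpq ⊢
  linear_combination (z ^ 12 * E1 * q * (1 + P * q + (P * q) ^ 2 + (P * q) ^ 3 + (P * q) ^ 4 +
    (P * q) ^ 5 + (P * q) ^ 6 + (P * q) ^ 7 + (P * q) ^ 8 + (P * q) ^ 9 + (P * q) ^ 10) +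
    z ^ 12 * E2 * P ^ 11) * hpq

theorem T12_ev {p : ℕ} (hp : p.Prime) :
    Ev ((mk fun n => coeff (p * n) Dl + if p ∣ n then p * coeff (n / p) Dl else 0) +
      C ((p : ℤ) ^ 11 - p) * ex p Dl) (T12 p) := by
  have h : Ev Dl e24 := Dl_ev
  have h1 := (NC11.T_ev hp h).add ((Ev.const ((p : ℤ) ^ 11 - p)).mul (N19.ev_ex h hp.pos))
  refine Ev.congr h1 ?_
  intro z _
  rw [T12]
  push_cast
  ring

theorem tau_zero : tau 0 = 0 := coeff_zero_Dl

theorem tau_one : tau 1 = 1 := coeff_one_Dl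

theorem tau_hecke {p : ℕ} (hp : p.Prime) (n : ℕ) :
    tau (p * n) + (p : ℤ) ^ 11 * (if p ∣ n then tau (n / p) else 0) = tau p * tau n := by
  have h := cusp_twelve (T12_ev hp) (by
    rw [map_add, coeff_mk, coeff_C_mul, ex, coeff_mk]
    simp [coeff_zero_Dl]) (fun z hz => T12_S hp hz)
  have h1 : coeff 1 ((mk fun n => coeff (p * n) Dl + if p ∣ n then p * coeff (n / p) Dl else 0) +
      C ((p : ℤ) ^ 11 - p) * ex p Dl) = tau p := by
    rw [map_add, coeff_mk, coeff_C_mul, ex, coeff_mk, if_neg hp.not_dvd_one, if_neg hp.not_dvd_one,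
      mul_one, tau]
    ring
  rw [h1] at h
  have h2 := congrArg (coeff n) h
  rw [map_add, coeff_mk, coeff_C_mul, ex, coeff_mk, coeff_C_mul] at h2
  rw [tau, tau, tau, tau] at *
  rw [← h2]
  split_ifs <;> ring

theorem tau_rec' {p : ℕ} (hp : p.Prime) (k n : ℕ) :
    tau (p ^ (k + 2) * n) = tau p * tau (p ^ (k + 1) * n) - (p : ℤ) ^ 11 * tau (p ^ k * n) := by
  have h := tau_hecke hp (p ^ (k + 1) * n)
  have h1 : p ∣ p ^ (k + 1) * n := Dvd.dvd.mul_right (dvd_pow_self p (Nat.succ_ne_zero k)) n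
  have h2 : p ^ (k + 1) * n / p = p ^ k * n := by
    have h3 : p ^ (k + 1) * n = p * (p ^ k * n) := by ring
    rw [h3, Nat.mul_div_cancel_left _ hp.pos]
  have h4 : p ^ (k + 2) * n = p * (p ^ (k + 1) * n) := by ring
  rw [if_pos h1, h2, ← h4] at h
  linear_combination h

theorem tau_rec {p : ℕ} (hp : p.Prime) (k : ℕ) :
    tau (p ^ (k + 2)) = tau p * tau (p ^ (k + 1)) - (p : ℤ) ^ 11 * tau (p ^ k) := by
  have h := tau_rec' hp k 1
  rwa [mul_one, mul_one, mul_one] at h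

theorem m4_prime_pow {p : ℕ} (hp : p.Prime) {n : ℕ} (hn : ¬ p ∣ n) (k : ℕ) :
    tau (p ^ k * n) = tau (p ^ k) * tau n ∧ tau (p ^ (k + 1) * n) = tau (p ^ (k + 1)) * tau n := by
  induction k with
  | zero =>
    have h := tau_hecke hp n
    rw [if_neg hn, mul_zero, add_zero] at h
    refine ⟨by rw [pow_zero, one_mul, tau_one, one_mul], ?_⟩
    rw [zero_add, pow_one]
    exact h
  | succ k ih =>
    refine ⟨ih.2, ?_⟩
    have h1 := tau_rec' hp k n
    have h2 := tau_rec hp k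
    rw [show k + 1 + 1 = k + 2 from rfl, h1, h2, ih.1, ih.2]
    ring

theorem tau_mul {m n : ℕ} (h : m.Coprime n) : tau (m * n) = tau m * tau n := by
  induction m using Nat.recOnPosPrimePosCoprime generalizing n with
  | prime_pow p k hp hk =>
    refine (m4_prime_pow hp ?_ k).1
    intro h1
    have h2 : p.Coprime n := Nat.Coprime.coprime_dvd_left (dvd_pow_self p hk.ne') h
    have h3 : p ∣ 1 := by
      rw [← h2]
      exact Nat.dvd_gcd dvd_rfl h1
    exact hp.one_lt.ne' (Nat.dvd_one.1 h3)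
  | zero =>
    have h1 : n = 1 := by simpa using h
    rw [h1, tau_one, mul_one, mul_one]
  | one => rw [one_mul, tau_one, one_mul]
  | coprime a b ha hb hab iha ihb =>
    have h1 : a.Coprime (b * n) := Nat.Coprime.mul_right hab (Nat.Coprime.coprime_mul_right h)
    have h2 : b.Coprime n := Nat.Coprime.coprime_mul_left h
    rw [mul_assoc, iha h1, ihb h2, iha hab, mul_assoc]

end E8X
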