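import Pool.Agent.E8X.F2
import Pool.Agent.N19.L2
import Pool.Agent.NC11.M7

/-!
# [E8X-M5] level one cusp forms given by integral power series
-/

set_option autoImplicit false

open scoped Real
open PowerSeries
open N19 (ex psi phs t2 t3 t4 ev_ex)
open NC11 (Ev qq)

namespace E8X

theorem m5_im {k : ℕ} (hk : 0 < k) {z : ℂ} (hz : 0 < z.im) : 0 < ((k : ℂ) * z).im := by
  have : ((k : ℂ) * z).im = k * z.im := by simp
  rw [this]
  positivity

/-- `Ψ(z) = ∑_{n ≥ 0} q^{n(n+1)/2}` -/
noncomputable def Psi (z : ℂ) : ℂ := t2 z / (2 * Complex.exp (π * Complex.I * z / 4))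

theorem t2_Psi (z : ℂ) : t2 z = 2 * Complex.exp (π * Complex.I * z / 4) * Psi z := by
  rw [Psi, mul_div_cancel₀]
  exact mul_ne_zero two_ne_zero (Complex.exp_ne_zero _)

private theorem m5_tri (k : ℕ) : 2 * (k * (k + 1) / 2) = k * (k + 1) :=
  Nat.mul_div_cancel' (Nat.even_mul_succ_self k).two_dvd

private theorem m5_tri_inj : Function.Injective (fun k : ℕ => k * (k + 1) / 2) := by
  intro a b hab
  simp only at hab
  have h1 := m5_tri a
  have h2 := m5_tri b
  rw [hab, h2] at h1
  rcases lt_trichotomy a b with h | h | h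
  · nlinarith
  · exact h
  · nlinarith

theorem psi_ev : Ev psi Psi := by
  intro z hz
  have h1 := (N19.t2_hasSum hz).nat_add_neg_add_one
  have h2 : HasSum (fun n : ℕ => qq z ^ (n * (n + 1) / 2)) (Psi z) := by
    rw [Psi]
    have h3 := h1.div_const (2 * Complex.exp (π * Complex.I * z / 4))
    convert! h3 using 1
    funext n
    have hne : Complex.exp (π * Complex.I * z / 4) ≠ 0 := Complex.exp_ne_zero _
    have e1 : Complex.exp (π * Complex.I * (2 * ((n : ℤ) : ℂ) + 1) ^ 2 / 4 * z) =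
        Complex.exp (π * Complex.I * z / 4) * qq z ^ (n * (n + 1) / 2) := by
      rw [qq, ← Complex.exp_nat_mul, ← Complex.exp_add]
      congr 1
      have h5 : (2 : ℂ) * ((n * (n + 1) / 2 : ℕ) : ℂ) = n * (n + 1) := by
        exact_mod_cast m5_tri n
      push_cast at h5 ⊢
      linear_combination (-(π * Complex.I * z)) * h5
    have e2 : Complex.exp (π * Complex.I * (2 * ((-((n : ℤ) + 1) : ℤ) : ℂ) + 1) ^ 2 / 4 * z) =
        Complex.exp (π * Complex.I * (2 * ((n : ℤ) : ℂ) + 1) ^ 2 / 4 * z) := by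
      congr 1
      push_cast
      ring
    rw [e2, e1]
    field_simp
    ring
  rw [← m5_tri_inj.hasSum_iff]
  · convert! h2 using 1
    funext n
    simp only [Function.comp_apply]
    rw [psi, coeff_mk, if_pos ⟨n, (m5_tri n).symm⟩]
    simp
  · intro m hm
    rw [psi, coeff_mk, if_neg]
    · simp
    · rintro ⟨k, hk⟩
      apply hm
      exact ⟨k, by
        have := m5_tri k
        show k * (k + 1) / 2 = m
        omega⟩

theorem phs_ev : Ev phs (fun z => t3 (2 * z)) := by
  intro z hz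
  have hz2 : 0 < (2 * z).im := by
    have := m5_im (k := 2) (by norm_num) hz
    exact_mod_cast this
  have h1 := (hasSum_nat_jacobiTheta hz2).mul_left 2
  have h2 : HasSum (fun n : ℕ => 2 * qq z ^ ((n + 1) * (n + 1))) (t3 (2 * z) - 1) := by
    convert! h1 using 1
    · funext n
      congr 1
      rw [qq, ← Complex.exp_nat_mul]
      congr 1
      push_cast
      ring
    · rw [t3]
      ring
  have h0 : ∑ i ∈ Finset.range 1, ((coeff i phs : ℤ) : ℂ) * qq z ^ i = 1 := by
    rw [Finset.sum_range_one, phs, coeff_mk, if_pos rfl]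
    simp
  rw [← hasSum_nat_add_iff' 1, h0]
  have hinj : Function.Injective (fun n : ℕ => (n + 1) * (n + 1) - 1) := by
    intro a b hab
    simp only at hab
    have h3 : (a + 1) * (a + 1) = (b + 1) * (b + 1) := by
      have ha : 0 < (a + 1) * (a + 1) := by positivity
      have hb : 0 < (b + 1) * (b + 1) := by positivity
      omega
    have h4 := Nat.mul_self_inj.1 h3
    omega
  rw [← hinj.hasSum_iff]
  · convert! h2 using 1
    funext n
    simp only [Function.comp_apply]
    have ha : 0 < (n + 1) * (n + 1) := by positivity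
    have e : (n + 1) * (n + 1) - 1 + 1 = (n + 1) * (n + 1) := by omega
    rw [e, phs, coeff_mk, if_neg ha.ne', if_pos ⟨n + 1, rfl⟩]
    simp
  · intro m hm
    rw [phs, coeff_mk, if_neg (by omega), if_neg]
    · simp
    · rintro ⟨k, hk⟩
      apply hm
      obtain ⟨j, rfl⟩ : ∃ j, k = j + 1 := by
        rcases k with _ | j
        · simp at hk
        · exact ⟨j, rfl⟩
      exact ⟨j, by show (j + 1) * (j + 1) - 1 = m; omega⟩

theorem t3_four (z : ℂ) : t3 z = t3 (4 * z) + t2 (4 * z) := by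
  rw [t3, t3, t2, show 4 * z / 4 = z by ring]
  ring

theorem t4_four {z : ℂ} (hz : 0 < z.im) : t4 z = t3 (4 * z) - t2 (4 * z) := by
  rw [t4, N19.theta_succ hz, t3, t2, show 4 * z / 4 = z by ring]
  ring

theorem F_ev : Ev F (fun z => t2 (2 * z) ^ 4 / 16) := by
  have h := NC11.m7_Ev_X.mul ((ev_ex psi_ev (k := 2) (by norm_num)).pow 4)
  refine Ev.congr h ?_
  intro z _
  have e : Complex.exp (π * Complex.I * (2 * z) / 4) ^ 4 = qq z := by
    rw [qq, ← Complex.exp_nat_mul]
    congr 1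
    push_cast
    ring
  have e2 : t2 (2 * z) ^ 4 = 16 * qq z * Psi (2 * z) ^ 4 := by
    rw [t2_Psi, ← e]
    ring
  have e3 : ((2 : ℕ) : ℂ) * z = 2 * z := by push_cast; ring
  simp only [e3]
  rw [e2]
  ring

/-- `E - 2u = φ(-X)` -/
theorem E_ev : Ev (ex 4 phs - 2 * (X * Cc)) (fun z => t4 (2 * z)) := by
  have h := (ev_ex phs_ev (k := 4) (by norm_num)).sub ((Ev.const 2).mul
    (NC11.m7_Ev_X.mul (ev_ex psi_ev (k := 8) (by norm_num))))
  have h' : (C 2 : PowerSeries ℤ) = 2 := rfl
  rw [h'] at h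
  refine Ev.congr h ?_
  intro z hz
  have hz2 : 0 < (2 * z).im := by
    have := m5_im (k := 2) (by norm_num) hz
    exact_mod_cast this
  rw [t4_four hz2, t2_Psi]
  have e1 : (2 : ℂ) * (((4 : ℕ) : ℂ) * z) = 4 * (2 * z) := by push_cast; ring
  have e2 : (((8 : ℕ) : ℂ) * z) = 4 * (2 * z) := by push_cast; ring
  have e3 : Complex.exp (π * Complex.I * (4 * (2 * z)) / 4) = qq z := by
    rw [qq]
    congr 1
    ring
  simp only [e1, e2, e3]
  push_cast
  ring

theorem psi_sq (z : ℂ) (hz : 0 < z.im) : Psi z ^ 2 = t3 (2 * z) * Psi (2 * z) := by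
  have h1 := psi_ev.pow 2
  have h2 := phs_ev.mul (ev_ex psi_ev (k := 2) (by norm_num))
  rw [r1] at h1
  have h3 := (h1 z hz).unique (h2 z hz)
  have e3 : ((2 : ℕ) : ℂ) * z = 2 * z := by push_cast; ring
  simp only [e3] at h3
  exact h3

theorem t2_sq {z : ℂ} (hz : 0 < z.im) : t2 z ^ 2 = 2 * t2 (2 * z) * t3 (2 * z) := by
  have h := psi_sq z hz
  rw [t2_Psi z, t2_Psi (2 * z)]
  have e : Complex.exp (π * Complex.I * z / 4) ^ 2 = Complex.exp (π * Complex.I * (2 * z) / 4) := by
    rw [← Complex.exp_nat_mul]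
    congr 1
    push_cast
    ring
  rw [← e]
  linear_combination 4 * Complex.exp (π * Complex.I * z / 4) ^ 2 * h

/-- `Δ = η^24` in terms of the theta functions. -/
theorem Dl_ev : Ev Dl (fun z => ModularForm.eta z ^ 24) := by
  have h := (F_ev.mul (phs_ev.pow 4)).mul ((E_ev.pow 4).pow 4)
  rw [← phF] at h
  refine Ev.congr h ?_
  intro z hz
  have hz2 : 0 < (2 * z).im := by
    have := m5_im (k := 2) (by norm_num) hz
    exact_mod_cast this
  have h1 := t2_sq hz
  have h2 := N19.gauss2 hz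
  have h3 := N19.gauss4 hz2
  have e : 2 * z / 2 = z := by ring
  rw [e] at h3
  have hn := ModularForm.eta_ne_zero hz
  have hn2 := ModularForm.eta_ne_zero hz2
  have h2' : t2 z = 2 * ModularForm.eta (2 * z) ^ 2 / ModularForm.eta z := by
    rw [← h2]
    field_simp
  have h3' : t4 (2 * z) = ModularForm.eta z ^ 2 / ModularForm.eta (2 * z) := by
    rw [← h3]
    field_simp
  have h4 : t2 (2 * z) ^ 4 / 16 * t3 (2 * z) ^ 4 = (t2 z ^ 2) ^ 4 / 256 := by
    rw [h1]
    ring
  rw [h4, h2', h3']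
  field_simp
  ring

section level_one

variable {k : ℕ} {B : PowerSeries ℤ} {g : ℂ → ℂ}

theorem m5_T (h : Ev B g) {z : ℂ} (hz : 0 < z.im) : g (z + 1) = g z := by
  have h1 := h z hz
  have h2 := h (z + 1) (by simpa using hz)
  have h3 : qq (z + 1) = qq z := by
    rw [qq, qq, mul_add, Complex.exp_add, mul_one, Complex.exp_two_pi_mul_I, mul_one]
  rw [h3] at h2
  exact h2.unique h1

open UpperHalfPlane ModularForm MatrixGroups in
theorem m5_slT (h : Ev B g) : ((fun z : ℍ => g z) ∣[(k : ℤ)] ModularGroup.T) = fun z : ℍ => g z := by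
  ext z
  rw [SL_slash_apply, UpperHalfPlane.denom, UpperHalfPlane.modular_T_smul, ModularGroup.T]
  have h := m5_T h z.2
  simp
  rw [add_comm]
  exact h

open UpperHalfPlane ModularForm MatrixGroups in
theorem m5_slS (hS : ∀ z : ℂ, 0 < z.im → g (-1 / z) = z ^ k * g z) :
    ((fun z : ℍ => g z) ∣[(k : ℤ)] ModularGroup.S) = fun z : ℍ => g z := by
  ext z
  have h := hS z z.2
  have hz := z.ne_zero
  rw [SL_slash_apply, UpperHalfPlane.modular_S_smul]
  simp [UpperHalfPlane.denom, ModularGroup.S]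
  rw [show (-(z : ℂ)⁻¹) = -1 / z by field_simp, h]
  field_simp

open UpperHalfPlane in
theorem m5_zero (h : Ev B g) (h0 : coeff 0 B = 0) : IsZeroAtImInfty (fun z : ℍ => g z) := by
  rw [isZeroAtImInfty_iff]
  obtain ⟨K, hK⟩ := h.bound (k := 1) (by
    rw [pow_one, PowerSeries.X_dvd_iff, ← PowerSeries.coeff_zero_eq_constantCoeff_apply, h0])
    (y := 1) one_pos
  intro ε hε
  have hlim : Filter.Tendsto (fun y : ℝ => K * Real.exp (-2 * π * y)) Filter.atTop
      (nhds (K * 0)) := by
    refine Filter.Tendsto.const_mul _ ?_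
    refine Real.tendsto_exp_atBot.comp ?_
    refine Filter.Tendsto.const_mul_atTop_of_neg ?_ Filter.tendsto_id
    have := Real.pi_pos
    linarith
  rw [mul_zero] at hlim
  have hev := hlim.eventually (gt_mem_nhds hε)
  obtain ⟨Y, hY⟩ := Filter.eventually_atTop.1 hev
  refine ⟨max Y 1, fun z hz => ?_⟩
  have h1 := hK z (le_trans (le_max_right _ _) hz)
  have h2 := hY z.im (le_trans (le_max_left _ _) hz)
  have h3 : -2 * π * ((1 : ℕ) : ℝ) * z.im = -2 * π * z.im := by push_cast; ring
  rw [UpperHalfPlane.coe_im, h3] at h1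
  exact h1.trans h2.le

open UpperHalfPlane ModularForm MatrixGroups in
/-- A cusp form of level one. -/
noncomputable def cform (h : Ev B g) (h0 : coeff 0 B = 0)
    (hS : ∀ z : ℂ, 0 < z.im → g (-1 / z) = z ^ k * g z) : CuspForm 𝒮ℒ (k : ℤ) where
  toFun := fun z : ℍ => g z
  slash_action_eq' A hA := by
    obtain ⟨A, rfl⟩ := hA
    exact SlashInvariantForm.slash_action_generators_SL2Z (m5_slS hS) (m5_slT h) A
  holo' := by
    rw [UpperHalfPlane.mdifferentiable_iff]
    refine h.differentiableOn.congr fun z hz ↦ ?_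
    simp [ofComplex_apply_of_im_pos hz]
  zero_at_cusps' hc := by
    rw [Subgroup.IsArithmetic.isCusp_iff_isCusp_SL2Z] at hc
    rw [OnePoint.isZeroAt_iff_forall_SL2Z hc]
    intro γ _
    rw [SlashInvariantForm.slash_action_generators_SL2Z (m5_slS hS) (m5_slT h)]
    exact m5_zero h h0

theorem cusp_zero (hk : k < 12) (h : Ev B g)
    (h0 : coeff 0 B = 0) (hS : ∀ z : ℂ, 0 < z.im → g (-1 / z) = z ^ k * g z) : B = 0 := by
  have h1 : cform h h0 hS = 0 :=
    rank_zero_iff_forall_zero.1 (CuspForm.rank_eq_zero_of_weight_lt_twelve (by exact_mod_cast hk)) _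
  apply h.unique (Y := 0)
  intro z hz _
  have h3 : cform h h0 hS ⟨z, hz⟩ = 0 := by
    rw [h1]
    rfl
  exact h3

theorem coeff_zero_Dl : coeff 0 Dl = 0 := by
  rw [coeff_zero_eq_constantCoeff_apply, Dl, F]
  simp

theorem coeff_one_Dl : coeff 1 Dl = 1 := by
  have h0 : coeff 0 psi = 1 := by
    rw [psi, coeff_mk, if_pos ⟨0, rfl⟩]
  have h1 : coeff 0 phs = 1 := by
    rw [phs, coeff_mk, if_pos rfl]
  have h2 : constantCoeff (ex 2 psi) = 1 := by
    rw [← coeff_zero_eq_constantCoeff_apply, ex, coeff_mk, if_pos (dvd_zero _)]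
    simpa using h0
  have h3 : constantCoeff phs = 1 := by
    rw [← coeff_zero_eq_constantCoeff_apply, h1]
  have e : Dl = X * (ex 2 psi ^ 4 * phs ^ 4 * (phs ^ 4 - 16 * F) ^ 4) := by
    rw [Dl, F]
    ring
  rw [e, show (1 : ℕ) = 0 + 1 from rfl, coeff_succ_X_mul, coeff_zero_eq_constantCoeff_apply]
  simp [h2, h3, F]

theorem cusp_twelve (h : Ev B g)
    (h0 : coeff 0 B = 0) (hS : ∀ z : ℂ, 0 < z.im → g (-1 / z) = z ^ 12 * g z) :
    B = C (coeff 1 B) * Dl := by
  obtain ⟨c, hc⟩ := CuspForm.exists_smul_discriminant_of_weight_eq_twelve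
    (cform (k := 12) h h0 hS)
  have h1 : ∀ z : ℂ, 0 < z.im → g z = c * ModularForm.eta z ^ 24 := by
    intro z hz
    have h3 : (c • CuspForm.discriminant) ⟨z, hz⟩ = cform (k := 12) h h0 hS ⟨z, hz⟩ := by
      rw [hc]
    exact h3.symm
  -- the constant is `coeff 1 B`
  set b : ℤ := coeff 1 B with hb
  have hdiff : Ev (B - C b * Dl) (fun z => g z - (b : ℂ) * ModularForm.eta z ^ 24) :=
    h.sub ((Ev.const b).mul Dl_ev)
  have hX2 : (X : PowerSeries ℤ) ^ 2 ∣ B - C b * Dl := by
    rw [PowerSeries.X_pow_dvd_iff]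
    intro m hm
    rw [map_sub, PowerSeries.coeff_C_mul]
    interval_cases m
    · rw [h0, coeff_zero_Dl]
      ring
    · rw [coeff_one_Dl, ← hb]
      ring
  obtain ⟨Y, hY⟩ := Ev.lower Dl_ev coeff_zero_Dl coeff_one_Dl
  have hcb : c = b := by
    obtain ⟨K, hK⟩ := hdiff.bound hX2 (y := 1) one_pos
    by_contra hne
    have hpos : 0 < ‖c - b‖ := norm_pos_iff.mpr (sub_ne_zero.mpr hne)
    have hlim : Filter.Tendsto (fun y : ℝ => 2 * K * Real.exp (-2 * π * y)) Filter.atTop
        (nhds (2 * K * 0)) := by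
      apply Filter.Tendsto.const_mul
      apply Real.tendsto_exp_atBot.comp
      exact Filter.tendsto_id.const_mul_atTop_of_neg (by linarith [Real.pi_pos])
    rw [mul_zero] at hlim
    have hev := (hlim.eventually (gt_mem_nhds hpos)).and
      ((Filter.eventually_ge_atTop Y).and (Filter.eventually_ge_atTop (1 : ℝ)))
    obtain ⟨y, hy1, hy2, hy3⟩ := hev.exists
    have hy0 : 0 < y := by linarith
    have him : ((y : ℂ) * Complex.I).im = y := by simp
    have h1' := hK ((y : ℂ) * Complex.I) (by rw [him]; exact hy3)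
    have h2 := hY ((y : ℂ) * Complex.I) (by rw [him]; exact hy2)
    have h3 := h1 ((y : ℂ) * Complex.I) (by rw [him]; exact hy0)
    simp only [h3, him] at h1'
    rw [him] at h2
    rw [← sub_mul, norm_mul] at h1'
    have he : 0 < Real.exp (-2 * π * y) := Real.exp_pos _
    have he2 : Real.exp (-2 * π * ((2 : ℕ) : ℝ) * y)
        = Real.exp (-2 * π * y) * Real.exp (-2 * π * y) := by
      rw [← Real.exp_add]
      congr 1
      push_cast
      ring
    rw [he2] at h1'
    have h4 : ‖c - b‖ * (Real.exp (-2 * π * y) / 2)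
        ≤ K * (Real.exp (-2 * π * y) * Real.exp (-2 * π * y)) :=
      le_trans (mul_le_mul_of_nonneg_left h2 hpos.le) h1'
    have h5 : ‖c - b‖ ≤ 2 * K * Real.exp (-2 * π * y) := by
      have h6 : ‖c - b‖ * Real.exp (-2 * π * y)
          ≤ (2 * K * Real.exp (-2 * π * y)) * Real.exp (-2 * π * y) := by nlinarith
      exact le_of_mul_le_mul_right h6 he
    linarith
  have h5 := hdiff.unique (Y := 0) (fun z hz _ => by rw [h1 z hz, hcb]; ring)
  exact sub_eq_zero.1 h5

end level_one

end E8X
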