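import Pool.Agent.E8X.S2

/-!
# [E8X-S3] interpolation polynomials and quaternion multiplication
-/

set_option autoImplicit false

open Pool.Agent.MP130199 (V8 sm8 shell IsDesign)

namespace E8X

/-- `(1 - X)^N` and `X^K` are coprime in `ℤ[X]` (`IsCoprime (1 - X) X`, `IsCoprime.pow`): `a (1-X)^N + b X^K = 1`;
replace `a` by `a %ₘ X^K`. -/
theorem bpoly {N K : ℕ} (hN : 0 < N) (hK : 0 < K) : ∃ B : Polynomial ℤ, B.natDegree < N + K ∧
    (1 - Polynomial.X) ^ N ∣ B ∧ Polynomial.X ^ K ∣ B - 1 := by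
  classical
  have hco : IsCoprime ((1 - Polynomial.X : Polynomial ℤ) ^ N) (Polynomial.X ^ K) := by
    apply IsCoprime.pow
    exact ⟨1, 1, by ring⟩
  obtain ⟨a, b, hab⟩ := hco
  have hmon : (Polynomial.X ^ K : Polynomial ℤ).Monic := Polynomial.monic_X_pow K
  have hdiv : a %ₘ (Polynomial.X ^ K) + Polynomial.X ^ K * (a /ₘ (Polynomial.X ^ K)) = a :=
    Polynomial.modByMonic_add_div a (Polynomial.X ^ K)
  refine ⟨(a %ₘ (Polynomial.X ^ K)) * (1 - Polynomial.X) ^ N, ?_, Dvd.intro_left _ rfl, ?_⟩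
  · have h1 : (a %ₘ (Polynomial.X ^ K : Polynomial ℤ)).natDegree < K := by
      have h := Polynomial.natDegree_modByMonic_lt a hmon (by
        intro h
        have h2 := congrArg Polynomial.natDegree h
        rw [Polynomial.natDegree_X_pow, Polynomial.natDegree_one] at h2
        omega)
      rwa [Polynomial.natDegree_X_pow] at h
    have h2 : ((1 - Polynomial.X : Polynomial ℤ) ^ N).natDegree ≤ N := by
      refine Polynomial.natDegree_pow_le_of_le N ?_ |>.trans (le_of_eq (Nat.mul_one N))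
      refine (Polynomial.natDegree_sub_le _ _).trans ?_
      rw [Polynomial.natDegree_one, Polynomial.natDegree_X]
      exact le_refl _
    have h3 := Polynomial.natDegree_mul_le (p := a %ₘ (Polynomial.X ^ K : Polynomial ℤ))
      (q := (1 - Polynomial.X : Polynomial ℤ) ^ N)
    omega
  · refine ⟨- b - (a /ₘ (Polynomial.X ^ K)) * (1 - Polynomial.X) ^ N, ?_⟩
    linear_combination (1 - Polynomial.X : Polynomial ℤ) ^ N * hdiv + hab

/-- With `B` as above (`K = N` is allowed): `B(w^(l-1))` is `0` or `1` modulo `l^N` according as `l ∤ w` or `l ∣ w`. -/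
theorem bpoly_eval {l N K : ℕ} (hl : l.Prime) (hK : N ≤ K * (l - 1)) {B : Polynomial ℤ}
    (h1 : (1 - Polynomial.X) ^ N ∣ B) (h2 : Polynomial.X ^ K ∣ B - 1) (w : ℤ) :
    (l : ℤ) ^ N ∣ B.eval (w ^ (l - 1)) - (if (l : ℤ) ∣ w then 1 else 0) := by
  obtain ⟨C, hC⟩ := h1
  obtain ⟨D, hD⟩ := h2
  by_cases hw : (l : ℤ) ∣ w
  · rw [if_pos hw]
    have e1 : B.eval (w ^ (l - 1)) - 1 = (w ^ (l - 1)) ^ K * D.eval (w ^ (l - 1)) := by
      have h := congrArg (Polynomial.eval (w ^ (l - 1))) hD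
      rw [Polynomial.eval_sub, Polynomial.eval_one, Polynomial.eval_mul, Polynomial.eval_pow,
        Polynomial.eval_X] at h
      exact h
    rw [e1]
    apply Dvd.dvd.mul_right
    rw [← pow_mul]
    have e2 : (l : ℤ) ^ N ∣ (l : ℤ) ^ ((l - 1) * K) := pow_dvd_pow _ (by rw [Nat.mul_comm]; exact hK)
    exact e2.trans (pow_dvd_pow_of_dvd hw _)
  · rw [if_neg hw, sub_zero]
    have e1 : B.eval (w ^ (l - 1)) = (1 - w ^ (l - 1)) ^ N * C.eval (w ^ (l - 1)) := by
      have h := congrArg (Polynomial.eval (w ^ (l - 1))) hC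
      rw [Polynomial.eval_mul, Polynomial.eval_pow, Polynomial.eval_sub, Polynomial.eval_one,
        Polynomial.eval_X] at h
      exact h
    rw [e1]
    apply Dvd.dvd.mul_right
    apply pow_dvd_pow_of_dvd
    have hco : IsCoprime w (l : ℤ) := by
      rw [isCoprime_comm]
      exact ((Nat.prime_iff_prime_int.1 hl).coprime_iff_not_dvd).2 hw
    exact (Int.ModEq.pow_card_sub_one_eq_one hl hco).dvd

/-- Left multiplication by the quaternion `a + b i + c j + d k` on pairs of quaternions. -/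
def Lq (a b c d : ℤ) : Matrix (Fin 8) (Fin 8) ℤ :=
  !![a, -b, -c, -d, 0, 0, 0, 0;
     b,  a, -d,  c, 0, 0, 0, 0;
     c,  d,  a, -b, 0, 0, 0, 0;
     d, -c,  b,  a, 0, 0, 0, 0;
     0, 0, 0, 0, a, -b, -c, -d;
     0, 0, 0, 0, b,  a, -d,  c;
     0, 0, 0, 0, c,  d,  a, -b;
     0, 0, 0, 0, d, -c,  b,  a]

theorem S3b_mulVec (a b c d : ℤ) (v : Fin 8 → ℤ) : (Lq a b c d).mulVec v =
    ![a * v 0 - b * v 1 - c * v 2 - d * v 3, b * v 0 + a * v 1 - d * v 2 + c * v 3,
      c * v 0 + d * v 1 + a * v 2 - b * v 3, d * v 0 - c * v 1 + b * v 2 + a * v 3,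
      a * v 4 - b * v 5 - c * v 6 - d * v 7, b * v 4 + a * v 5 - d * v 6 + c * v 7,
      c * v 4 + d * v 5 + a * v 6 - b * v 7, d * v 4 - c * v 5 + b * v 6 + a * v 7] := by
  funext i
  rw [Matrix.mulVec, dotProduct, Fin.sum_univ_eight]
  fin_cases i <;> simp [Lq] <;> ring

theorem S3b_transpose (a b c d : ℤ) : (Lq a b c d).transpose = Lq a (-b) (-c) (-d) := by
  ext i j
  fin_cases i <;> fin_cases j <;> simp [Lq]

/-- the product of two quaternions, on vectors -/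
theorem S3b_comp (a b c d a' b' c' d' : ℤ) (v : Fin 8 → ℤ) :
    (Lq a b c d).mulVec ((Lq a' b' c' d').mulVec v) =
    (Lq (a * a' - b * b' - c * c' - d * d') (a * b' + b * a' + c * d' - d * c')
      (a * c' - b * d' + c * a' + d * b') (a * d' + b * c' - c * b' + d * a')).mulVec v := by
  rw [S3b_mulVec, S3b_mulVec, S3b_mulVec]
  funext i
  fin_cases i <;> simp <;> ring

theorem S3b_scalar (n : ℤ) (v : Fin 8 → ℤ) : (Lq n 0 0 0).mulVec v = n • v := by
  rw [S3b_mulVec]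
  funext i
  fin_cases i <;> simp

theorem S3b_lin (k n a b c d : ℤ) (v : Fin 8 → ℤ) :
    (Lq (k * a - n) (k * b) (k * c) (k * d)).mulVec v = k • (Lq a b c d).mulVec v - n • v := by
  rw [S3b_mulVec, S3b_mulVec]
  funext i
  fin_cases i <;> simp <;> ring

theorem Lq_mul_transpose (a b c d : ℤ) : Lq a b c d * (Lq a b c d).transpose =
    (a ^ 2 + b ^ 2 + c ^ 2 + d ^ 2) • (1 : Matrix (Fin 8) (Fin 8) ℤ) := by
  rw [Matrix.ext_iff_mulVec]
  intro v
  rw [← Matrix.mulVec_mulVec, S3b_transpose, S3b_comp, Matrix.smul_mulVec, Matrix.one_mulVec,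
    ← S3b_scalar]
  congr 1
  congr 1 <;> ring

theorem Lq_transpose_mul (a b c d : ℤ) : (Lq a b c d).transpose * Lq a b c d =
    (a ^ 2 + b ^ 2 + c ^ 2 + d ^ 2) • (1 : Matrix (Fin 8) (Fin 8) ℤ) := by
  rw [Matrix.ext_iff_mulVec]
  intro v
  rw [← Matrix.mulVec_mulVec, S3b_transpose, S3b_comp, Matrix.smul_mulVec, Matrix.one_mulVec,
    ← S3b_scalar]
  congr 1
  congr 1 <;> ring

/-- `L² = 2 a L - N` (the trace and the norm); the same for the transpose. -/
theorem Lq_sq (a b c d : ℤ) : (Lq a b c d).transpose * (Lq a b c d).transpose =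
    (2 * a) • (Lq a b c d).transpose - (a ^ 2 + b ^ 2 + c ^ 2 + d ^ 2) • (1 : Matrix (Fin 8) (Fin 8) ℤ) := by
  rw [Matrix.ext_iff_mulVec]
  intro v
  rw [← Matrix.mulVec_mulVec, S3b_transpose, S3b_comp, Matrix.sub_mulVec, Matrix.smul_mulVec,
    Matrix.smul_mulVec, Matrix.one_mulVec, ← S3b_lin]
  congr 1
  congr 1 <;> ring

/-- The conditions defining twice the `E8` lattice. -/
def InE (v : Fin 8 → ℤ) : Prop := (∀ i j, v i % 2 = v j % 2) ∧ (∑ i, v i) % 4 = 0

theorem mem_shell {m : ℕ} {v : Fin 8 → ℤ} : v ∈ shell m ↔ InE v ∧ ∑ i, v i ^ 2 = 8 * (m : ℤ) := by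
  unfold shell InE
  rw [Finset.mem_filter, Fintype.mem_piFinset]
  constructor
  · rintro ⟨-, h1, h2, h3⟩
    exact ⟨⟨h1, h2⟩, h3⟩
  · rintro ⟨⟨g1, g2⟩, g3⟩
    refine ⟨?_, g1, g2, g3⟩
    intro i
    rw [Finset.mem_Icc]
    have h1 : v i ^ 2 ≤ ∑ i, v i ^ 2 :=
      Finset.single_le_sum (f := fun i => v i ^ 2) (fun j _ => sq_nonneg (v j)) (Finset.mem_univ i)
    rw [g3] at h1
    have h2 : |v i| ≤ v i ^ 2 := by
      rw [← sq_abs (v i)]
      rcases eq_or_lt_of_le (abs_nonneg (v i)) with h0 | h0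
      · rw [← h0]; norm_num
      · nlinarith
    exact abs_le.1 (h2.trans h1)

theorem Lq_InE (a b c d : ℤ) {v : Fin 8 → ℤ} (hv : InE v) : InE ((Lq a b c d).mulVec v) := by
  obtain ⟨h1, h2⟩ := hv
  have e : ∀ i, ∃ t, v i = v 0 + 2 * t := by
    intro i
    have h := h1 i 0
    exact ⟨(v i - v 0) / 2, by omega⟩
  obtain ⟨t1, e1⟩ := e 1
  obtain ⟨t2, e2⟩ := e 2
  obtain ⟨t3, e3⟩ := e 3
  obtain ⟨t4, e4⟩ := e 4
  obtain ⟨t5, e5⟩ := e 5
  obtain ⟨t6, e6⟩ := e 6
  obtain ⟨t7, e7⟩ := e 7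
  have par : ∀ i, ∃ t, (Lq a b c d).mulVec v i = (a + b + c + d) * v 0 + 2 * t := by
    intro i
    rw [S3b_mulVec, e1, e2, e3, e4, e5, e6, e7]
    fin_cases i
    · exact ⟨- b * v 0 - c * v 0 - d * v 0 - b * t1 - c * t2 - d * t3, by simp; ring⟩
    · exact ⟨- d * v 0 + a * t1 - d * t2 + c * t3, by simp; ring⟩
    · exact ⟨- b * v 0 + d * t1 + a * t2 - b * t3, by simp; ring⟩
    · exact ⟨- c * v 0 - c * t1 + b * t2 + a * t3, by simp; ring⟩
    · exact ⟨- b * v 0 - c * v 0 - d * v 0 + a * t4 - b * t5 - c * t6 - d * t7, by simp; ring⟩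
    · exact ⟨- d * v 0 + b * t4 + a * t5 - d * t6 + c * t7, by simp; ring⟩
    · exact ⟨- b * v 0 + c * t4 + d * t5 + a * t6 - b * t7, by simp; ring⟩
    · exact ⟨- c * v 0 + d * t4 - c * t5 + b * t6 + a * t7, by simp; ring⟩
  constructor
  · intro i j
    obtain ⟨s, hs⟩ := par i
    obtain ⟨t, ht⟩ := par j
    rw [hs, ht]
    omega
  · rw [Fin.sum_univ_eight] at h2
    obtain ⟨s, hs⟩ : (4 : ℤ) ∣ v 0 + v 1 + v 2 + v 3 + v 4 + v 5 + v 6 + v 7 :=
      Int.dvd_of_emod_eq_zero h2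
    apply Int.emod_eq_zero_of_dvd
    refine ⟨(a + b + c + d) * s - ((b + c) * (v 0 + t1 + t5) + (c + d) * (v 0 + t2 + t6) +
      (b + d) * (v 0 + t3 + t7)), ?_⟩
    rw [S3b_mulVec, Fin.sum_univ_eight]
    simp
    linear_combination (a + b + c + d) * hs - 2 * (b + c) * (e1 + e5) - 2 * (c + d) * (e2 + e6) -
      2 * (b + d) * (e3 + e7)

theorem LqT_InE (a b c d : ℤ) {v : Fin 8 → ℤ} (hv : InE v) : InE ((Lq a b c d).transpose.mulVec v) := by
  rw [S3b_transpose]
  exact Lq_InE _ _ _ _ hv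

theorem Lq_norm (a b c d : ℤ) (v : Fin 8 → ℤ) : ∑ i, (Lq a b c d).mulVec v i ^ 2 =
    (a ^ 2 + b ^ 2 + c ^ 2 + d ^ 2) * ∑ i, v i ^ 2 := by
  rw [S3b_mulVec, Fin.sum_univ_eight, Fin.sum_univ_eight]
  simp
  ring

/-- Modulo an odd prime `l = a² + b² + c² + d²` with `0 < a`: `(L^T)^N v ≡ 0` iff `L^T v ≡ 0` (as
`(L^T)² ≡ 2 a L^T`, `a < l`, `l` odd), for `N ≥ 1`. -/
theorem pow_dvd_iff {l a b c d : ℤ} (hl : Prime l) (h2 : ¬ l ∣ 2 * a)
    (hs : a ^ 2 + b ^ 2 + c ^ 2 + d ^ 2 = l) {N : ℕ} (hN : 0 < N) (v : Fin 8 → ℤ) :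
    (∀ i, l ∣ ((Lq a b c d).transpose ^ N).mulVec v i) ↔ ∀ i, l ∣ (Lq a b c d).transpose.mulVec v i := by
  have step : ∀ n : ℕ, (∀ i, l ∣ ((Lq a b c d).transpose ^ (n + 2)).mulVec v i) ↔
      ∀ i, l ∣ ((Lq a b c d).transpose ^ (n + 1)).mulVec v i := by
    intro n
    apply forall_congr'
    intro i
    have e : ((Lq a b c d).transpose ^ (n + 2)).mulVec v i =
        2 * a * ((Lq a b c d).transpose ^ (n + 1)).mulVec v i -
          l * ((Lq a b c d).transpose ^ n).mulVec v i := by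
      have h : (Lq a b c d).transpose ^ (n + 2) = (2 * a) • (Lq a b c d).transpose ^ (n + 1) -
          l • (Lq a b c d).transpose ^ n := by
        rw [pow_add _ n 2, pow_two, Lq_sq, hs, mul_sub, mul_smul_comm, mul_smul_comm, mul_one,
          ← pow_succ]
      rw [h, Matrix.sub_mulVec, Matrix.smul_mulVec, Matrix.smul_mulVec]
      rfl
    rw [e]
    constructor
    · intro h
      have h3 : l ∣ 2 * a * ((Lq a b c d).transpose ^ (n + 1)).mulVec v i :=
        (dvd_sub_left (Dvd.intro _ rfl)).1 h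
      exact (hl.dvd_or_dvd h3).resolve_left h2
    · intro h
      exact (dvd_sub_left (Dvd.intro _ rfl)).2 (h.mul_left _)
  have main : ∀ n : ℕ, (∀ i, l ∣ ((Lq a b c d).transpose ^ (n + 1)).mulVec v i) ↔
      ∀ i, l ∣ (Lq a b c d).transpose.mulVec v i := by
    intro n
    induction n with
    | zero => rw [zero_add, pow_one]
    | succ k ih => rw [step k, ih]
  obtain ⟨n, rfl⟩ : ∃ n, N = n + 1 := ⟨N - 1, by omega⟩
  exact main n

/-- The vectors `v` of the shell with `L^T v ≡ 0 mod l` are the `L w`, `w` in the shell of `m / l`. -/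
theorem card_ker {l : ℕ} (hl : l.Prime) (h2 : l ≠ 2) {a b c d : ℤ} (hs : a ^ 2 + b ^ 2 + c ^ 2 + d ^ 2 = l)
    (m : ℕ) :
    ((shell m).filter (fun v => ∀ i, (l : ℤ) ∣ (Lq a b c d).transpose.mulVec v i)).card =
      if l ∣ m then (shell (m / l)).card else 0 := by
  classical
  have hl0 : (l : ℤ) ≠ 0 := by exact_mod_cast hl.ne_zero
  have hodd : (l : ℤ) % 2 = 1 := by
    have h := hl.eq_two_or_odd
    omega
  have hLLT : ∀ w : Fin 8 → ℤ, (Lq a b c d).mulVec ((Lq a b c d).transpose.mulVec w) = (l : ℤ) • w := by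
    intro w
    rw [Matrix.mulVec_mulVec, Lq_mul_transpose, hs, Matrix.smul_mulVec, Matrix.one_mulVec]
  have hLTL : ∀ w : Fin 8 → ℤ, (Lq a b c d).transpose.mulVec ((Lq a b c d).mulVec w) = (l : ℤ) • w := by
    intro w
    rw [Matrix.mulVec_mulVec, Lq_transpose_mul, hs, Matrix.smul_mulVec, Matrix.one_mulVec]
  have hinj : Function.Injective (fun w : Fin 8 → ℤ => (Lq a b c d).mulVec w) := by
    intro w w' h
    have h1 := congrArg (fun u => (Lq a b c d).transpose.mulVec u) h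
    simp only [hLTL] at h1
    funext i
    have h3 : (l : ℤ) * w i = (l : ℤ) * w' i := congrFun h1 i
    exact mul_left_cancel₀ hl0 h3
  -- description of the members
  have hmem : ∀ v ∈ shell m, (∀ i, (l : ℤ) ∣ (Lq a b c d).transpose.mulVec v i) →
      l ∣ m ∧ ∃ w ∈ shell (m / l), (Lq a b c d).mulVec w = v := by
    intro v hv hd
    rw [mem_shell] at hv
    choose w hw using hd
    have hw' : (Lq a b c d).transpose.mulVec v = (l : ℤ) • w := by
      funext i
      exact hw i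
    have hv' : (Lq a b c d).mulVec w = v := by
      have h1 := hLLT v
      rw [hw', Matrix.mulVec_smul] at h1
      funext i
      exact mul_left_cancel₀ hl0 (congrFun h1 i)
    have hwE : InE w := by
      have hE := LqT_InE a b c d hv.1
      rw [hw'] at hE
      obtain ⟨g1, g2⟩ := hE
      constructor
      · intro i j
        have h := g1 i j
        simp only [Pi.smul_apply, smul_eq_mul] at h
        rw [Int.mul_emod, Int.mul_emod (l : ℤ) (w j), hodd] at h
        omega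
      · simp only [Pi.smul_apply, smul_eq_mul] at g2
        rw [← Finset.mul_sum] at g2
        have h4 : (4 : ℤ) ∣ (l : ℤ) * ∑ i, w i := Int.dvd_of_emod_eq_zero g2
        obtain ⟨k, hk⟩ : ∃ k : ℤ, (l : ℤ) = 2 * k + 1 := ⟨(l : ℤ) / 2, by omega⟩
        have hco : IsCoprime (4 : ℤ) (l : ℤ) := ⟨-(k ^ 2 + k), l, by rw [hk]; ring⟩
        exact Int.emod_eq_zero_of_dvd (hco.dvd_of_dvd_mul_left h4)
    have hn : (8 : ℤ) * m = l * ∑ i, w i ^ 2 := by
      rw [← hv.2, ← hv', Lq_norm, hs]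
    have hlm : l ∣ m := by
      have h5 : (l : ℤ) ∣ 8 * (m : ℤ) := ⟨_, hn⟩
      have h6 : l ∣ 8 * m := by exact_mod_cast h5
      have h7 : Nat.Coprime l 8 := by
        rw [show (8 : ℕ) = 2 ^ 3 by norm_num]
        apply Nat.Coprime.pow_right
        exact (Nat.coprime_primes hl Nat.prime_two).2 h2
      exact h7.dvd_of_dvd_mul_left h6
    refine ⟨hlm, w, ?_, hv'⟩
    rw [mem_shell]
    refine ⟨hwE, ?_⟩
    obtain ⟨m', rfl⟩ := hlm
    rw [Nat.mul_div_cancel_left m' hl.pos]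
    push_cast at hn
    apply mul_left_cancel₀ hl0
    linear_combination - hn
  by_cases hlm : l ∣ m
  · rw [if_pos hlm, ← Finset.card_image_of_injective (shell (m / l)) hinj]
    congr 1
    ext v
    rw [Finset.mem_filter, Finset.mem_image]
    constructor
    · rintro ⟨hv, hd⟩
      exact (hmem v hv hd).2
    · rintro ⟨w, hw, rfl⟩
      rw [mem_shell] at hw
      refine ⟨?_, ?_⟩
      · rw [mem_shell]
        refine ⟨Lq_InE a b c d hw.1, ?_⟩
        rw [Lq_norm, hs, hw.2]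
        obtain ⟨m', rfl⟩ := hlm
        rw [Nat.mul_div_cancel_left m' hl.pos]
        push_cast
        ring
      · intro i
        rw [hLTL]
        exact Dvd.intro _ rfl
  · rw [if_neg hlm, Finset.card_eq_zero, Finset.eq_empty_iff_forall_notMem]
    intro v hv
    rw [Finset.mem_filter] at hv
    exact hlm (hmem v hv.1 hv.2).1

end E8X
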