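import Pool.Agent.E8X.S3

/-!
# [E8X-S4] the main congruence for the number of vectors of a design shell
-/

set_option autoImplicit false

open Pool.Agent.MP130199 (V8 sm8 shell IsDesign)

namespace E8X

theorem s4_prod_dvd {ι : Type} (s : Finset ι) (f g : ι → ℤ) (m : ℤ) (h : ∀ i ∈ s, m ∣ f i - g i) :
    m ∣ ∏ i ∈ s, f i - ∏ i ∈ s, g i := by
  classical
  induction s using Finset.induction with
  | empty => simp
  | insert a s ha ih =>
    rw [Finset.prod_insert ha, Finset.prod_insert ha]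
    have h1 := ih fun i hi => h i (Finset.mem_insert_of_mem hi)
    have h2 := h a (Finset.mem_insert_self a s)
    have h3 : f a * ∏ i ∈ s, f i - g a * ∏ i ∈ s, g i =
        (f a - g a) * ∏ i ∈ s, f i + g a * (∏ i ∈ s, f i - ∏ i ∈ s, g i) := by ring
    rw [h3]
    exact dvd_add (h2.mul_right _) (h1.mul_left _)

theorem s4_sum_dvd {ι : Type} (s : Finset ι) (f g : ι → ℤ) (m : ℤ) (h : ∀ i ∈ s, m ∣ f i - g i) :
    m ∣ ∑ i ∈ s, f i - ∑ i ∈ s, g i := by
  rw [← Finset.sum_sub_distrib]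
  exact Finset.dvd_sum h

/-- four squares with the first one positive -/
theorem s4_four {l : ℕ} (hl : l.Prime) (h2 : l ≠ 2) : ∃ a b c d : ℤ,
    a ^ 2 + b ^ 2 + c ^ 2 + d ^ 2 = l ∧ ¬ (l : ℤ) ∣ 2 * a := by
  obtain ⟨a, b, c, d, h⟩ := Nat.sum_four_squares l
  have hl0 : 0 < l := hl.pos
  have key : ∀ x y : ℕ, 0 < x → x ^ 2 + y = l → ¬ (l : ℤ) ∣ 2 * (x : ℤ) := by
    intro x y hx hxy hd
    have h3 : l ∣ 2 * x := by exact_mod_cast hd
    rcases hl.dvd_mul.1 h3 with h4 | h4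
    · exact h2 ((Nat.prime_dvd_prime_iff_eq hl Nat.prime_two).1 h4)
    · have h5 := Nat.le_of_dvd hx h4
      have h6 := hl.two_le
      nlinarith
  by_cases ha : 0 < a
  · refine ⟨a, b, c, d, by exact_mod_cast h, key a (b ^ 2 + c ^ 2 + d ^ 2) ha (by omega)⟩
  · by_cases hb : 0 < b
    · refine ⟨b, a, c, d, ?_, key b (a ^ 2 + c ^ 2 + d ^ 2) hb (by omega)⟩
      have h3 : b ^ 2 + a ^ 2 + c ^ 2 + d ^ 2 = l := by omega
      exact_mod_cast h3
    · by_cases hc : 0 < c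
      · refine ⟨c, a, b, d, ?_, key c (a ^ 2 + b ^ 2 + d ^ 2) hc (by omega)⟩
        have h3 : c ^ 2 + a ^ 2 + b ^ 2 + d ^ 2 = l := by omega
        exact_mod_cast h3
      · have ha0 : a = 0 := by omega
        have hb0 : b = 0 := by omega
        have hc0 : c = 0 := by omega
        have hd0 : 0 < d := by
          rcases Nat.eq_zero_or_pos d with h5 | h5
          · subst ha0 hb0 hc0 h5
            omega
          · exact h5
        refine ⟨d, a, b, c, ?_, key d (a ^ 2 + b ^ 2 + c ^ 2) hd0 (by omega)⟩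
        have h3 : d ^ 2 + a ^ 2 + b ^ 2 + c ^ 2 = l := by omega
        exact_mod_cast h3

theorem s4_M {l a b c d : ℤ} (hs : a ^ 2 + b ^ 2 + c ^ 2 + d ^ 2 = l) (N : ℕ) :
    (Lq a b c d).transpose ^ N * ((Lq a b c d).transpose ^ N).transpose =
      (l ^ N) • (1 : Matrix (Fin 8) (Fin 8) ℤ) := by
  have h1 := Lq_mul_transpose a b c d
  have h2 := Lq_transpose_mul a b c d
  rw [hs] at h1 h2
  rw [Matrix.transpose_pow, Matrix.transpose_transpose]
  have hc : Commute (Lq a b c d).transpose (Lq a b c d) := by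
    rw [Commute, SemiconjBy, h1, h2]
  rw [← hc.mul_pow, h2, smul_pow, one_pow]

theorem s4_K {l N : ℕ} (hl : 2 ≤ l) (hN : 0 < N) : ∃ K, 0 < K ∧ N ≤ K * (l - 1) ∧
    (l - 1) * (N + K - 1) ≤ l * N := by
  obtain ⟨q, rfl⟩ : ∃ q, l = q + 1 := ⟨l - 1, by omega⟩
  have hq : 0 < q := by omega
  obtain ⟨n, rfl⟩ : ∃ n, N = n + 1 := ⟨N - 1, by omega⟩
  refine ⟨n / q + 1, Nat.succ_pos _, ?_, ?_⟩
  · rw [Nat.add_sub_cancel]
    have := Nat.div_add_mod n q
    have h2 := Nat.mod_lt n hq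
    nlinarith
  · rw [Nat.add_sub_cancel]
    have h1 := Nat.div_mul_le_self n q
    have h3 : n + 1 + (n / q + 1) - 1 = n + 1 + n / q := by
      generalize n / q = x
      omega
    rw [h3]
    nlinarith

/-- If `S_m` is a `t`-design, `l` an odd prime and `8 l N ≤ t` then `|S_m| ≡ |S_{m/l}| mod l^N`.
Proof. `N ≥ 1`. Write `l = a² + b² + c² + d²` with `a ≠ 0` (`Nat.sum_four_squares`, reorder), so `l ∤ 2a`
(`0 < |a| < l`). `L = Lq a b c d`, `M = (L^T)^N`: `M M^T = l^N`. Let `K` be the least integer with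
`N ≤ K (l-1)`; then `(l-1) (N + K - 1) ≤ l N`. `B` from `bpoly`. Expand
`∑_{v ∈ shell m} ∏_i B.eval ((M v)_i^(l-1))` into monomials (`Polynomial.eval_eq_sum_range`,
`Finset.prod_univ_sum`): `∑_{e} (∏ B.coeff (e i)) ∑_v ∏ ((M v)_i)^((l-1) e_i)`, `e i ≤ B.natDegree ≤ N + K - 1`;
the degree `(l-1) ∑ e i` is even and at most `8 l N ≤ t`; by `design_sim` the monomials with `e ≠ 0` are
divisible by `(l^N)^k` with `k ≥ 1`; `e = 0` gives `B.coeff 0 ^ 8 * |S_m|`, `B.coeff 0 = 1`. On the other hand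
every factor is `0` or `1` mod `l^N` by `bpoly_eval`, so the sum is `≡ #{v : ∀ i, l ∣ (M v)_i}`, and
`pow_dvd_iff`, `card_ker`. -/
theorem main_congr {m t l N : ℕ} (hd : IsDesign m t) (hl : l.Prime) (h2 : l ≠ 2) (ht : 8 * l * N ≤ t) :
    (l : ℤ) ^ N ∣ ((shell m).card : ℤ) - (if l ∣ m then ((shell (m / l)).card : ℤ) else 0) := by
  classical
  rcases Nat.eq_zero_or_pos N with hN | hN
  · subst hN
    simp
  obtain ⟨a, b, c, d, hs, hd2⟩ := s4_four hl h2
  obtain ⟨K, hK, hK1, hK2⟩ := s4_K hl.two_le hN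
  obtain ⟨B, hB1, hB2, hB3⟩ := bpoly (N := N) (K := K) hN hK
  set M := (Lq a b c d).transpose ^ N with hMdef
  have hM : M * M.transpose = ((l ^ N : ℕ) : ℤ) • (1 : Matrix (Fin 8) (Fin 8) ℤ) := by
    rw [hMdef, s4_M hs N]
    push_cast
    rfl
  have hB0 : B.coeff 0 = 1 := by
    obtain ⟨R, hR⟩ := hB3
    have h3 : (B - 1).coeff 0 = 0 := by
      rw [hR, Polynomial.coeff_X_pow_mul']
      rw [if_neg (by omega)]
    rw [Polynomial.coeff_sub, Polynomial.coeff_one_zero] at h3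
    linarith
  -- the sum
  have hexp : ∀ v : Fin 8 → ℤ, ∏ i, B.eval ((M.mulVec v i) ^ (l - 1)) =
      ∑ e ∈ Fintype.piFinset (fun _ : Fin 8 => Finset.range (N + K)),
        (∏ i, B.coeff (e i)) * ∏ i, (M.mulVec v i) ^ ((l - 1) * e i) := by
    intro v
    have h3 : ∀ i : Fin 8, B.eval ((M.mulVec v i) ^ (l - 1)) =
        ∑ r ∈ Finset.range (N + K), B.coeff r * (M.mulVec v i) ^ ((l - 1) * r) := by
      intro i
      rw [Polynomial.eval_eq_sum_range' hB1]
      refine Finset.sum_congr rfl fun r _ => ?_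
      rw [← pow_mul]
    simp only [h3]
    rw [Finset.prod_univ_sum]
    refine Finset.sum_congr rfl fun e _ => ?_
    rw [Finset.prod_mul_distrib]
  have hS : ∑ v ∈ shell m, ∏ i, B.eval ((M.mulVec v i) ^ (l - 1)) =
      ∑ e ∈ Fintype.piFinset (fun _ : Fin 8 => Finset.range (N + K)),
        (∏ i, B.coeff (e i)) * ∑ v ∈ shell m, ∏ i, (M.mulVec v i) ^ ((l - 1) * e i) := by
    simp only [hexp]
    rw [Finset.sum_comm]
    refine Finset.sum_congr rfl fun e _ => ?_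
    rw [Finset.mul_sum]
  have hodd : l % 2 = 1 := by
    rcases hl.eq_two_or_odd with h3 | h3
    · exact absurd h3 h2
    · exact h3
  obtain ⟨h, hh⟩ : ∃ h, l - 1 = 2 * h := ⟨(l - 1) / 2, by omega⟩
  have hh0 : 0 < h := by
    have := hl.two_le
    omega
  have hterm : ∀ e ∈ Fintype.piFinset (fun _ : Fin 8 => Finset.range (N + K)), e ≠ 0 →
      (l : ℤ) ^ N ∣ (∏ i, B.coeff (e i)) * ∑ v ∈ shell m, ∏ i, (M.mulVec v i) ^ ((l - 1) * e i) := by
    intro e he hne
    have he' : ∀ i, e i ≤ N + K - 1 := by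
      intro i
      have := Finset.mem_range.1 (Fintype.mem_piFinset.1 he i)
      omega
    have hsum : ∑ i, (l - 1) * e i = 2 * (h * ∑ i, e i) := by
      rw [← Finset.mul_sum, hh, mul_assoc]
    have hle : ∑ i, e i ≤ 8 * (N + K - 1) := by
      have h3 := Finset.sum_le_card_nsmul Finset.univ e (N + K - 1) (fun i _ => he' i)
      rw [Finset.card_univ, Fintype.card_fin, smul_eq_mul] at h3
      exact h3
    have hle2 : 2 * (h * ∑ i, e i) ≤ t := by
      rw [← mul_assoc, ← hh]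
      have h3 := Nat.mul_le_mul_left (l - 1) hle
      have h4 : (l - 1) * (8 * (N + K - 1)) = 8 * ((l - 1) * (N + K - 1)) := by ring
      have h5 : 8 * ((l - 1) * (N + K - 1)) ≤ 8 * (l * N) := Nat.mul_le_mul_left 8 hK2
      have h6 : 8 * (l * N) = 8 * l * N := by ring
      omega
    have hsim := design_sim hd M (n := l ^ N) (pow_pos hl.pos N) hM (fun i => (l - 1) * e i)
      (k := h * ∑ i, e i) hsum hle2
    rw [hsim]
    have hpos : 0 < h * ∑ i, e i := by
      refine Nat.mul_pos hh0 ?_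
      rw [Nat.pos_iff_ne_zero]
      intro h3
      apply hne
      funext i
      exact (Finset.sum_eq_zero_iff.1 h3) i (Finset.mem_univ i)
    refine Dvd.dvd.mul_left (Dvd.dvd.mul_right ?_ _) _
    push_cast
    exact dvd_pow_self _ hpos.ne'
  have hzero : (0 : Fin 8 → ℕ) ∈ Fintype.piFinset (fun _ : Fin 8 => Finset.range (N + K)) := by
    rw [Fintype.mem_piFinset]
    intro i
    exact Finset.mem_range.2 (by simp; omega)
  have h1 : (l : ℤ) ^ N ∣ ∑ v ∈ shell m, ∏ i, B.eval ((M.mulVec v i) ^ (l - 1)) -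
      ((shell m).card : ℤ) := by
    rw [hS, ← Finset.add_sum_erase _ _ hzero]
    have h3 : (∏ i : Fin 8, B.coeff ((0 : Fin 8 → ℕ) i)) *
        ∑ v ∈ shell m, ∏ i, (M.mulVec v i) ^ ((l - 1) * (0 : Fin 8 → ℕ) i) = ((shell m).card : ℤ) := by
      simp [hB0]
    rw [h3, add_sub_cancel_left]
    refine Finset.dvd_sum fun e he => ?_
    exact hterm e (Finset.mem_of_mem_erase he) (Finset.ne_of_mem_erase he)
  have h3 : (l : ℤ) ^ N ∣ ∑ v ∈ shell m, ∏ i, B.eval ((M.mulVec v i) ^ (l - 1)) -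
      ∑ v ∈ shell m, ∏ i, (if (l : ℤ) ∣ M.mulVec v i then (1 : ℤ) else 0) := by
    refine s4_sum_dvd _ _ _ _ fun v _ => ?_
    refine s4_prod_dvd _ _ _ _ fun i _ => ?_
    exact bpoly_eval hl hK1 hB2 hB3 _
  have hprimeZ : Prime (l : ℤ) := Nat.prime_iff_prime_int.1 hl
  have h4 : ∑ v ∈ shell m, ∏ i, (if (l : ℤ) ∣ M.mulVec v i then (1 : ℤ) else 0) =
      (if l ∣ m then ((shell (m / l)).card : ℤ) else 0) := by
    have h5 : ∀ v : Fin 8 → ℤ, ∏ i, (if (l : ℤ) ∣ M.mulVec v i then (1 : ℤ) else 0) =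
        if (∀ i, (l : ℤ) ∣ (Lq a b c d).transpose.mulVec v i) then 1 else 0 := by
      intro v
      by_cases h6 : ∀ i, (l : ℤ) ∣ (Lq a b c d).transpose.mulVec v i
      · rw [if_pos h6]
        have h7 := (pow_dvd_iff hprimeZ hd2 hs hN v).2 h6
        exact Finset.prod_eq_one fun i _ => by rw [if_pos (h7 i)]
      · rw [if_neg h6]
        have h7 : ¬ ∀ i, (l : ℤ) ∣ M.mulVec v i := fun h8 =>
          h6 ((pow_dvd_iff hprimeZ hd2 hs hN v).1 h8)
        push Not at h7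
        obtain ⟨i, hi⟩ := h7
        exact Finset.prod_eq_zero (Finset.mem_univ i) (by rw [if_neg hi])
    simp only [h5]
    rw [Finset.sum_ite, Finset.sum_const_zero, add_zero, Finset.sum_const, nsmul_eq_mul, mul_one,
      card_ker hl h2 hs m]
    split_ifs <;> simp
  rw [h4] at h3
  have h5 := dvd_sub h3 h1
  have h6 : ∑ v ∈ shell m, ∏ i, B.eval ((M.mulVec v i) ^ (l - 1)) -
      (if l ∣ m then ((shell (m / l)).card : ℤ) else 0) -
      (∑ v ∈ shell m, ∏ i, B.eval ((M.mulVec v i) ^ (l - 1)) - ((shell m).card : ℤ)) =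
      ((shell m).card : ℤ) - (if l ∣ m then ((shell (m / l)).card : ℤ) else 0) := by ring
  rw [h6] at h5
  exact h5

end E8X
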