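import Pool.Agent.E8X.S4

/-!
# [E8X-S5] the strength is `O(log m / log log m)`
-/

set_option autoImplicit false

open Pool.Agent.MP130199 (V8 sm8 shell IsDesign)

namespace E8X

/-- From `|S_m| = 240 σ₃(m)` and `main_congr`: with `m = l^a m'`, `l ∤ m'`, `|S_m| - |S_{m/l}| = 240 l^(3a) σ₃(m')`
divides `240 m³ σ₃(m)`. -/
theorem dvd_prod {m t l : ℕ} (hm : 0 < m)
    (hcard : ∀ n : ℕ, 0 < n → (shell n).card = 240 * ArithmeticFunction.sigma 3 n)
    (hd : IsDesign m t) (hl : l.Prime) (h2 : l ≠ 2) :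
    l ^ (t / 8 / l) ∣ 240 * m ^ 3 * ArithmeticFunction.sigma 3 m := by
  have ht : 8 * l * (t / 8 / l) ≤ t := by
    calc 8 * l * (t / 8 / l) = 8 * (l * (t / 8 / l)) := by ring
      _ ≤ 8 * (t / 8) := Nat.mul_le_mul_left _ (Nat.mul_div_le _ _)
      _ ≤ t := Nat.mul_div_le _ _
  have h := main_congr hd hl h2 ht
  generalize t / 8 / l = N at h
  rw [hcard m hm] at h
  by_cases hlm : l ∣ m
  · rw [if_pos hlm, hcard (m / l) (Nat.div_pos (Nat.le_of_dvd hm hlm) hl.pos)] at h
    obtain ⟨a, m', hm', rfl⟩ := Nat.exists_eq_pow_mul_and_not_dvd hm.ne' l hl.ne_one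
    obtain ⟨b, rfl⟩ : ∃ b, a = b + 1 := by
      rcases a with _ | b
      · exact absurd (by simpa using hlm) hm'
      · exact ⟨b, rfl⟩
    have hcop : ∀ c, Nat.Coprime (l ^ c) m' := fun c =>
      Nat.Coprime.pow_left _ ((Nat.Prime.coprime_iff_not_dvd hl).2 hm')
    have e1 : l ^ (b + 1) * m' / l = l ^ b * m' := by
      rw [pow_succ, mul_assoc, mul_comm l m', ← mul_assoc]
      exact Nat.mul_div_cancel _ hl.pos
    have hmul := ArithmeticFunction.isMultiplicative_sigma (k := 3)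
    have e2 : ∀ c, ArithmeticFunction.sigma 3 (l ^ c * m') =
        (∑ j ∈ Finset.range (c + 1), l ^ (j * 3)) * ArithmeticFunction.sigma 3 m' := by
      intro c
      rw [hmul.map_mul_of_coprime (hcop c), ArithmeticFunction.sigma_apply_prime_pow hl]
    have e3 : ((240 * ArithmeticFunction.sigma 3 (l ^ (b + 1) * m') : ℕ) : ℤ) -
        ((240 * ArithmeticFunction.sigma 3 (l ^ (b + 1) * m' / l) : ℕ) : ℤ) =
        ((240 * (l ^ (3 * (b + 1)) * ArithmeticFunction.sigma 3 m') : ℕ) : ℤ) := by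
      rw [e1, e2, e2, Finset.sum_range_succ]
      push_cast
      rw [mul_comm 3 (b + 1)]
      ring
    rw [e3] at h
    have h' : l ^ N ∣ 240 * (l ^ (3 * (b + 1)) * ArithmeticFunction.sigma 3 m') := by
      exact_mod_cast h
    refine h'.trans ?_
    rw [mul_assoc]
    refine Nat.mul_dvd_mul_left _ (Nat.mul_dvd_mul ?_ ?_)
    · rw [mul_pow, ← pow_mul, mul_comm (b + 1) 3]
      exact Dvd.intro _ rfl
    · rw [hmul.map_mul_of_coprime (hcop (b + 1))]
      exact Dvd.intro_left _ rfl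
  · rw [if_neg hlm, sub_zero] at h
    have h' : l ^ N ∣ 240 * ArithmeticFunction.sigma 3 m := by exact_mod_cast h
    refine h'.trans ?_
    rw [mul_assoc]
    exact Nat.mul_dvd_mul_left _ (Dvd.intro_left _ rfl)

theorem S5b_le {p : ℕ} (hp : p.Prime) (n : ℕ) : (p - 1) * padicValNat p n.factorial ≤ n := by
  have : Fact p.Prime := ⟨hp⟩
  rw [sub_one_mul_padicValNat_factorial]
  exact Nat.sub_le _ _

theorem S5b_odd {p : ℕ} (hp : p.Prime) (h2 : p ≠ 2) (T : ℕ) : 2 * padicValNat p T.factorial ≤ 3 * (T / p) := by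
  have : Fact p.Prime := ⟨hp⟩
  have h1 := padicValNat_mul_div_factorial (p := p) T
  have h3 := padicValNat_factorial_mul (p := p) (T / p)
  have h4 := S5b_le hp (T / p)
  have h5 : 2 ≤ p - 1 := by
    have := hp.two_le
    omega
  have h6 : 2 * padicValNat p (T / p).factorial ≤ T / p := (Nat.mul_le_mul_right _ h5).trans h4
  omega

/-- `v_l(T!) ≤ ⌊T/l⌋ + v_l(⌊T/l⌋!)` and `(l - 1) v_l(n!) ≤ n`, so `2 v_l(T!) ≤ 3 ⌊T/l⌋` for odd `l`, and `v_2(T!) ≤ T`. -/
theorem fact_sq_dvd {T Z : ℕ} (h : ∀ l : ℕ, l.Prime → l ≠ 2 → l ^ (T / l) ∣ Z) :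
    (T.factorial) ^ 2 ∣ 4 ^ T * Z ^ 3 := by
  by_cases hZ : Z = 0
  · rw [hZ]
    simp
  have hT : T.factorial ≠ 0 := Nat.factorial_ne_zero T
  have hne : 4 ^ T * Z ^ 3 ≠ 0 := mul_ne_zero (pow_ne_zero _ (by norm_num)) (pow_ne_zero _ hZ)
  rw [← Nat.factorization_le_iff_dvd (pow_ne_zero _ hT) hne]
  intro p
  by_cases hp : p.Prime
  · have : Fact p.Prime := ⟨hp⟩
    rw [Nat.factorization_pow, Nat.factorization_mul (pow_ne_zero _ (by norm_num)) (pow_ne_zero _ hZ),
      Nat.factorization_pow, Nat.factorization_pow]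
    simp only [Finsupp.smul_apply, Finsupp.add_apply, smul_eq_mul]
    rw [Nat.factorization_def _ hp, Nat.factorization_def _ hp, Nat.factorization_def _ hp]
    by_cases h2 : p = 2
    · subst h2
      have h3 := S5b_le hp T
      have h4 : padicValNat 2 4 = 2 := by
        have h5 : (4 : ℕ) = 2 ^ 2 := by norm_num
        rw [h5, padicValNat.prime_pow]
      rw [h4]
      omega
    · have h3 := S5b_odd hp h2 T
      have h4 : T / p ≤ padicValNat p Z := (padicValNat_dvd_iff_le hZ).1 (h p hp h2)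
      omega
  · rw [Nat.factorization_eq_zero_of_not_prime _ hp]
    exact Nat.zero_le _

theorem E8XS5c_sigma (m : ℕ) : ArithmeticFunction.sigma 3 m ≤ m ^ 4 := by
  rw [ArithmeticFunction.sigma_apply]
  calc ∑ d ∈ m.divisors, d ^ 3 ≤ ∑ d ∈ m.divisors, m ^ 3 :=
        Finset.sum_le_sum fun d hd => Nat.pow_le_pow_left (Nat.divisor_le hd) 3
    _ = m.divisors.card * m ^ 3 := by rw [Finset.sum_const, smul_eq_mul]
    _ ≤ m * m ^ 3 := Nat.mul_le_mul_right _ (Nat.card_divisors_le_self m)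
    _ = m ^ 4 := by ring

theorem E8XS5c_nat {m : ℕ} (hm : 3 ≤ m) :
    (240 * m ^ 3 * ArithmeticFunction.sigma 3 m) ^ 3 ≤ m ^ 36 := by
  have h0 : 240 ≤ m ^ 5 := le_trans (by norm_num) (Nat.pow_le_pow_left hm 5)
  have h1 : 240 * m ^ 3 * ArithmeticFunction.sigma 3 m ≤ m ^ 12 := by
    calc 240 * m ^ 3 * ArithmeticFunction.sigma 3 m ≤ m ^ 5 * m ^ 3 * m ^ 4 :=
          Nat.mul_le_mul (Nat.mul_le_mul_right _ h0) (E8XS5c_sigma m)
      _ = m ^ 12 := by ring
  calc (240 * m ^ 3 * ArithmeticFunction.sigma 3 m) ^ 3 ≤ (m ^ 12) ^ 3 := Nat.pow_le_pow_left h1 3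
    _ = m ^ 36 := by ring

theorem E8XS5c_log {m T : ℕ} (hT : 0 < T) (h : (T.factorial) ^ 2 ≤ 4 ^ T * m ^ 36) :
    (T : ℝ) * (Real.log T - 1 - Real.log 2) ≤ 18 * Real.log m := by
  have hm0 : 0 < m := by
    rcases Nat.eq_zero_or_pos m with h0 | h0
    · rw [h0, zero_pow (by norm_num), mul_zero] at h
      have h1 : 0 < (T.factorial) ^ 2 := by positivity
      omega
    · exact h0
  have hf : (0 : ℝ) < T.factorial := by exact_mod_cast T.factorial_pos
  have hm0' : (0 : ℝ) < m := by exact_mod_cast hm0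
  have hT' : (0 : ℝ) < T := by exact_mod_cast hT
  have h1 : ((T.factorial : ℝ)) ^ 2 ≤ 4 ^ T * (m : ℝ) ^ 36 := by exact_mod_cast h
  have h2 : (T : ℝ) ^ T / T.factorial ≤ Real.exp T :=
    Real.pow_div_factorial_le_exp (T : ℝ) hT'.le T
  have h3 : (T : ℝ) ^ T ≤ Real.exp T * T.factorial := by
    rwa [div_le_iff₀ hf] at h2
  have h4 : (T : ℝ) * Real.log T ≤ T + Real.log T.factorial := by
    have h6 := Real.log_le_log (by positivity) h3
    rwa [Real.log_pow, Real.log_mul (Real.exp_pos _).ne' hf.ne', Real.log_exp] at h6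
  have h5 : 2 * Real.log T.factorial ≤ T * Real.log 4 + 36 * Real.log m := by
    have h6 := Real.log_le_log (by positivity) h1
    rw [Real.log_pow, Real.log_mul (by positivity) (by positivity), Real.log_pow, Real.log_pow] at h6
    push_cast at h6
    exact h6
  have h6 : Real.log 4 = 2 * Real.log 2 := by
    rw [show (4 : ℝ) = 2 ^ 2 by norm_num, Real.log_pow]
    push_cast
    ring
  rw [h6] at h5
  linarith

/-- Elementary estimates: `σ₃(m) ≤ m⁴`, so `(T!)² ≤ 4^T m^36`, `T! ≥ (T/e)^T`. -/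
theorem final_bound {m T : ℕ} (hm : 3 ≤ m)
    (h : (T.factorial) ^ 2 ≤ 4 ^ T * (240 * m ^ 3 * ArithmeticFunction.sigma 3 m) ^ 3) :
    (8 * (T : ℝ) + 8) ≤ 296 * (Real.log m / Real.log (Real.log m)) := by
  have hm' : (3 : ℝ) ≤ m := by exact_mod_cast hm
  have he3 : Real.exp 1 < 3 := lt_trans Real.exp_one_lt_d9 (by norm_num)
  have hL1 : 1 < Real.log m := by
    rw [Real.lt_log_iff_exp_lt (by linarith)]
    linarith
  have hlog := fun hT : 0 < T => E8XS5c_log (m := m) hT
    (h.trans (Nat.mul_le_mul_left _ (E8XS5c_nat hm)))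
  generalize Real.log (m : ℝ) = L at hL1 hlog ⊢
  have hL0 : 0 < L := by linarith
  have hl0 : 0 < Real.log L := Real.log_pos hL1
  have hlL : Real.log L ≤ L := by
    have := Real.log_le_sub_one_of_pos hL0
    linarith
  have hsq : 0 < Real.sqrt L := Real.sqrt_pos.2 hL0
  have h1 : Real.log L = 2 * Real.log (Real.sqrt L) := by
    rw [Real.log_sqrt hL0.le]
    ring
  have hs : Real.log L ≤ 2 * Real.sqrt L := by
    have h2 := Real.log_le_sub_one_of_pos hsq
    linarith
  have key : (T : ℝ) * Real.log L ≤ 36 * L := by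
    by_cases hT : (T : ℝ) ≤ 6 * Real.sqrt L
    · have h3 := Real.mul_self_sqrt hL0.le
      calc (T : ℝ) * Real.log L ≤ (6 * Real.sqrt L) * (2 * Real.sqrt L) :=
            mul_le_mul hT hs hl0.le (by positivity)
        _ = 12 * (Real.sqrt L * Real.sqrt L) := by ring
        _ = 12 * L := by rw [h3]
        _ ≤ 36 * L := by linarith
    · rw [not_le] at hT
      have hT0' : (0 : ℝ) < T := lt_trans (by positivity) hT
      have hT0 : 0 < T := by exact_mod_cast hT0'
      have h4 := hlog hT0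
      have h5 : Real.log 6 + Real.log (Real.sqrt L) ≤ Real.log T := by
        rw [← Real.log_mul (by norm_num) hsq.ne']
        exact Real.log_le_log (by positivity) hT.le
      have h6 : 1 + Real.log 2 ≤ Real.log 6 := by
        have h7 : Real.log 6 = Real.log 3 + Real.log 2 := by
          rw [← Real.log_mul (by norm_num) (by norm_num)]
          norm_num
        have h8 : 1 < Real.log 3 := by
          rw [Real.lt_log_iff_exp_lt (by norm_num)]
          exact he3
        linarith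
      have h9 : (T : ℝ) * Real.log (Real.sqrt L) ≤ T * (Real.log T - 1 - Real.log 2) :=
        mul_le_mul_of_nonneg_left (by linarith) hT0'.le
      rw [h1]
      linarith
  rw [← mul_div_assoc, le_div_iff₀ hl0]
  linarith

end E8X
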