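import Pool.Agent.E8X.S5
import Pool.Agent.E8X.F6

/-!
# [E8X-S6] the strength of the shells of `E8` is `O(log m / log log m)`
-/

set_option autoImplicit false

open MeasureTheory
open Pool.Agent.MP130199 (V8 sm8 shell IsDesign)

namespace E8X

theorem strength {m t : ℕ} (hm : 3 ≤ m) (hd : IsDesign m t) :
    (t : ℝ) < 296 * (Real.log m / Real.log (Real.log m)) := by
  have hm0 : 0 < m := by omega
  have h1 : ∀ l : ℕ, l.Prime → l ≠ 2 → l ^ (t / 8 / l) ∣ 240 * m ^ 3 * ArithmeticFunction.sigma 3 m :=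
    fun l hl h2 => dvd_prod hm0 (fun n hn => shell_card hn) hd hl h2
  have h2 := fact_sq_dvd h1
  have hpos : 0 < 4 ^ (t / 8) * (240 * m ^ 3 * ArithmeticFunction.sigma 3 m) ^ 3 := by
    have : 0 < ArithmeticFunction.sigma 3 m := ArithmeticFunction.sigma_pos _ _ hm0.ne'
    positivity
  have h3 := final_bound hm (Nat.le_of_dvd hpos h2)
  have h4 : t < 8 * (t / 8) + 8 := by omega
  have h5 : (t : ℝ) < 8 * ((t / 8 : ℕ) : ℝ) + 8 := by exact_mod_cast h4
  linarith

end E8X
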